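import Pool.Agent.Tower332.Chain

/-!
The base estimate: small connected sets are unlikely to be spanned.
-/

set_option autoImplicit false
set_option linter.unusedSectionVars false

namespace Pool.Agent.Tower332

open Finset

variable {n d : ℕ}

open Classical in
/-- The number of neighbours of `u` in `D`. -/
noncomputable def wt (D : Finset (Vx n d)) (u : Vx n d) : ℕ := #(D.filter (adj u))

lemma sum_wt (D X : Finset (Vx n d)) : ∑ u ∈ X, wt D u = edges X D := rfl

lemma edges_univ_le (D : Finset (Vx n d)) : edges univ D ≤ 2 * d * #D := by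
  classical
  rw [edges_comm]
  unfold edges
  rw [mul_comm]
  refine Finset.sum_le_card_nsmul _ _ _ (fun v _ => ?_)
  exact card_nbr_le v

/-- A spanned set has many neighbours in `A`. -/
lemma Spanned.count {B : Finset (Fin d)} {y : Fin d → ℕ} {A D : Finset (Vx n d)}
    (h : Spanned B y A D) : d * #D ≤ #B * #D + edges A D + 2 * #D * Nat.log 2 #D := by
  classical
  obtain ⟨_, ρ, hρ⟩ := h
  have h1 : ∀ v ∈ D, d ≤ #B + #(A.filter (adj v)) + #(D.filter (adj v)) := by
    intro v hv
    refine (hρ v hv).trans ?_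
    rw [add_assoc]
    refine Nat.add_le_add_left ?_ _
    refine le_trans (card_le_card ?_) (card_union_le _ _)
    intro u hu
    rw [mem_filter] at hu
    rw [mem_union, mem_filter, mem_filter]
    rcases hu.2.2.2 with h | h
    · exact Or.inl ⟨h, hu.2.2.1⟩
    · exact Or.inr ⟨h.1, hu.2.2.1⟩
  have h2 : ∑ _v ∈ D, d ≤ ∑ v ∈ D, (#B + #(A.filter (adj v)) + #(D.filter (adj v))) :=
    Finset.sum_le_sum h1
  rw [Finset.sum_add_distrib, Finset.sum_add_distrib, Finset.sum_const, Finset.sum_const,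
    smul_eq_mul, smul_eq_mul] at h2
  have h3 : ∑ v ∈ D, #(A.filter (adj v)) = edges A D := edges_comm D A
  have h4 : ∑ v ∈ D, #(D.filter (adj v)) ≤ 2 * #D * Nat.log 2 #D := edges_le D
  rw [h3] at h2
  have h5 : d * #D = #D * d := mul_comm _ _
  have h6 : #B * #D = #D * #B := mul_comm _ _
  rw [h5, h6]
  omega

open Classical in
/-- The weights cut off at `W`. -/
noncomputable def wt' (W : ℕ) (D : Finset (Vx n d)) (u : Vx n d) : ℕ :=
  if W ≤ wt D u then 0 else wt D u

lemma wt'_lt {W : ℕ} (hW : 1 ≤ W) (D : Finset (Vx n d)) (u : Vx n d) : wt' W D u < W := by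
  unfold wt'
  split_ifs with h <;> omega

lemma wt'_le (W : ℕ) (D : Finset (Vx n d)) (u : Vx n d) : wt' W D u ≤ wt D u := by
  unfold wt'
  split_ifs <;> omega

/-- Heavy vertices do not matter. -/
lemma edges_le_cut (A D : Finset (Vx n d)) {l : ℕ} (hl : Nat.log 2 ((2 * d + 1) * #D) ≤ l) :
    edges A D ≤ 4 * #D * l + ∑ u ∈ A, wt' (4 * l + 1) D u := by
  classical
  set W := 4 * l + 1 with hW
  set H : Finset (Vx n d) := univ.filter (fun u => W ≤ wt D u) with hH
  have h1 : W * #H ≤ edges H D := by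
    rw [← sum_wt D H, mul_comm]
    exact Finset.card_nsmul_le_sum H (wt D) W (fun u hu => (mem_filter.mp hu).2)
  have h2 : #H ≤ 2 * d * #D := by
    have h3 : edges H D ≤ edges univ D := edges_mono (Finset.subset_univ _) subset_rfl
    have h4 := edges_univ_le D
    have h5 : #H ≤ W * #H := Nat.le_mul_of_pos_left _ (by omega)
    omega
  have h3 : #(D ∪ H) ≤ #D + #H := card_union_le _ _
  have h4 : edges H D ≤ 2 * #(D ∪ H) * Nat.log 2 #(D ∪ H) :=
    (edges_mono Finset.subset_union_right Finset.subset_union_left).trans (edges_le _)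
  have h5 : Nat.log 2 #(D ∪ H) ≤ l := by
    refine le_trans (Nat.log_mono_right ?_) hl
    have : (2 * d + 1) * #D = 2 * d * #D + #D := by ring
    omega
  have h6 : edges H D ≤ 2 * (#D + #H) * l := by
    refine h4.trans ?_
    exact Nat.mul_le_mul (Nat.mul_le_mul_left _ h3) h5
  have h7 : #H ≤ #D := by
    by_contra hcon
    push Not at hcon
    have h8 : W * #H ≤ 2 * (#D + #H) * l := h1.trans h6
    have h9 : 2 * (#D + #H) * l ≤ 2 * (#H + #H) * l :=
      Nat.mul_le_mul_right _ (Nat.mul_le_mul_left _ (by omega))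
    have h10 : W * #H = 2 * (#H + #H) * l + #H := by rw [hW]; ring
    omega
  have h8 : edges H D ≤ 4 * #D * l := by
    refine h6.trans (Nat.mul_le_mul_right _ ?_)
    omega
  have h9 : ∀ u ∈ A, wt D u ≤ (if u ∈ H then wt D u else 0) + wt' W D u := by
    intro u _
    by_cases hu : u ∈ H
    · rw [if_pos hu]; omega
    · rw [if_neg hu]
      have : ¬ W ≤ wt D u := fun h => hu (mem_filter.mpr ⟨mem_univ _, h⟩)
      unfold wt'
      rw [if_neg this]; omega
  have h10 : ∑ u ∈ A, wt D u ≤ ∑ u ∈ A, ((if u ∈ H then wt D u else 0) + wt' W D u) :=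
    Finset.sum_le_sum h9
  rw [Finset.sum_add_distrib] at h10
  have h11 : ∑ u ∈ A, (if u ∈ H then wt D u else 0) ≤ edges H D := by
    rw [← Finset.sum_filter, ← sum_wt D H]
    refine Finset.sum_le_sum_of_subset ?_
    intro u hu
    exact (mem_filter.mp hu).2
  rw [← sum_wt D A]
  exact h10.trans (Nat.add_le_add_right (h11.trans h8) _)

lemma exp_aux {p x : ℝ} (hp : p ≤ 1 / 4) (h0 : 0 ≤ p) (hx : 0 ≤ x) (hx' : x ≤ 1 / 4) :
    1 - p + p * Real.exp x ≤ Real.exp (5 / 16 * x) := by
  have h1 : Real.exp x ≤ 1 + x + x ^ 2 := by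
    have := Real.abs_exp_sub_one_sub_id_le (x := x) (by rw [abs_of_nonneg hx]; linarith)
    have h2 := (abs_le.mp this).2
    linarith
  have h2 : 1 - p + p * Real.exp x ≤ 1 + p * (x + x ^ 2) := by nlinarith
  have h3 : p * (x + x ^ 2) ≤ 5 / 16 * x := by nlinarith
  have h4 := Real.add_one_le_exp (5 / 16 * x)
  linarith

/-- The Chernoff bound for a single set. -/
theorem Pr_spanned_le {p : ℝ} (h0 : 0 ≤ p) (hp : p ≤ 1 / 4) {B : Finset (Fin d)}
    {y : Fin d → ℕ} (D : Finset (Vx n d)) {l : ℕ} (hl : Nat.log 2 ((2 * d + 1) * #D) ≤ l)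
    (hb : 8 * (#B + 6 * l) ≤ d) :
    Pr p univ (fun A => Spanned B y A D) ≤ Real.exp (-(d / (16 * (4 * l + 1)))) ^ #D := by
  classical
  have hp1 : p ≤ 1 := by linarith
  set W := 4 * l + 1 with hW
  set lam : ℝ := 1 / (4 * W) with hlam
  have hWpos : (0 : ℝ) < W := by rw [hW]; positivity
  have hlam0 : 0 < lam := by rw [hlam]; positivity
  set t : ℝ := (3 / 8 * d - 0) with ht
  set thr : ℝ := ((d : ℝ) - #B - 6 * l) * #D with hthr
  have key : ∀ A : Finset (Vx n d), Spanned B y A D → thr ≤ ∑ u ∈ A, (wt' W D u : ℝ) := by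
    intro A hA
    have h1 := hA.count
    have h2 := edges_le_cut A D hl
    rw [← hW] at h2
    have h3 : Nat.log 2 #D ≤ l := by
      refine le_trans (Nat.log_mono_right ?_) hl
      exact Nat.le_mul_of_pos_left _ (by omega)
    have h4 : 2 * #D * Nat.log 2 #D ≤ 2 * #D * l := Nat.mul_le_mul_left _ h3
    have h5 : d * #D ≤ #B * #D + (4 * #D * l + ∑ u ∈ A, wt' W D u) + 2 * #D * l := by omega
    have h6 : ((d * #D : ℕ) : ℝ) ≤
        ((#B * #D + (4 * #D * l + ∑ u ∈ A, wt' W D u) + 2 * #D * l : ℕ) : ℝ) := by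
      exact_mod_cast h5
    push_cast at h6
    rw [hthr]
    nlinarith
  have h1 : Pr p univ (fun A => Spanned B y A D) ≤
      Ex p univ (fun A => Real.exp (-(lam * thr)) * ∏ u ∈ A, Real.exp (lam * wt' W D u)) := by
    refine Pr_le_Ex h0 hp1 (fun A _ => by positivity) (fun A _ hA => ?_)
    rw [← Real.exp_sum, ← Real.exp_add, ← Finset.mul_sum]
    refine Real.one_le_exp ?_
    have := mul_le_mul_of_nonneg_left (key A hA) hlam0.le
    linarith
  refine h1.trans ?_
  rw [Ex_mul_left, Ex_prod]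
  have h2 : ∏ u : Vx n d, (1 - p + p * Real.exp (lam * wt' W D u)) ≤
      ∏ u : Vx n d, Real.exp (5 / 16 * (lam * wt' W D u)) := by
    refine Finset.prod_le_prod (fun u _ => ?_) (fun u _ => ?_)
    · have := Real.exp_pos (lam * wt' W D u)
      have : 0 ≤ p * Real.exp (lam * wt' W D u) := by positivity
      linarith
    · refine exp_aux hp h0 (by positivity) ?_
      have h3 : (wt' W D u : ℝ) ≤ W := by
        exact_mod_cast (wt'_lt (by omega) D u).le
      have h4 : lam * wt' W D u ≤ lam * W := mul_le_mul_of_nonneg_left h3 hlam0.le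
      have h5 : lam * W = 1 / 4 := by rw [hlam]; field_simp
      linarith
  rw [← Real.exp_sum, ← Finset.mul_sum, ← Finset.mul_sum] at h2
  have h3 : ∑ u : Vx n d, (wt' W D u : ℝ) ≤ 2 * d * #D := by
    have h4 : ∑ u : Vx n d, wt' W D u ≤ 2 * d * #D :=
      (Finset.sum_le_sum (fun u _ => wt'_le W D u)).trans (edges_univ_le D)
    exact_mod_cast h4
  have h4 : Real.exp (5 / 16 * (lam * ∑ u : Vx n d, (wt' W D u : ℝ))) ≤
      Real.exp (5 / 16 * (lam * (2 * d * #D))) := by
    apply Real.exp_le_exp.mpr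
    have := mul_le_mul_of_nonneg_left h3 hlam0.le
    linarith
  refine (mul_le_mul_of_nonneg_left (h2.trans h4) (Real.exp_pos _).le).trans ?_
  rw [← Real.exp_add, ← Real.exp_nat_mul]
  apply Real.exp_le_exp.mpr
  have hb' : (8 : ℝ) * (#B + 6 * l) ≤ d := by exact_mod_cast hb
  have h5 : (d : ℝ) / (16 * (4 * l + 1)) = lam * (d / 4) := by
    rw [hlam, hW]; push_cast; field_simp; ring
  rw [h5, hthr]
  have hD0 : (0 : ℝ) ≤ #D := Nat.cast_nonneg _
  have h6 : 0 ≤ lam * #D * ((d : ℝ) - 8 * (#B + 6 * l)) :=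
    mul_nonneg (mul_nonneg hlam0.le hD0) (by linarith)
  nlinarith

/-- The union bound over connected sets. -/
theorem Pr_EvE_base {p : ℝ} (h0 : 0 ≤ p) (hp : p ≤ 1 / 4) {B : Finset (Fin d)}
    {y : Fin d → ℕ} (x : Vx n d) {s l : ℕ} (hs : 1 ≤ s)
    (hl : Nat.log 2 ((2 * d + 1) * s) ≤ l) (hb : 8 * (#B + 6 * l) ≤ d) :
    Pr p univ (EvE B y x s) ≤
      ((s : ℝ) * (2 * d + 1) ^ 2 * Real.exp (-(d / (16 * (4 * l + 1))))) ^ s := by
  classical
  have hp1 : p ≤ 1 := by linarith
  have h1 : Pr p univ (EvE B y x s) ≤ Pr p univ (fun A => ∃ D ∈ (Conns x (s - 1)).filter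
      (fun D => #D = s), Spanned B y A D) := by
    refine Pr_mono h0 hp1 (fun A _ hE => ?_)
    obtain ⟨D, k1, k2, k3, k4⟩ := hE
    refine ⟨D, mem_filter.mpr ⟨?_, k1⟩, k4⟩
    rw [← k1]
    exact mem_Conns k3 k2
  refine h1.trans ((Pr_exists_le h0 hp1 _ _).trans ?_)
  set X := Real.exp (-(d / (16 * (4 * l + 1)))) with hX
  have hX0 : 0 < X := Real.exp_pos _
  have h2 : ∀ D ∈ (Conns x (s - 1)).filter (fun D => #D = s),
      Pr p univ (fun A => Spanned B y A D) ≤ X ^ s := by
    intro D hD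
    have hDs := (mem_filter.mp hD).2
    have := Pr_spanned_le (n := n) (y := y) h0 hp D (l := l) (by rw [hDs]; exact hl) hb
    rwa [hDs] at this
  refine (Finset.sum_le_sum h2).trans ?_
  rw [Finset.sum_const, nsmul_eq_mul, mul_pow]
  refine mul_le_mul_of_nonneg_right ?_ (by positivity)
  have h3 : #((Conns x (s - 1)).filter (fun D => #D = s)) ≤ (s * (2 * d + 1) ^ 2) ^ s := by
    refine (card_le_card (Finset.filter_subset _ _)).trans ((card_Conns_le x (s - 1)).trans ?_)
    rw [show s - 1 + 1 = s by omega]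
    exact Nat.pow_le_pow_right (Nat.mul_pos (by omega) (Nat.pos_of_ne_zero (by positivity)))
      (by omega)
  exact_mod_cast h3

end Pool.Agent.Tower332
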