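import Pool.Agent.Tower332.Span

/-!
Chains of slab clusters: a large connected spanned set contains a long chain of spanned sets of
thinner slabs, which occur disjointly.
-/

set_option autoImplicit false
set_option linter.unusedSectionVars false

namespace Pool.Agent.Tower332

open Finset

variable {n d : ℕ}

/-- A chain of `L` disjointly occurring slab clusters of size at most `S`, starting at `x`, for
slabs of thickness two perpendicular to direction `i`. -/
def Ch (B : Finset (Fin d)) (y : Fin d → ℕ) (i : Fin d) (S : ℕ) :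
    ℕ → Vx n d → Finset (Vx n d) → Prop
  | 0, _, _ => True
  | L + 1, x, A => ∃ s ∈ Finset.Icc 1 S, ∃ x' ∈ ball x (2 * s),
      Box (EvE (insert i B) (Function.update y i ((x i : ℕ) / 2)) x s) (Ch B y i S L x') A

lemma Box.mono {V : Type*} {E F : Finset V → Prop} {A A' : Finset V} (h : A ⊆ A')
    (hB : Box E F A) : Box E F A' := by
  obtain ⟨W₁, W₂, h1, h2, h3⟩ := hB
  exact ⟨W₁, W₂, h1.trans h, h2.trans h, h3⟩

lemma Ch.mono {B : Finset (Fin d)} {y : Fin d → ℕ} {i : Fin d} {S : ℕ} (L : ℕ) {x : Vx n d}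
    {A A' : Finset (Vx n d)} (h : A ⊆ A') (hC : Ch B y i S L x A) : Ch B y i S L x A' := by
  cases L with
  | zero => trivial
  | succ L =>
    obtain ⟨s, hs, x', hx', hB⟩ := hC
    exact ⟨s, hs, x', hx', hB.mono h⟩

lemma sum_inv_le (S : ℕ) : ∑ s ∈ Finset.Icc 1 S, (1 : ℝ) / (8 * s * (s + 1)) ≤ 1 / 8 := by
  have h : ∑ s ∈ Finset.Icc 1 S, (1 : ℝ) / (8 * s * (s + 1)) = 1 / 8 - 1 / (8 * (S + 1)) := by
    induction S with
    | zero => simp
    | succ S ih =>
      rw [Finset.sum_Icc_succ_top (by omega), ih]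
      push_cast
      field_simp
      ring
  rw [h]
  have : (0 : ℝ) ≤ 1 / (8 * (S + 1)) := by positivity
  linarith

/-- Long chains are unlikely. -/
theorem Pr_Ch_le {p : ℝ} (h0 : 0 ≤ p) (h1 : p ≤ 1 / 2) {B : Finset (Fin d)} {y : Fin d → ℕ}
    {i : Fin d} {S : ℕ}
    (hcrit : ∀ (x : Vx n d), ∀ s ∈ Finset.Icc 1 S, (#(ball x (2 * s)) : ℝ) *
      Pr p univ (EvE (insert i B) (Function.update y i ((x i : ℕ) / 2)) x s) ≤
        1 / (8 * s * (s + 1))) (L : ℕ) (x : Vx n d) :
    Pr p univ (Ch B y i S L x) ≤ (1 / 8) ^ L := by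
  have hp1 : p ≤ 1 := by linarith
  induction L generalizing x with
  | zero =>
    rw [pow_zero]
    exact Pr_le_one h0 hp1
  | succ L ih =>
    have k1 : Pr p univ (Ch B y i S (L + 1) x) ≤ ∑ s ∈ Finset.Icc 1 S, Pr p univ
        (fun A => ∃ x' ∈ ball x (2 * s),
          Box (EvE (insert i B) (Function.update y i ((x i : ℕ) / 2)) x s)
            (Ch B y i S L x') A) := by
      refine le_trans ?_ (Pr_exists_le h0 hp1 _ _)
      exact Pr_mono h0 hp1 (fun A _ h => h)
    refine k1.trans ?_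
    have k2 : ∀ s ∈ Finset.Icc 1 S, Pr p univ
        (fun A => ∃ x' ∈ ball x (2 * s),
          Box (EvE (insert i B) (Function.update y i ((x i : ℕ) / 2)) x s)
            (Ch B y i S L x') A) ≤ 1 / (8 * s * (s + 1)) * (1 / 8) ^ L := by
      intro s hs
      refine (Pr_exists_le h0 hp1 _ _).trans ?_
      set e := Pr p univ (EvE (n := n) (insert i B) (Function.update y i ((x i : ℕ) / 2)) x s)
        with he
      have he0 : 0 ≤ e := Pr_nonneg h0 hp1
      have k3 : ∀ x' ∈ ball x (2 * s), Pr p univ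
          (Box (EvE (insert i B) (Function.update y i ((x i : ℕ) / 2)) x s)
            (Ch B y i S L x')) ≤ e * (1 / 8) ^ L := by
        intro x' _
        refine (Pr_box_le h0 h1 (fun A A' h hE => hE.mono h)
          (fun A A' h hC => Ch.mono L h hC)).trans ?_
        exact mul_le_mul_of_nonneg_left (ih x') he0
      refine (Finset.sum_le_sum k3).trans ?_
      rw [Finset.sum_const, nsmul_eq_mul, ← mul_assoc]
      exact mul_le_mul_of_nonneg_right (hcrit x s hs) (by positivity)
    refine (Finset.sum_le_sum k2).trans ?_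
    rw [← Finset.sum_mul, pow_succ, mul_comm ((1 / 8 : ℝ) ^ L)]
    exact mul_le_mul_of_nonneg_right (sum_inv_le S) (by positivity)

section Exists

variable {B : Finset (Fin d)} {y : Fin d → ℕ} {i : Fin d} {A C : Finset (Vx n d)}

open Classical in
/-- The part of `A` relevant for `U`. -/
noncomputable def Wit (B : Finset (Fin d)) (y : Fin d → ℕ) (i : Fin d) (A U : Finset (Vx n d)) :
    Finset (Vx n d) :=
  A.filter (fun u => inR B y u ∧ ∃ v ∈ U, adj v u ∧ (u i : ℕ) / 2 = (v i : ℕ) / 2)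

lemma Wit_mono {U U' : Finset (Vx n d)} (h : U ⊆ U') : Wit B y i A U ⊆ Wit B y i A U' := by
  classical
  intro u hu
  unfold Wit at *
  rw [mem_filter] at hu ⊢
  obtain ⟨h1, h2, v, hv, h3⟩ := hu
  exact ⟨h1, h2, v, h hv, h3⟩

/-- The slab cluster of `x` in `C`. -/
noncomputable def slabComp (i : Fin d) (C : Finset (Vx n d)) (x : Vx n d) : Finset (Vx n d) :=
  comp (C.filter (fun u => (u i : ℕ) / 2 = (x i : ℕ) / 2)) x

lemma slabComp_subset (x : Vx n d) : slabComp i C x ⊆ C :=
  (comp_subset _ _).trans (Finset.filter_subset _ _)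

lemma slab_of_mem {x v : Vx n d} (hv : v ∈ slabComp i C x) : (v i : ℕ) / 2 = (x i : ℕ) / 2 :=
  (mem_filter.mp (comp_subset _ _ hv)).2

lemma mem_slabComp_of_near {x v w : Vx n d} (hv : v ∈ slabComp i C x) (hw : w ∈ C)
    (h : near v w) (hs : (w i : ℕ) / 2 = (v i : ℕ) / 2) : w ∈ slabComp i C x :=
  mem_comp_of_near hv (mem_filter.mpr ⟨hw, hs.trans (slab_of_mem hv)⟩) h

lemma self_mem_slabComp {x : Vx n d} (hx : x ∈ C) : x ∈ slabComp i C x :=
  self_mem_comp (mem_filter.mpr ⟨hx, rfl⟩)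

lemma slabComp_spanned (hi : i ∉ B) (hC : Spanned B y A C) (x : Vx n d) :
    Spanned (insert i B) (Function.update y i ((x i : ℕ) / 2)) (Wit B y i A (slabComp i C x))
      (slabComp i C x) := by
  classical
  obtain ⟨hin, ρ, hρ⟩ := hC
  have hreg : ∀ u : Vx n d, inR B y u → (u i : ℕ) / 2 = (x i : ℕ) / 2 →
      inR (insert i B) (Function.update y i ((x i : ℕ) / 2)) u := by
    intro u hu hux j hj
    by_cases hji : j = i
    · subst hji
      rw [Function.update_self]; exact hux
    · rw [Function.update_of_ne hji]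
      exact hu j ((Finset.mem_insert.mp hj).resolve_left hji)
  refine ⟨fun v hv => hreg v (hin v (slabComp_subset x hv)) (slab_of_mem hv), ρ,
    fun v hv => ?_⟩
  have h1 := hρ v (slabComp_subset x hv)
  have h2 : (univ.filter fun u => inR B y u ∧ adj v u ∧ (u ∈ A ∨ (u ∈ C ∧ ρ u < ρ v))) ⊆
      (univ.filter fun u => inR (insert i B) (Function.update y i ((x i : ℕ) / 2)) u ∧ adj v u ∧
        (u ∈ Wit B y i A (slabComp i C x) ∨ (u ∈ slabComp i C x ∧ ρ u < ρ v))) ∪
      (univ.filter fun u => adj v u ∧ (u i : ℕ) / 2 ≠ (v i : ℕ) / 2) := by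
    intro u hu
    rw [mem_filter] at hu
    rw [mem_union, mem_filter, mem_filter]
    by_cases hs : (u i : ℕ) / 2 = (v i : ℕ) / 2
    · left
      refine ⟨mem_univ _, hreg u hu.2.1 (hs.trans (slab_of_mem hv)), hu.2.2.1, ?_⟩
      rcases hu.2.2.2 with h3 | h3
      · left
        unfold Wit
        exact mem_filter.mpr ⟨h3, hu.2.1, v, hv, hu.2.2.1, hs⟩
      · right
        exact ⟨mem_slabComp_of_near hv h3.1 (near_of_adj hu.2.2.1) hs, h3.2⟩
    · right
      exact ⟨mem_univ _, hu.2.2.1, hs⟩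
  have h3 : #(univ.filter fun u : Vx n d => adj v u ∧ (u i : ℕ) / 2 ≠ (v i : ℕ) / 2) ≤ 1 := by
    rw [card_le_one]
    intro a ha b hb
    rw [mem_filter] at ha hb
    have key : ∀ w : Vx n d, adj v w → (w i : ℕ) / 2 ≠ (v i : ℕ) / 2 →
        (∀ j, j ≠ i → v j = w j) ∧ ((v i : ℕ) + 1 = w i ∨ (w i : ℕ) + 1 = v i) := by
      intro w ⟨j, hj1, hj2⟩ hne
      have hji : j = i := by
        by_contra hcon
        exact hne (by rw [hj2 i (fun h => hcon h.symm)])
      subst hji
      exact ⟨hj2, hj1⟩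
    obtain ⟨ka, ka'⟩ := key a ha.2.1 ha.2.2
    obtain ⟨kb, kb'⟩ := key b hb.2.1 hb.2.2
    have ha3 := ha.2.2
    have hb3 := hb.2.2
    funext j
    by_cases hj : j = i
    · subst hj
      exact Fin.ext (by omega)
    · rw [← ka j hj, ← kb j hj]
  have h4 := card_le_card h2
  have h5 := card_union_le
    (univ.filter fun u => inR (insert i B) (Function.update y i ((x i : ℕ) / 2)) u ∧ adj v u ∧
        (u ∈ Wit B y i A (slabComp i C x) ∨ (u ∈ slabComp i C x ∧ ρ u < ρ v)))
    (univ.filter fun u => adj v u ∧ (u i : ℕ) / 2 ≠ (v i : ℕ) / 2)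
  rw [card_insert_of_notMem hi]
  omega

/-- Existence of long chains. -/
theorem exists_chain (hi : i ∉ B) (hC : Spanned B y A C) {S : ℕ} (hS : #C ≤ S) (L : ℕ)
    (U : Finset (Vx n d)) (hU : Conn U) (hUC : U ⊆ C)
    (hcl : ∀ v ∈ U, ∀ w ∈ C, near v w → (w i : ℕ) / 2 = (v i : ℕ) / 2 → w ∈ U)
    {x z : Vx n d} (hx : x ∈ U) (hz : z ∈ U) (hxz : (x i : ℕ) / 2 + L ≤ (z i : ℕ) / 2 + 1) :
    Ch B y i S L x (Wit B y i A U) := by
  classical
  induction L generalizing U x with
  | zero => trivial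
  | succ L ih =>
    set D := slabComp i C x with hD
    have hxC : x ∈ C := hUC hx
    have hDC : D ⊆ C := slabComp_subset x
    have hDU : D ⊆ U := by
      intro v hv
      have hv' := (mem_comp.mp hv).2
      have : ∀ w, Relation.ReflTransGen
          (lnk (C.filter (fun u => (u i : ℕ) / 2 = (x i : ℕ) / 2))) x w → w ∈ U := by
        intro w hw
        induction hw with
        | refl => exact hx
        | tail _ h2 ih' =>
          have ha := (mem_filter.mp h2.2.1).2
          have hb := mem_filter.mp h2.2.2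
          exact hcl _ ih' _ hb.1 h2.1 (hb.2.trans ha.symm)
      exact this v hv'
    have hconn : Conn D := conn_comp _ _
    have hxD : x ∈ D := self_mem_slabComp hxC
    have hE : EvE (insert i B) (Function.update y i ((x i : ℕ) / 2)) x #D (Wit B y i A D) :=
      ⟨D, rfl, hxD, hconn, slabComp_spanned hi hC x⟩
    have hDS : #D ∈ Finset.Icc 1 S :=
      Finset.mem_Icc.mpr ⟨card_pos.mpr ⟨x, hxD⟩, (card_le_card hDC).trans hS⟩
    cases L with
    | zero =>
      refine ⟨#D, hDS, x, ?_, Wit B y i A D, ∅, Wit_mono hDU, Finset.empty_subset _,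
        Finset.disjoint_empty_right _, hE, trivial⟩
      rw [mem_ball, dst_self]
      omega
    | succ L =>
      have hzD : z ∉ D := by
        intro h
        have := slab_of_mem h
        omega
      have hzU : z ∈ U \ D := mem_sdiff.mpr ⟨hz, hzD⟩
      obtain ⟨a, ha, b, hb, hab, _⟩ := comp_near hU hxD hx hzU
      set U' := comp (U \ D) z with hU'
      have hU'sub : U' ⊆ U \ D := comp_subset _ _
      have haU : a ∈ U \ D := hU'sub ha
      have hcl' : ∀ v ∈ U', ∀ w ∈ C, near v w → (w i : ℕ) / 2 = (v i : ℕ) / 2 → w ∈ U' := by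
        intro v hv w hw hvw hs
        have hvU := mem_sdiff.mp (hU'sub hv)
        have hwU := hcl v hvU.1 w hw hvw hs
        have hwD : w ∉ D := by
          intro hwD
          exact hvU.2 (mem_slabComp_of_near hwD (hUC hvU.1) (near_symm hvw) hs.symm)
        exact mem_comp_of_near hv (mem_sdiff.mpr ⟨hwU, hwD⟩) hvw
      have hsl : (a i : ℕ) / 2 + (L + 1) ≤ (z i : ℕ) / 2 + 1 := by
        have h1 := slab_of_mem hb
        have h2 := cd_le_dst a b i
        have h3 : dst a b ≤ 2 := hab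
        omega
      have hch := ih U' (conn_comp _ _) (hU'sub.trans (Finset.sdiff_subset.trans hUC)) hcl' ha
        (self_mem_comp hzU) hsl
      refine ⟨#D, hDS, a, ?_, Wit B y i A D, Wit B y i A U', Wit_mono hDU,
        Wit_mono (hU'sub.trans Finset.sdiff_subset), ?_, hE, hch⟩
      · have h1 := mem_ball.mp (subset_ball hconn hxD hb)
        have h2 := dst_triangle x b a
        have h3 : dst b a ≤ 2 := near_symm hab
        have h4 := (Finset.mem_Icc.mp hDS).1
        rw [mem_ball]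
        omega
      · rw [Finset.disjoint_left]
        intro u hu hu'
        unfold Wit at hu hu'
        rw [mem_filter] at hu hu'
        obtain ⟨_, _, v, hv, hvu, hs⟩ := hu
        obtain ⟨_, _, v', hv', hvu', hs'⟩ := hu'
        have hnear : near v v' := near_of_adj_adj (adj_symm hvu) (adj_symm hvu')
        have hv'U := mem_sdiff.mp (hU'sub hv')
        exact hv'U.2 (mem_slabComp_of_near hv (hUC hv'U.1) hnear (hs'.symm.trans hs))

end Exists

/-- A set with more than `k ^ d` points is long in some direction. -/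
lemma exists_long {D : Finset (Vx n d)} {k : ℕ} (h : k ^ d < #D) :
    ∃ i, ∃ x ∈ D, ∃ z ∈ D, (x i : ℕ) + k ≤ z i := by
  classical
  by_contra hcon
  push Not at hcon
  have hne : D.Nonempty := by rw [← card_pos]; omega
  have hmin : ∀ i, ∃ m ∈ D, ∀ x ∈ D, (m i : ℕ) ≤ x i := fun i =>
    Finset.exists_min_image D (fun x => (x i : ℕ)) hne
  choose m hm hm' using hmin
  have h1 : D ⊆ Fintype.piFinset
      (fun i => univ.filter (fun c : Fin n => (m i i : ℕ) ≤ c ∧ (c : ℕ) < m i i + k)) := by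
    intro x hx
    rw [Fintype.mem_piFinset]
    intro i
    rw [mem_filter]
    exact ⟨mem_univ _, hm' i x hx, hcon i (m i) (hm i) x hx⟩
  have h2 : ∀ i : Fin d,
      #(univ.filter (fun c : Fin n => (m i i : ℕ) ≤ c ∧ (c : ℕ) < m i i + k)) ≤ k := by
    intro i
    have h3 : #(univ.filter (fun c : Fin n => (m i i : ℕ) ≤ c ∧ (c : ℕ) < m i i + k)) ≤
        #(Finset.Ico (m i i : ℕ) (m i i + k)) := by
      refine Finset.card_le_card_of_injOn (fun c => (c : ℕ)) ?_ ?_
      · intro c hc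
        have hc' := (mem_filter.mp (Finset.mem_coe.mp hc)).2
        rw [Finset.mem_coe, Finset.mem_Ico]
        exact hc'
      · intro a _ b _ h
        exact Fin.ext h
    rw [Nat.card_Ico] at h3
    omega
  have h4 : #D ≤ k ^ d :=
    calc #D ≤ _ := card_le_card h1
    _ = ∏ i : Fin d, #(univ.filter (fun c : Fin n => (m i i : ℕ) ≤ c ∧ (c : ℕ) < m i i + k)) :=
        Fintype.card_piFinset _
    _ ≤ ∏ _i : Fin d, k := Finset.prod_le_prod' (fun i _ => h2 i)
    _ = k ^ d := by simp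
  omega

/-- A large connected spanned set contains a long chain. -/
theorem EvE.chain {B : Finset (Fin d)} {y : Fin d → ℕ} {v : Vx n d} {s S k : ℕ}
    {A : Finset (Vx n d)} (hE : EvE B y v s A) (hs : s ≤ S) (hk : 2 ≤ k) (hks : k ^ d < s) :
    ∃ i ∈ Bᶜ, ∃ x ∈ ball v (2 * s), Ch B y i S (k / 2) x A := by
  classical
  obtain ⟨C, h1, h2, h3, h4⟩ := hE
  obtain ⟨i, x, hx, z, hz, hxz⟩ := exists_long (D := C) (by rw [h1]; exact hks)
  have hi : i ∉ B := by
    intro hi
    have e1 := h4.1 x hx i hi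
    have e2 := h4.1 z hz i hi
    omega
  refine ⟨i, Finset.mem_compl.mpr hi, x, ?_, ?_⟩
  · have := mem_ball.mp (subset_ball h3 h2 hx)
    rw [mem_ball]
    omega
  · have := exists_chain hi h4 (S := S) (by omega) (k / 2) C h3 subset_rfl
      (fun _ _ w hw _ _ => hw) hx hz (by omega)
    refine Ch.mono _ ?_ this
    unfold Wit
    exact Finset.filter_subset _ _

/-- The basic estimate of the induction. -/
theorem Pr_EvE_chain {p : ℝ} (h0 : 0 ≤ p) (h1 : p ≤ 1 / 2) {B : Finset (Fin d)} {y : Fin d → ℕ}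
    {S : ℕ} (hcrit : ∀ i ∉ B, ∀ (x : Vx n d), ∀ s ∈ Finset.Icc 1 S, (#(ball x (2 * s)) : ℝ) *
      Pr p univ (EvE (insert i B) (Function.update y i ((x i : ℕ) / 2)) x s) ≤
        1 / (8 * s * (s + 1))) (v : Vx n d) {s k : ℕ} (hs : s ≤ S) (hk : 2 ≤ k)
    (hks : k ^ d < s) :
    Pr p univ (EvE B y v s) ≤ d * #(ball v (2 * s)) * (1 / 8) ^ (k / 2) := by
  classical
  have hp1 : p ≤ 1 := by linarith
  calc Pr p univ (EvE B y v s) ≤ Pr p univ (fun A => ∃ i ∈ Bᶜ, ∃ x ∈ ball v (2 * s),
        Ch B y i S (k / 2) x A) := Pr_mono h0 hp1 (fun A _ hE => hE.chain hs hk hks)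
    _ ≤ ∑ i ∈ Bᶜ, Pr p univ (fun A => ∃ x ∈ ball v (2 * s), Ch B y i S (k / 2) x A) :=
        Pr_exists_le h0 hp1 _ _
    _ ≤ ∑ i ∈ Bᶜ, ∑ x ∈ ball v (2 * s), Pr p univ (Ch B y i S (k / 2) x) :=
        Finset.sum_le_sum (fun i _ => Pr_exists_le h0 hp1 _ _)
    _ ≤ ∑ i ∈ Bᶜ, ∑ _x ∈ ball v (2 * s), ((1 : ℝ) / 8) ^ (k / 2) :=
        Finset.sum_le_sum (fun i hi => Finset.sum_le_sum (fun x _ =>
          Pr_Ch_le h0 h1 (hcrit i (Finset.mem_compl.mp hi)) _ x))
    _ = #Bᶜ * (#(ball v (2 * s)) * (1 / 8) ^ (k / 2)) := by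
        rw [Finset.sum_const, Finset.sum_const, nsmul_eq_mul, nsmul_eq_mul]
    _ ≤ d * (#(ball v (2 * s)) * (1 / 8) ^ (k / 2)) := by
        refine mul_le_mul_of_nonneg_right ?_ (by positivity)
        have : #Bᶜ ≤ d := by
          have := Finset.card_le_univ Bᶜ
          simpa using this
        exact_mod_cast this
    _ = d * #(ball v (2 * s)) * (1 / 8) ^ (k / 2) := by ring

end Pool.Agent.Tower332
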