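import Mathlib

/-!
Elementary geometry of the grid `Z_n^d`: adjacency, distances, balls, and a crude
edge-isoperimetric inequality.
-/

set_option autoImplicit false
set_option linter.unusedSectionVars false

namespace Pool.Agent.Tower332

open Finset

/-- Vertices of the grid. -/
abbrev Vx (n d : ℕ) := Fin d → Fin n

variable {n d : ℕ}

/-- Two vertices are adjacent if they differ by exactly `1` in exactly one coordinate. -/
def adj (x y : Vx n d) : Prop :=
  ∃ i, ((x i : ℕ) + 1 = y i ∨ (y i : ℕ) + 1 = x i) ∧ ∀ j, j ≠ i → x j = y j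

/-- The `ℓ^1` distance. -/
def dst (x y : Vx n d) : ℕ := ∑ i, (((x i : ℕ) - y i) + ((y i : ℕ) - x i))

/-- Distance at most two. -/
def near (x y : Vx n d) : Prop := dst x y ≤ 2

lemma adj_symm {x y : Vx n d} (h : adj x y) : adj y x := by
  obtain ⟨i, h1, h2⟩ := h
  exact ⟨i, h1.symm, fun j hj => (h2 j hj).symm⟩

lemma adj_irrefl (x : Vx n d) : ¬ adj x x := by
  rintro ⟨i, h1 | h1, _⟩ <;> omega

lemma dst_self (x : Vx n d) : dst x x = 0 := by simp [dst]

lemma dst_comm (x y : Vx n d) : dst x y = dst y x := by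
  unfold dst
  exact Finset.sum_congr rfl (fun i _ => by omega)

lemma dst_triangle (x y z : Vx n d) : dst x z ≤ dst x y + dst y z := by
  unfold dst
  rw [← Finset.sum_add_distrib]
  exact Finset.sum_le_sum (fun i _ => by omega)

lemma cd_le_dst (x y : Vx n d) (i : Fin d) :
    ((x i : ℕ) - y i) + ((y i : ℕ) - x i) ≤ dst x y :=
  Finset.single_le_sum (f := fun i => ((x i : ℕ) - y i) + ((y i : ℕ) - x i))
    (fun _ _ => Nat.zero_le _) (mem_univ i)

lemma dst_of_adj {x y : Vx n d} (h : adj x y) : dst x y = 1 := by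
  obtain ⟨i, h1, h2⟩ := h
  unfold dst
  rw [Finset.sum_eq_single i]
  · omega
  · intro j _ hj
    rw [h2 j hj]; omega
  · intro h; exact absurd (mem_univ i) h

lemma near_refl (x : Vx n d) : near x x := by
  unfold near; rw [dst_self]; omega

lemma near_symm {x y : Vx n d} (h : near x y) : near y x := by
  unfold near at *; rwa [dst_comm]

lemma near_of_adj {x y : Vx n d} (h : adj x y) : near x y := by
  unfold near; rw [dst_of_adj h]; omega

lemma near_of_adj_adj {u v w : Vx n d} (h : adj u v) (h' : adj u w) : near v w := by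
  unfold near
  have h1 := dst_triangle v u w
  rw [dst_comm v u, dst_of_adj h, dst_of_adj h'] at h1
  exact h1

lemma eq_of_dst_eq_zero {x y : Vx n d} (h : dst x y = 0) : x = y := by
  funext i
  have := cd_le_dst x y i
  rw [h] at this
  exact Fin.ext (by omega)

/-- Geodesics exist. -/
lemma exists_adj_between {x y : Vx n d} {r : ℕ} (h : dst x y = r + 1) :
    ∃ z, dst x z = r ∧ adj z y ∧ ∀ i, min (x i : ℕ) (y i) ≤ z i ∧ (z i : ℕ) ≤ max (x i : ℕ) (y i) := by
  have hne : ∃ i, x i ≠ y i := by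
    by_contra hcon
    push Not at hcon
    have : x = y := funext hcon
    rw [this, dst_self] at h
    omega
  obtain ⟨i, hi⟩ := hne
  have hi' : (x i : ℕ) ≠ y i := fun h' => hi (Fin.ext h')
  -- the new coordinate
  have hn : ∃ c : Fin n, (((c : ℕ) + 1 = y i) ∨ ((y i : ℕ) + 1 = c)) ∧
      (((x i : ℕ) - c) + ((c : ℕ) - x i)) + 1 = (((x i : ℕ) - y i) + ((y i : ℕ) - x i)) := by
    rcases lt_or_gt_of_ne hi' with hlt | hlt
    · refine ⟨⟨(y i : ℕ) - 1, by have := (y i).2; omega⟩, Or.inl ?_, ?_⟩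
      · show (y i : ℕ) - 1 + 1 = y i; omega
      · show (((x i : ℕ) - ((y i : ℕ) - 1)) + ((((y i : ℕ) - 1)) - x i)) + 1 = _; omega
    · refine ⟨⟨(y i : ℕ) + 1, by have := (x i).2; omega⟩, Or.inr rfl, ?_⟩
      · show (((x i : ℕ) - ((y i : ℕ) + 1)) + ((((y i : ℕ) + 1)) - x i)) + 1 = _; omega
  obtain ⟨c, hc1, hc2⟩ := hn
  refine ⟨Function.update y i c, ?_, ⟨i, ?_, ?_⟩, ?_⟩
  · have h1 : dst x y = (((x i : ℕ) - y i) + ((y i : ℕ) - x i)) +
        ∑ j ∈ univ.erase i, (((x j : ℕ) - y j) + ((y j : ℕ) - x j)) := by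
      unfold dst
      exact (Finset.add_sum_erase _ (fun j => (((x j : ℕ) - y j) + ((y j : ℕ) - x j)))
        (mem_univ i)).symm
    have h2 : dst x (Function.update y i c) = (((x i : ℕ) - c) + ((c : ℕ) - x i)) +
        ∑ j ∈ univ.erase i, (((x j : ℕ) - y j) + ((y j : ℕ) - x j)) := by
      unfold dst
      rw [← Finset.add_sum_erase _ _ (mem_univ i)]
      congr 1
      · simp
      · refine Finset.sum_congr rfl (fun j hj => ?_)
        rw [Function.update_of_ne (ne_of_mem_erase hj)]
    omega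
  · simpa using hc1
  · intro j hj
    rw [Function.update_of_ne hj]
  · intro j
    by_cases hj : j = i
    · subst hj
      rw [Function.update_self]
      omega
    · rw [Function.update_of_ne hj]
      omega

lemma exists_adj_of_dst {x y : Vx n d} {r : ℕ} (h : dst x y = r + 1) :
    ∃ z, dst x z = r ∧ adj z y := by
  obtain ⟨z, h1, h2, _⟩ := exists_adj_between h
  exact ⟨z, h1, h2⟩

open Classical in
/-- Neighbours of a vertex. -/
noncomputable def nbr (x : Vx n d) : Finset (Vx n d) := univ.filter (adj x)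

lemma mem_nbr {x y : Vx n d} : y ∈ nbr x ↔ adj x y := by simp [nbr]

lemma card_nbr_le (x : Vx n d) : #(nbr x) ≤ 2 * d := by
  classical
  let f : Fin d × Bool → Vx n d := fun q =>
    if h : (x q.1 : ℕ) + 1 < n ∧ q.2 = true then Function.update x q.1 ⟨(x q.1 : ℕ) + 1, h.1⟩
    else Function.update x q.1 ⟨(x q.1 : ℕ) - 1, by have := (x q.1).2; omega⟩
  have h1 : nbr x ⊆ univ.image f := by
    intro y hy
    rw [mem_nbr] at hy
    obtain ⟨i, h1, h2⟩ := hy
    rw [mem_image]
    rcases h1 with h1 | h1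
    · refine ⟨(i, true), mem_univ _, ?_⟩
      have hlt : (x i : ℕ) + 1 < n := by rw [h1]; exact (y i).2
      have : f (i, true) = Function.update x i ⟨(x i : ℕ) + 1, hlt⟩ := by
        simp only [f]
        rw [dif_pos ⟨hlt, trivial⟩]
      rw [this]
      funext j
      by_cases hj : j = i
      · subst hj
        rw [Function.update_self]
        exact Fin.ext h1
      · rw [Function.update_of_ne hj]; exact h2 j hj
    · refine ⟨(i, false), mem_univ _, ?_⟩
      have : f (i, false) = Function.update x i ⟨(x i : ℕ) - 1, by have := (x i).2; omega⟩ := by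
        simp only [f]
        rw [dif_neg (by simp)]
      rw [this]
      funext j
      by_cases hj : j = i
      · subst hj
        rw [Function.update_self]
        exact Fin.ext (show (x j : ℕ) - 1 = y j by omega)
      · rw [Function.update_of_ne hj]; exact h2 j hj
  calc #(nbr x) ≤ #(univ.image f) := card_le_card h1
    _ ≤ #(univ : Finset (Fin d × Bool)) := card_image_le
    _ = 2 * d := by simp [mul_comm]

/-- Balls for the `ℓ^1` distance. -/
def ball (x : Vx n d) (r : ℕ) : Finset (Vx n d) := univ.filter (fun y => dst x y ≤ r)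

lemma mem_ball {x y : Vx n d} {r : ℕ} : y ∈ ball x r ↔ dst x y ≤ r := by simp [ball]

lemma card_ball_le (x : Vx n d) (r : ℕ) : #(ball x r) ≤ (2 * d + 1) ^ r := by
  classical
  induction r with
  | zero =>
    rw [pow_zero, card_le_one]
    intro a ha b hb
    rw [mem_ball, Nat.le_zero] at ha hb
    rw [← eq_of_dst_eq_zero ha, ← eq_of_dst_eq_zero hb]
  | succ r ih =>
    have h1 : ball x (r + 1) ⊆ (ball x r).biUnion (fun z => insert z (nbr z)) := by
      intro y hy
      rw [mem_ball] at hy
      rw [mem_biUnion]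
      rcases Nat.lt_or_ge (dst x y) (r + 1) with h | h
      · exact ⟨y, mem_ball.mpr (by omega), mem_insert_self _ _⟩
      · obtain ⟨z, hz1, hz2⟩ := exists_adj_of_dst (le_antisymm hy h)
        exact ⟨z, mem_ball.mpr hz1.le, mem_insert_of_mem (mem_nbr.mpr hz2)⟩
    calc #(ball x (r + 1)) ≤ #((ball x r).biUnion (fun z => insert z (nbr z))) := card_le_card h1
      _ ≤ #(ball x r) * (2 * d + 1) := by
          refine card_biUnion_le_card_mul _ _ _ (fun z _ => ?_)
          refine (card_insert_le _ _).trans ?_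
          have := card_nbr_le z
          omega
      _ ≤ (2 * d + 1) ^ r * (2 * d + 1) := Nat.mul_le_mul_right _ ih
      _ = (2 * d + 1) ^ (r + 1) := by ring

lemma card_ball_le' (x : Vx n d) (r : ℕ) : #(ball x r) ≤ (2 * r + 1) ^ d := by
  classical
  have h1 : ball x r ⊆ Fintype.piFinset
      (fun i => univ.filter (fun c : Fin n => (x i : ℕ) ≤ c + r ∧ (c : ℕ) ≤ x i + r)) := by
    intro y hy
    rw [mem_ball] at hy
    rw [Fintype.mem_piFinset]
    intro i
    have := cd_le_dst x y i
    rw [mem_filter]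
    exact ⟨mem_univ _, by omega, by omega⟩
  have h2 : ∀ i : Fin d,
      #(univ.filter (fun c : Fin n => (x i : ℕ) ≤ c + r ∧ (c : ℕ) ≤ x i + r)) ≤ 2 * r + 1 := by
    intro i
    have h3 : #(univ.filter (fun c : Fin n => (x i : ℕ) ≤ c + r ∧ (c : ℕ) ≤ x i + r)) ≤
        #(Finset.Icc ((x i : ℕ) - r) (x i + r)) := by
      refine Finset.card_le_card_of_injOn (fun c => (c : ℕ)) ?_ ?_
      · intro c hc
        have hc' := (mem_filter.mp (Finset.mem_coe.mp hc)).2
        rw [Finset.mem_coe, Finset.mem_Icc]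
        show (x i : ℕ) - r ≤ (c : ℕ) ∧ (c : ℕ) ≤ x i + r
        exact ⟨by omega, by omega⟩
      · intro a _ b _ h
        exact Fin.ext h
    rw [Nat.card_Icc] at h3
    omega
  calc #(ball x r) ≤ _ := card_le_card h1
    _ = ∏ i : Fin d, #(univ.filter (fun c : Fin n => (x i : ℕ) ≤ c + r ∧ (c : ℕ) ≤ x i + r)) :=
        Fintype.card_piFinset _
    _ ≤ ∏ _i : Fin d, (2 * r + 1) := Finset.prod_le_prod' (fun i _ => h2 i)
    _ = (2 * r + 1) ^ d := by simp

open Classical in
/-- The number of ordered adjacent pairs `(u, v)` with `u ∈ X`, `v ∈ Y`. -/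
noncomputable def edges (X Y : Finset (Vx n d)) : ℕ := ∑ u ∈ X, #(Y.filter (adj u))

lemma edges_comm (X Y : Finset (Vx n d)) : edges X Y = edges Y X := by
  classical
  unfold edges
  simp only [Finset.card_filter]
  rw [Finset.sum_comm]
  refine Finset.sum_congr rfl (fun u _ => Finset.sum_congr rfl (fun v _ => ?_))
  exact if_congr ⟨adj_symm, adj_symm⟩ rfl rfl

lemma edges_union_left {X Y : Finset (Vx n d)} (h : Disjoint X Y) (Z : Finset (Vx n d)) :
    edges (X ∪ Y) Z = edges X Z + edges Y Z := by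
  classical
  unfold edges
  rw [Finset.sum_union h]

lemma edges_union_right {X Y : Finset (Vx n d)} (h : Disjoint X Y) (Z : Finset (Vx n d)) :
    edges Z (X ∪ Y) = edges Z X + edges Z Y := by
  rw [edges_comm, edges_union_left h, edges_comm X Z, edges_comm Y Z]

lemma edges_mono {X X' Y Y' : Finset (Vx n d)} (h : X ⊆ X') (h' : Y ⊆ Y') :
    edges X Y ≤ edges X' Y' := by
  classical
  unfold edges
  calc ∑ u ∈ X, #(Y.filter (adj u)) ≤ ∑ u ∈ X, #(Y'.filter (adj u)) :=
        Finset.sum_le_sum (fun u _ => card_le_card (Finset.filter_subset_filter _ h'))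
    _ ≤ ∑ u ∈ X', #(Y'.filter (adj u)) := Finset.sum_le_sum_of_subset h

/-- Across a coordinate cut each vertex has at most one neighbour. -/
lemma edges_cut_le (X Y : Finset (Vx n d)) (i : Fin d) (c : ℕ) (hX : ∀ x ∈ X, (x i : ℕ) ≤ c)
    (hY : ∀ y ∈ Y, c < (y i : ℕ)) : edges X Y ≤ #X := by
  classical
  unfold edges
  rw [card_eq_sum_ones]
  refine Finset.sum_le_sum (fun u hu => ?_)
  rw [card_le_one]
  intro a ha b hb
  rw [mem_filter] at ha hb
  have key : ∀ w : Vx n d, w ∈ Y → adj u w → (∀ j, j ≠ i → u j = w j) ∧ (u i : ℕ) + 1 = w i := by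
    intro w hw hadj
    obtain ⟨j, h1, h2⟩ := hadj
    have hu' := hX u hu
    have hw' := hY w hw
    have hj : j = i := by
      by_contra hne
      have := h2 i (fun h => hne h.symm)
      rw [this] at hu'
      omega
    subst hj
    refine ⟨h2, ?_⟩
    omega
  obtain ⟨ha1, ha2⟩ := key a ha.1 ha.2
  obtain ⟨hb1, hb2⟩ := key b hb.1 hb.2
  funext j
  by_cases hj : j = i
  · subst hj; exact Fin.ext (by omega)
  · rw [← ha1 j hj, ← hb1 j hj]

lemma edges_cut_le' (X Y : Finset (Vx n d)) (i : Fin d) (c : ℕ) (hX : ∀ x ∈ X, (x i : ℕ) ≤ c)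
    (hY : ∀ y ∈ Y, c < (y i : ℕ)) : edges X Y ≤ #Y := by
  classical
  rw [edges_comm]
  unfold edges
  rw [card_eq_sum_ones]
  refine Finset.sum_le_sum (fun u hu => ?_)
  rw [card_le_one]
  intro a ha b hb
  rw [mem_filter] at ha hb
  have key : ∀ w : Vx n d, w ∈ X → adj u w → (∀ j, j ≠ i → u j = w j) ∧ (w i : ℕ) + 1 = u i := by
    intro w hw hadj
    obtain ⟨j, h1, h2⟩ := hadj
    have hu' := hY u hu
    have hw' := hX w hw
    have hj : j = i := by
      by_contra hne
      have := h2 i (fun h => hne h.symm)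
      rw [this] at hu'
      omega
    subst hj
    refine ⟨h2, ?_⟩
    omega
  obtain ⟨ha1, ha2⟩ := key a ha.1 ha.2
  obtain ⟨hb1, hb2⟩ := key b hb.1 hb.2
  funext j
  by_cases hj : j = i
  · subst hj; exact Fin.ext (by omega)
  · rw [← ha1 j hj, ← hb1 j hj]

lemma log_add_ineq {a b : ℕ} (ha : 1 ≤ a) (hb : 1 ≤ b) :
    2 * a * Nat.log 2 a + 2 * b * Nat.log 2 b + 2 * min a b ≤
      2 * (a + b) * Nat.log 2 (a + b) := by
  wlog hab : a ≤ b generalizing a b
  · have := this hb ha (by omega)
    rw [min_comm, add_comm b a] at this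
    linarith
  rw [min_eq_left hab]
  have h1 : Nat.log 2 a + 1 ≤ Nat.log 2 (a + b) := by
    have h2 : Nat.log 2 (a * 2) = Nat.log 2 a + 1 := Nat.log_mul_base (by norm_num) (by omega)
    rw [← h2]
    exact Nat.log_mono_right (by omega)
  have h3 : Nat.log 2 b ≤ Nat.log 2 (a + b) := Nat.log_mono_right (by omega)
  have h4 : 2 * a * (Nat.log 2 a + 1) ≤ 2 * a * Nat.log 2 (a + b) := Nat.mul_le_mul_left _ h1
  have h5 : 2 * b * Nat.log 2 b ≤ 2 * b * Nat.log 2 (a + b) := Nat.mul_le_mul_left _ h3
  nlinarith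

/-- A crude edge-isoperimetric inequality. -/
theorem edges_le (X : Finset (Vx n d)) : edges X X ≤ 2 * #X * Nat.log 2 #X := by
  classical
  induction h : #X using Nat.strong_induction_on generalizing X with
  | _ m ih =>
    rcases Nat.lt_or_ge 1 m with hm | hm
    · -- choose a cut
      obtain ⟨u, hu, v, hv, huv⟩ := Finset.one_lt_card.mp (h ▸ hm)
      have hi : ∃ i, u i ≠ v i := by
        by_contra hcon; push Not at hcon; exact huv (funext hcon)
      obtain ⟨i, hi⟩ := hi
      have hi' : (u i : ℕ) ≠ v i := fun h' => hi (Fin.ext h')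
      set c := min (u i : ℕ) (v i) with hc
      set X1 := X.filter (fun x => (x i : ℕ) ≤ c) with hX1
      set X2 := X.filter (fun x => ¬ (x i : ℕ) ≤ c) with hX2
      have hXu : X1 ∪ X2 = X := Finset.filter_union_filter_not_eq _ _
      have hd : Disjoint X1 X2 := Finset.disjoint_filter_filter_not _ _ _
      have hcard : #X1 + #X2 = m := by rw [← card_union_of_disjoint hd, hXu, h]
      have hne1 : 1 ≤ #X1 := by
        rw [Nat.one_le_iff_ne_zero, Finset.card_ne_zero]
        rcases lt_or_gt_of_ne hi' with hlt | hlt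
        · exact ⟨u, mem_filter.mpr ⟨hu, by omega⟩⟩
        · exact ⟨v, mem_filter.mpr ⟨hv, by omega⟩⟩
      have hne2 : 1 ≤ #X2 := by
        rw [Nat.one_le_iff_ne_zero, Finset.card_ne_zero]
        rcases lt_or_gt_of_ne hi' with hlt | hlt
        · exact ⟨v, mem_filter.mpr ⟨hv, by omega⟩⟩
        · exact ⟨u, mem_filter.mpr ⟨hu, by omega⟩⟩
      have e1 := ih #X1 (by omega) X1 rfl
      have e2 := ih #X2 (by omega) X2 rfl
      have hXle : ∀ x ∈ X1, (x i : ℕ) ≤ c := fun x hx => (mem_filter.mp hx).2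
      have hYlt : ∀ x ∈ X2, c < (x i : ℕ) := fun x hx => not_le.mp (mem_filter.mp hx).2
      have e3 := edges_cut_le X1 X2 i c hXle hYlt
      have e4 := edges_cut_le' X1 X2 i c hXle hYlt
      have e5 : edges X X = edges X1 X1 + edges X1 X2 + (edges X2 X1 + edges X2 X2) := by
        rw [← hXu, edges_union_left hd, edges_union_right hd, edges_union_right hd]
      have e6 : edges X2 X1 = edges X1 X2 := edges_comm _ _
      have e7 := log_add_ineq hne1 hne2
      rw [hcard] at e7
      have e8 : edges X1 X2 ≤ min #X1 #X2 := le_min e3 e4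
      rw [e5, e6]
      omega
    · have hX : edges X X = 0 := by
        unfold edges
        refine Finset.sum_eq_zero (fun u hu => ?_)
        rw [card_eq_zero, Finset.filter_eq_empty_iff]
        intro w hw hadj
        have : u = w := Finset.card_le_one.mp (h ▸ hm) u hu w hw
        exact adj_irrefl u (this ▸ hadj)
      rw [hX]; exact Nat.zero_le _

end Pool.Agent.Tower332
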