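import Pool.Agent.Tower332.Prob
import Pool.Agent.Tower332.Grid

/-!
Internally filled cubes: deterministic part of the upper bound.
-/

set_option autoImplicit false
set_option linter.unusedSectionVars false

namespace Pool.Agent.Tower332

open Finset

variable {n d : ℕ}

open Classical in
/-- The cube with lower corner `a`, free directions `J` and side length `k`. -/
noncomputable def cube (J : Finset (Fin d)) (a : Vx n d) (k : ℕ) : Finset (Vx n d) :=
  univ.filter (fun x => (∀ i ∈ J, (a i : ℕ) ≤ x i ∧ (x i : ℕ) < a i + k) ∧ ∀ i, i ∉ J → x i = a i)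

lemma mem_cube {J : Finset (Fin d)} {a x : Vx n d} {k : ℕ} :
    x ∈ cube J a k ↔ (∀ i ∈ J, (a i : ℕ) ≤ x i ∧ (x i : ℕ) < a i + k) ∧ ∀ i, i ∉ J → x i = a i := by
  simp [cube]

open Classical in
/-- `X` is closed in `Q` for the `r`-neighbour process. -/
def ClosedIn (Q : Finset (Vx n d)) (r : ℕ) (X : Finset (Vx n d)) : Prop :=
  ∀ v ∈ Q, r ≤ #(Q.filter fun u => u ∈ X ∧ adj v u) → v ∈ X

/-- `Q` is filled by `A ∩ Q` in the `r`-neighbour process inside `Q`. -/
def Filled (Q : Finset (Vx n d)) (r : ℕ) (A : Finset (Vx n d)) : Prop :=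
  ∀ X : Finset (Vx n d), (∀ v ∈ A, v ∈ Q → v ∈ X) → ClosedIn Q r X → Q ⊆ X

lemma Filled.congr {Q : Finset (Vx n d)} {r : ℕ} {A A' : Finset (Vx n d)}
    (h : ∀ v ∈ Q, v ∈ A ↔ v ∈ A') : Filled Q r A ↔ Filled Q r A' := by
  constructor
  · intro hF X hX hc
    exact hF X (fun v hv hQ => hX v ((h v hQ).mp hv) hQ) hc
  · intro hF X hX hc
    exact hF X (fun v hv hQ => hX v ((h v hQ).mpr hv) hQ) hc

/-- The face lemma. -/
lemma face {Q Q' X A : Finset (Vx n d)} {r : ℕ} (hA : ∀ v ∈ A, v ∈ Q → v ∈ X)
    (hX : ClosedIn Q (r + 1) X) (hQ : Q' ⊆ Q) (hF : Filled Q' r A)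
    (hN : ∀ z ∈ Q', ∃ w ∈ Q, w ∈ X ∧ w ∉ Q' ∧ adj z w) : Q' ⊆ X := by
  classical
  refine hF X (fun v hv hv' => hA v hv (hQ hv')) (fun v hv hc => hX v (hQ hv) ?_)
  obtain ⟨w, hw1, hw2, hw3, hw4⟩ := hN v hv
  have h1 : insert w (Q'.filter fun u => u ∈ X ∧ adj v u) ⊆
      Q.filter fun u => u ∈ X ∧ adj v u := by
    intro u hu
    rw [mem_insert] at hu
    rw [mem_filter]
    rcases hu with rfl | hu
    · exact ⟨hw1, hw2, hw4⟩
    · rw [mem_filter] at hu
      exact ⟨hQ hu.1, hu.2⟩
  have h2 := card_le_card h1
  rw [card_insert_of_notMem (fun h => hw3 (mem_filter.mp h).1)] at h2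
  omega

/-- The corner of the face used in the growth of a cube. -/
noncomputable def shiftc (c : Vx n d) (i : Fin d) (k : ℕ) (R : Finset (Fin d)) : Vx n d := by
  classical
  exact fun j => if j = i then (if h : (c i : ℕ) + k < n then ⟨(c i : ℕ) + k, h⟩ else c i)
    else if j ∈ R then (if h : (c j : ℕ) + 1 < n then ⟨(c j : ℕ) + 1, h⟩ else c j) else c j

lemma shiftc_self {c : Vx n d} {i : Fin d} {k : ℕ} {R : Finset (Fin d)} (h : (c i : ℕ) + k < n) :
    (shiftc c i k R i : ℕ) = c i + k := by
  simp [shiftc, h]

lemma shiftc_mem {c : Vx n d} {i j : Fin d} {k : ℕ} {R : Finset (Fin d)} (hj : j ≠ i)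
    (hjR : j ∈ R) (h : (c j : ℕ) + 1 < n) : (shiftc c i k R j : ℕ) = c j + 1 := by
  simp [shiftc, hj, hjR, h]

lemma shiftc_notMem {c : Vx n d} {i j : Fin d} {k : ℕ} {R : Finset (Fin d)} (hj : j ≠ i)
    (hjR : j ∉ R) : shiftc c i k R j = c j := by
  simp [shiftc, hj, hjR]

/-- One growth step of a full cube. -/
theorem grow_step {J : Finset (Fin d)} {c : Vx n d} {Q A X : Finset (Vx n d)} {k : ℕ}
    (hk : 1 ≤ k) (hfit : ∀ i ∈ J, (c i : ℕ) + k + 1 ≤ n) (hA : ∀ v ∈ A, v ∈ Q → v ∈ X)
    (hX : ClosedIn Q #J X) (hQ : cube J c (k + 1) ⊆ Q) (hc : cube J c k ⊆ X)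
    (hF : ∀ i ∈ J, ∀ R ∈ (J.erase i).powerset,
      Filled (cube (J.erase i) (shiftc c i k R) k) #(J.erase i) A) :
    cube J c (k + 1) ⊆ X := by
  classical
  -- induction on the number of top coordinates
  have key : ∀ m : ℕ, ∀ x ∈ cube J c (k + 1), #(J.filter fun i => (x i : ℕ) = c i + k) ≤ m →
      x ∈ X := by
    intro m
    induction m with
    | zero =>
      intro x hx h0
      have h1 : J.filter (fun i => (x i : ℕ) = c i + k) = ∅ := card_eq_zero.mp (by omega)
      apply hc
      rw [mem_cube] at hx ⊢
      refine ⟨fun i hi => ?_, hx.2⟩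
      have h2 := hx.1 i hi
      have h3 : (x i : ℕ) ≠ c i + k := fun h => by
        have : i ∈ J.filter (fun i => (x i : ℕ) = c i + k) := mem_filter.mpr ⟨hi, h⟩
        rw [h1] at this
        exact absurd this (notMem_empty i)
      omega
    | succ m ih =>
      intro x hx hm
      by_cases hex : ∃ i ∈ J, (x i : ℕ) = c i + k
      · obtain ⟨i, hi, hxi⟩ := hex
        set R := (J.erase i).filter (fun j => (x j : ℕ) = c j + k) with hR
        set a' := shiftc c i k R with ha'
        have hfi := hfit i hi
        have ha'i : (a' i : ℕ) = c i + k := shiftc_self (by omega)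
        have ha'R : ∀ j ∈ R, (a' j : ℕ) = c j + 1 := by
          intro j hj
          have hj' := mem_filter.mp hj
          have hji := ne_of_mem_erase hj'.1
          have := hfit j (mem_of_mem_erase hj'.1)
          exact shiftc_mem hji hj (by omega)
        have ha'n : ∀ j, j ≠ i → j ∉ R → a' j = c j := fun j hj hjR => shiftc_notMem hj hjR
        have hJ : #J = #(J.erase i) + 1 := by
          rw [card_erase_of_mem hi]
          have := card_pos.mpr ⟨i, hi⟩
          omega
        have hxQ' : x ∈ cube (J.erase i) a' k := by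
          rw [mem_cube] at hx ⊢
          refine ⟨fun j hj => ?_, fun j hj => ?_⟩
          · have hjJ := mem_of_mem_erase hj
            have h1 := hx.1 j hjJ
            by_cases hjR : j ∈ R
            · rw [ha'R j hjR]
              have := (mem_filter.mp hjR).2
              omega
            · rw [ha'n j (ne_of_mem_erase hj) hjR]
              have : (x j : ℕ) ≠ c j + k := fun h => hjR (mem_filter.mpr ⟨hj, h⟩)
              omega
          · by_cases hji : j = i
            · subst hji
              exact Fin.ext (by rw [hxi, ha'i])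
            · have hjJ : j ∉ J := fun h => hj (mem_erase.mpr ⟨hji, h⟩)
              have hjR : j ∉ R := fun h => hj (mem_filter.mp h).1
              rw [ha'n j hji hjR]
              exact hx.2 j hjJ
        have hsub : cube (J.erase i) a' k ⊆ cube J c (k + 1) := by
          intro z hz
          rw [mem_cube] at hz ⊢
          refine ⟨fun j hj => ?_, fun j hj => ?_⟩
          · by_cases hji : j = i
            · subst hji
              have := hz.2 j (Finset.notMem_erase j J)
              rw [this, ha'i]
              omega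
            · have h1 := hz.1 j (mem_erase.mpr ⟨hji, hj⟩)
              by_cases hjR : j ∈ R
              · rw [ha'R j hjR] at h1
                omega
              · rw [ha'n j hji hjR] at h1
                omega
          · have hji : j ≠ i := fun h => hj (h ▸ hi)
            have hjR : j ∉ R := fun h => hj (mem_of_mem_erase (mem_filter.mp h).1)
            have := hz.2 j (fun h => hj (mem_of_mem_erase h))
            rw [this, ha'n j hji hjR]
        rw [hJ] at hX
        refine face hA hX (hsub.trans hQ) (hF i hi R (by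
          rw [mem_powerset]; exact Finset.filter_subset _ _)) ?_ hxQ'
        intro z hz
        have hz' := hsub hz
        have hzi : (z i : ℕ) = c i + k := by
          have := (mem_cube.mp hz).2 i (Finset.notMem_erase i J)
          rw [this, ha'i]
        -- the neighbour below
        have hlt : (z i : ℕ) - 1 < n := by have := (z i).2; omega
        set w : Vx n d := Function.update z i ⟨(z i : ℕ) - 1, hlt⟩ with hw
        have hwi : (w i : ℕ) = (z i : ℕ) - 1 := by simp [hw]
        have hwj : ∀ j, j ≠ i → w j = z j := fun j hj => by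
          rw [hw, Function.update_of_ne hj]
        have hwcube : w ∈ cube J c (k + 1) := by
          rw [mem_cube] at hz' ⊢
          refine ⟨fun j hj => ?_, fun j hj => ?_⟩
          · by_cases hji : j = i
            · subst hji; omega
            · rw [hwj j hji]; exact hz'.1 j hj
          · rw [hwj j (fun h => hj (h ▸ hi))]
            exact hz'.2 j hj
        refine ⟨w, hQ hwcube, ?_, ?_, ?_⟩
        · apply ih w hwcube
          have h1 : (J.filter fun j => (w j : ℕ) = c j + k) ⊆
              (J.filter fun j => (x j : ℕ) = c j + k).erase i := by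
            intro j hj
            rw [mem_filter] at hj
            have hji : j ≠ i := by
              rintro rfl
              omega
            rw [mem_erase, mem_filter]
            refine ⟨hji, hj.1, ?_⟩
            have h2 := hj.2
            rw [hwj j hji] at h2
            by_contra hne
            have hjR : j ∉ R := fun h => hne (mem_filter.mp h).2
            have h3 := ((mem_cube.mp hz).1 j (mem_erase.mpr ⟨hji, hj.1⟩)).2
            rw [ha'n j hji hjR] at h3
            omega
          have h2 := card_le_card h1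
          rw [card_erase_of_mem (mem_filter.mpr ⟨hi, hxi⟩)] at h2
          omega
        · intro h
          have := (mem_cube.mp h).2 i (Finset.notMem_erase i J)
          have h4 : (w i : ℕ) = a' i := by rw [this]
          omega
        · exact ⟨i, Or.inr (by omega), fun j hj => (hwj j hj).symm⟩
      · push Not at hex
        apply hc
        rw [mem_cube] at hx ⊢
        refine ⟨fun i hi => ?_, hx.2⟩
        have h2 := hx.1 i hi
        have h3 := hex i hi
        omega
  intro x hx
  exact key _ x hx le_rfl

/-- The event that the cube of side `M` at `c` grows from a seed of side `L`. -/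
def Grows (J : Finset (Fin d)) (c : Vx n d) (L M : ℕ) (A : Finset (Vx n d)) : Prop :=
  ∀ k ∈ Finset.Ico L M, ∀ i ∈ J, ∀ R ∈ (J.erase i).powerset,
    Filled (cube (J.erase i) (shiftc c i k R) k) #(J.erase i) A

lemma cube_mono {J : Finset (Fin d)} {c : Vx n d} {k k' : ℕ} (h : k ≤ k') :
    cube J c k ⊆ cube J c k' := by
  intro x hx
  rw [mem_cube] at hx ⊢
  exact ⟨fun i hi => ⟨(hx.1 i hi).1, by have := (hx.1 i hi).2; omega⟩, hx.2⟩

theorem grows_full {J : Finset (Fin d)} {c : Vx n d} {Q A X : Finset (Vx n d)} {L M : ℕ}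
    (hL : 1 ≤ L) (hLM : L ≤ M) (hfit : ∀ i ∈ J, (c i : ℕ) + M ≤ n)
    (hA : ∀ v ∈ A, v ∈ Q → v ∈ X) (hX : ClosedIn Q #J X) (hQ : cube J c M ⊆ Q)
    (hseed : cube J c L ⊆ A) (hG : Grows J c L M A) : cube J c M ⊆ X := by
  have key : ∀ k, L ≤ k → k ≤ M → cube J c k ⊆ X := by
    intro k hk
    induction k, hk using Nat.le_induction with
    | base => exact fun _ x hx => hA x (hseed hx) (hQ (cube_mono hLM hx))
    | succ k hk ih =>
      intro hkM
      refine grow_step (by omega) (fun i hi => by have := hfit i hi; omega) hA hX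
        ((cube_mono hkM).trans hQ) (ih (by omega)) ?_
      exact hG k (Finset.mem_Ico.mpr ⟨hk, by omega⟩)
  exact key M hLM le_rfl

/-- Moving a full cell. -/
theorem move {J : Finset (Fin d)} {a : Vx n d} {A X : Finset (Vx n d)} {N M : ℕ} (hM : 2 ≤ M)
    (hfit : ∀ i ∈ J, (a i : ℕ) + N ≤ n)
    (hA : ∀ v ∈ A, v ∈ cube J a N → v ∈ X) (hX : ClosedIn (cube J a N) #J X)
    (hF : ∀ i ∈ J, ∀ a' ∈ cube J a N, (∀ j ∈ J.erase i, (a' j : ℕ) + M ≤ a j + N) →
      Filled (cube (J.erase i) a' M) #(J.erase i) A)
    {z y : Vx n d} (hz : z ∈ cube J a N) (hy : y ∈ cube J a N)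
    (hzM : ∀ i ∈ J, (z i : ℕ) + M ≤ a i + N) (hyM : ∀ i ∈ J, (y i : ℕ) + M ≤ a i + N)
    (hadj : adj z y) (hzX : cube J z M ⊆ X) : cube J y M ⊆ X := by
  classical
  obtain ⟨i, hi1, hi2⟩ := hadj
  have hz' := mem_cube.mp hz
  have hy' := mem_cube.mp hy
  have hiJ : i ∈ J := by
    by_contra hcon
    have h1 := hz'.2 i hcon
    have h2 := hy'.2 i hcon
    rw [h1, h2] at hi1
    omega
  have hJ : #J = #(J.erase i) + 1 := by
    rw [card_erase_of_mem hiJ]
    have := card_pos.mpr ⟨i, hiJ⟩
    omega
  have hcell : ∀ w : Vx n d, w ∈ cube J a N → (∀ j ∈ J, (w j : ℕ) + M ≤ a j + N) →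
      cube J w M ⊆ cube J a N := by
    intro w hw hwM x hx
    rw [mem_cube] at hx hw ⊢
    refine ⟨fun j hj => ?_, fun j hj => ?_⟩
    · have h1 := hx.1 j hj
      have h2 := hw.1 j hj
      have h3 := hwM j hj
      omega
    · rw [hx.2 j hj, hw.2 j hj]
  have hzQ := hcell z hz hzM
  have hyQ := hcell y hy hyM
  rw [hJ] at hX
  have hzi := hzM i hiJ
  have hyi := hyM i hiJ
  have hfi := hfit i hiJ
  rcases hi1 with hi1 | hi1
  · -- moving up
    have hin : (y i : ℕ) + M - 1 < n := by omega
    set a' : Vx n d := Function.update y i ⟨(y i : ℕ) + M - 1, hin⟩ with ha'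
    have ha'i : (a' i : ℕ) = y i + M - 1 := by simp [ha']
    have ha'j : ∀ j, j ≠ i → a' j = y j := fun j hj => by rw [ha', Function.update_of_ne hj]
    have ha'Q : a' ∈ cube J a N := by
      rw [mem_cube]
      refine ⟨fun j hj => ?_, fun j hj => ?_⟩
      · by_cases hji : j = i
        · subst hji
          have := (hy'.1 j hiJ).1
          omega
        · rw [ha'j j hji]; exact hy'.1 j hj
      · rw [ha'j j (fun h => hj (h ▸ hiJ))]
        exact hy'.2 j hj
    have hsub : cube (J.erase i) a' M ⊆ cube J y M := by
      intro w hw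
      rw [mem_cube] at hw ⊢
      refine ⟨fun j hj => ?_, fun j hj => ?_⟩
      · by_cases hji : j = i
        · subst hji
          have := hw.2 j (Finset.notMem_erase j J)
          rw [this, ha'i]
          omega
        · have := hw.1 j (mem_erase.mpr ⟨hji, hj⟩)
          rw [ha'j j hji] at this
          exact this
      · have hji : j ≠ i := fun h => hj (h ▸ hiJ)
        have := hw.2 j (fun h => hj (mem_of_mem_erase h))
        rw [this, ha'j j hji]
    have hface : cube (J.erase i) a' M ⊆ X := by
      refine face hA hX (hsub.trans hyQ) (hF i hiJ a' ha'Q ?_) ?_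
      · intro j hj
        rw [ha'j j (ne_of_mem_erase hj)]
        exact hyM j (mem_of_mem_erase hj)
      · intro w hw
        have hw' := mem_cube.mp hw
        have hwi : (w i : ℕ) = y i + M - 1 := by
          rw [hw'.2 i (Finset.notMem_erase i J), ha'i]
        have hlt : (w i : ℕ) - 1 < n := by omega
        set u : Vx n d := Function.update w i ⟨(w i : ℕ) - 1, hlt⟩ with hu
        have hui : (u i : ℕ) = (w i : ℕ) - 1 := by simp [hu]
        have huj : ∀ j, j ≠ i → u j = w j := fun j hj => by
          rw [hu, Function.update_of_ne hj]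
        have huz : u ∈ cube J z M := by
          rw [mem_cube]
          refine ⟨fun j hj => ?_, fun j hj => ?_⟩
          · by_cases hji : j = i
            · subst hji; omega
            · rw [huj j hji, hi2 j hji]
              have := hw'.1 j (mem_erase.mpr ⟨hji, hj⟩)
              rw [ha'j j hji] at this
              exact this
          · have hji : j ≠ i := fun h => hj (h ▸ hiJ)
            rw [huj j hji, hi2 j hji]
            have := hw'.2 j (fun h => hj (mem_of_mem_erase h))
            rw [this, ha'j j hji]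
        refine ⟨u, hzQ huz, hzX huz, ?_, ?_⟩
        · intro h
          have := (mem_cube.mp h).2 i (Finset.notMem_erase i J)
          have h4 : (u i : ℕ) = a' i := by rw [this]
          omega
        · exact ⟨i, Or.inr (by omega), fun j hj => (huj j hj).symm⟩
    intro x hx
    have hx' := mem_cube.mp hx
    by_cases hxi : (x i : ℕ) = y i + M - 1
    · apply hface
      rw [mem_cube]
      refine ⟨fun j hj => ?_, fun j hj => ?_⟩
      · rw [ha'j j (ne_of_mem_erase hj)]
        exact hx'.1 j (mem_of_mem_erase hj)
      · by_cases hji : j = i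
        · subst hji
          exact Fin.ext (by rw [hxi, ha'i])
        · rw [ha'j j hji]
          exact hx'.2 j (fun h => hj (mem_erase.mpr ⟨hji, h⟩))
    · apply hzX
      rw [mem_cube]
      refine ⟨fun j hj => ?_, fun j hj => ?_⟩
      · have h1 := hx'.1 j hj
        by_cases hji : j = i
        · subst hji; omega
        · rw [hi2 j hji]; exact h1
      · have hji : j ≠ i := fun h => hj (h ▸ hiJ)
        rw [hi2 j hji]; exact hx'.2 j hj
  · -- moving down
    have hsub : cube (J.erase i) y M ⊆ cube J y M := by
      intro w hw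
      rw [mem_cube] at hw ⊢
      refine ⟨fun j hj => ?_, fun j hj => ?_⟩
      · by_cases hji : j = i
        · subst hji
          have := hw.2 j (Finset.notMem_erase j J)
          rw [this]
          omega
        · exact hw.1 j (mem_erase.mpr ⟨hji, hj⟩)
      · exact hw.2 j (fun h => hj (mem_of_mem_erase h))
    have hface : cube (J.erase i) y M ⊆ X := by
      refine face hA hX (hsub.trans hyQ) (hF i hiJ y hy ?_) ?_
      · intro j hj
        exact hyM j (mem_of_mem_erase hj)
      · intro w hw
        have hw' := mem_cube.mp hw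
        have hwi : (w i : ℕ) = y i := by
          rw [hw'.2 i (Finset.notMem_erase i J)]
        have hlt : (w i : ℕ) + 1 < n := by have := (z i).2; omega
        set u : Vx n d := Function.update w i ⟨(w i : ℕ) + 1, hlt⟩ with hu
        have hui : (u i : ℕ) = (w i : ℕ) + 1 := by simp [hu]
        have huj : ∀ j, j ≠ i → u j = w j := fun j hj => by
          rw [hu, Function.update_of_ne hj]
        have huz : u ∈ cube J z M := by
          rw [mem_cube]
          refine ⟨fun j hj => ?_, fun j hj => ?_⟩
          · by_cases hji : j = i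
            · subst hji; omega
            · rw [huj j hji, hi2 j hji]
              exact hw'.1 j (mem_erase.mpr ⟨hji, hj⟩)
          · have hji : j ≠ i := fun h => hj (h ▸ hiJ)
            rw [huj j hji, hi2 j hji]
            exact hw'.2 j (fun h => hj (mem_of_mem_erase h))
        refine ⟨u, hzQ huz, hzX huz, ?_, ?_⟩
        · intro h
          have := (mem_cube.mp h).2 i (Finset.notMem_erase i J)
          have h4 : (u i : ℕ) = y i := by rw [this]
          omega
        · exact ⟨i, Or.inl (by omega), fun j hj => (huj j hj).symm⟩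
    intro x hx
    have hx' := mem_cube.mp hx
    by_cases hxi : (x i : ℕ) = y i
    · apply hface
      rw [mem_cube]
      refine ⟨fun j hj => ?_, fun j hj => ?_⟩
      · exact hx'.1 j (mem_of_mem_erase hj)
      · by_cases hji : j = i
        · subst hji
          exact Fin.ext hxi
        · exact hx'.2 j (fun h => hj (mem_erase.mpr ⟨hji, h⟩))
    · apply hzX
      rw [mem_cube]
      refine ⟨fun j hj => ?_, fun j hj => ?_⟩
      · have h1 := hx'.1 j hj
        by_cases hji : j = i
        · subst hji; omega
        · rw [hi2 j hji]; exact h1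
      · have hji : j ≠ i := fun h => hj (h ▸ hiJ)
        rw [hi2 j hji]; exact hx'.2 j hj

/-- A full cell fills the whole cube, if all faces are filled. -/
theorem full_of_cell {J : Finset (Fin d)} {a : Vx n d} {A X : Finset (Vx n d)} {N M : ℕ}
    (hM : 2 ≤ M) (hMN : M ≤ N) (hfit : ∀ i ∈ J, (a i : ℕ) + N ≤ n)
    (hA : ∀ v ∈ A, v ∈ cube J a N → v ∈ X) (hX : ClosedIn (cube J a N) #J X)
    (hF : ∀ i ∈ J, ∀ a' ∈ cube J a N, (∀ j ∈ J.erase i, (a' j : ℕ) + M ≤ a j + N) →
      Filled (cube (J.erase i) a' M) #(J.erase i) A)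
    {c : Vx n d} (hc : c ∈ cube J a N) (hcM : ∀ i ∈ J, (c i : ℕ) + M ≤ a i + N)
    (hcX : cube J c M ⊆ X) : cube J a N ⊆ X := by
  classical
  have key : ∀ r : ℕ, ∀ y ∈ cube J a N, (∀ i ∈ J, (y i : ℕ) + M ≤ a i + N) → dst c y = r →
      cube J y M ⊆ X := by
    intro r
    induction r with
    | zero =>
      intro y _ _ h
      rw [← eq_of_dst_eq_zero h]
      exact hcX
    | succ r ih =>
      intro y hy hyM h
      obtain ⟨z, hz1, hz2, hz3⟩ := exists_adj_between h
      have hc' := mem_cube.mp hc
      have hy' := mem_cube.mp hy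
      have hz : z ∈ cube J a N := by
        rw [mem_cube]
        refine ⟨fun i hi => ?_, fun i hi => ?_⟩
        · have h1 := hc'.1 i hi
          have h2 := hy'.1 i hi
          have h3 := hz3 i
          omega
        · have h1 := hc'.2 i hi
          have h2 := hy'.2 i hi
          have h3 := hz3 i
          rw [h1, h2] at h3
          exact Fin.ext (by omega)
      have hzM : ∀ i ∈ J, (z i : ℕ) + M ≤ a i + N := by
        intro i hi
        have h1 := hcM i hi
        have h2 := hyM i hi
        have h3 := hz3 i
        omega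
      exact move hM hfit hA hX hF hz hy hzM hyM hz2 (ih z hz hzM hz1)
  intro x hx
  have hx' := mem_cube.mp hx
  -- the corner of a cell containing `x`
  have hb : ∀ i, min (x i : ℕ) (a i + (N - M)) < n := fun i => by
    have := (x i).2; omega
  set y : Vx n d := fun i => if i ∈ J then ⟨min (x i : ℕ) (a i + (N - M)), hb i⟩ else a i with hy
  have hyJ : ∀ i ∈ J, (y i : ℕ) = min (x i : ℕ) (a i + (N - M)) := fun i hi => by
    simp [hy, hi]
  have hyn : ∀ i, i ∉ J → y i = a i := fun i hi => by simp [hy, hi]
  have hyQ : y ∈ cube J a N := by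
    rw [mem_cube]
    refine ⟨fun i hi => ?_, hyn⟩
    have h1 := hx'.1 i hi
    have h2 := hyJ i hi
    omega
  have hyM : ∀ i ∈ J, (y i : ℕ) + M ≤ a i + N := by
    intro i hi
    have h2 := hyJ i hi
    omega
  apply key _ y hyQ hyM rfl
  rw [mem_cube]
  refine ⟨fun i hi => ?_, fun i hi => ?_⟩
  · have h1 := hx'.1 i hi
    have h2 := hyJ i hi
    omega
  · rw [hyn i hi]; exact hx'.2 i hi

end Pool.Agent.Tower332
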