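import Mathlib

/-!
Bootstrap percolation on the grid `Z_n^d`: the definitions used in the statement.
-/

set_option autoImplicit false

namespace Pool.Agent.Tower332

open Finset

/-- The graph `Z_n^d`: the vertex set is `{0, …, n - 1}^d`, and two vertices are adjacent when
they differ by exactly `1` in exactly one coordinate. -/
def grid (n d : ℕ) : SimpleGraph (Fin d → Fin n) where
  Adj x y := ∃ i, ((x i : ℕ) + 1 = y i ∨ (y i : ℕ) + 1 = x i) ∧ ∀ j, j ≠ i → x j = y j
  symm := ⟨fun _ _ ⟨i, h1, h2⟩ => ⟨i, h1.symm, fun j hj => (h2 j hj).symm⟩⟩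
  loopless := ⟨fun _ ⟨i, h1, _⟩ => by rcases h1 with h1 | h1 <;> omega⟩

/-- One step of the `r`-neighbour bootstrap process: `A ∪ {v : |N(v) ∩ A| ≥ r}`. -/
def infect {V : Type*} (G : SimpleGraph V) (r : ℕ) (A : Set V) : Set V :=
  A ∪ {v | r ≤ (G.neighborSet v ∩ A).ncard}

/-- `A` percolates: the union of the sets `A_t` is the whole vertex set, where `A_0 = A` and
`A_{t+1}` is obtained from `A_t` by one step of the process. -/
def Percolates {V : Type*} (G : SimpleGraph V) (r : ℕ) (A : Set V) : Prop :=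
  ⋃ t : ℕ, (infect G r)^[t] A = Set.univ

open Classical in
/-- The probability that a `p`-random set of vertices percolates: the sum over all percolating
sets `A` of `p ^ |A| * (1 - p) ^ (|V| - |A|)`. -/
noncomputable def percProb {V : Type*} [Fintype V] (G : SimpleGraph V) (r : ℕ) (p : ℝ) : ℝ :=
  ∑ A : Finset V, if Percolates G r (A : Set V) then
    p ^ #A * (1 - p) ^ (Fintype.card V - #A) else 0

/-- The critical probability `inf {p ∈ [0, 1] : P_p(A percolates) ≥ 1/2}`. -/
noncomputable def critProb {V : Type*} [Fintype V] (G : SimpleGraph V) (r : ℕ) : ℝ :=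
  sInf {p : ℝ | p ∈ Set.Icc (0 : ℝ) 1 ∧ 1 / 2 ≤ percProb G r p}

/-- The threshold size `f(d) = min {n ≥ 1 : p_c(Z_n^d, d) ≤ 1/4}`. -/
noncomputable def thresholdSize (d : ℕ) : ℕ :=
  sInf {n : ℕ | 1 ≤ n ∧ critProb (grid n d) d ≤ 1 / 4}

/-- The tower function `T(0) = 1`, `T(k + 1) = 2 ^ T(k)`. -/
def tower : ℕ → ℕ
  | 0 => 1
  | k + 1 => 2 ^ tower k

end Pool.Agent.Tower332
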