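import Pool.Agent.Tower332.Lower

/-!
All large dimensions are good.
-/

set_option autoImplicit false

namespace Pool.Agent.Tower332

open Finset Filter

lemma log_bound {d : ℕ} (hd : 30 ≤ d) :
    Nat.log 2 ((2 * d + 1) ^ 3 * d ^ 3) ≤ 7 * (Nat.log 2 d + 1) := by
  have h1 : (2 * d + 1) ^ 3 * d ^ 3 ≤ d ^ 7 := by
    calc (2 * d + 1) ^ 3 * d ^ 3 ≤ (3 * d) ^ 3 * d ^ 3 :=
          Nat.mul_le_mul_right _ (Nat.pow_le_pow_left (by omega) 3)
      _ = 27 * d ^ 6 := by ring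
      _ ≤ d * d ^ 6 := Nat.mul_le_mul_right _ (by omega)
      _ = d ^ 7 := by ring
  have h2 : d < 2 ^ (Nat.log 2 d + 1) := Nat.lt_pow_succ_log_self (by norm_num) d
  have h3 : (2 * d + 1) ^ 3 * d ^ 3 < 2 ^ (7 * (Nat.log 2 d + 1)) := by
    refine lt_of_le_of_lt h1 ?_
    rw [mul_comm 7, pow_mul]
    exact Nat.pow_lt_pow_left h2 (by norm_num)
  exact (Nat.log_lt_of_lt_pow (by positivity) h3).le

lemma good_of {d : ℕ} (hd : 30 ≤ d) (hx : 10 ≤ Real.log d)
    (hlog : 16000 * (Real.log d) ^ 2 ≤ d) : GoodD d := by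
  set x := Real.log d with hxdef
  set L := Nat.log 2 ((2 * d + 1) ^ 3 * d ^ 3) with hL
  have hd0 : (0 : ℝ) < d := by positivity
  have h1 : (Nat.log 2 d : ℝ) * Real.log 2 ≤ x := by
    have h2 : 2 ^ Nat.log 2 d ≤ d := Nat.pow_log_le_self 2 (by omega)
    have h3 : ((2 : ℝ) ^ Nat.log 2 d) ≤ d := by exact_mod_cast h2
    have h4 := Real.log_le_log (by positivity) h3
    rwa [Real.log_pow] at h4
  have hl2 : (0.69 : ℝ) ≤ Real.log 2 := by have := Real.log_two_gt_d9; linarith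
  have h2 : (Nat.log 2 d : ℝ) ≤ 1.45 * x := by
    have h3 : (Nat.log 2 d : ℝ) * 0.69 ≤ x :=
      le_trans (mul_le_mul_of_nonneg_left hl2 (Nat.cast_nonneg _)) h1
    have hx0 : 0 ≤ x := by linarith
    nlinarith
  have h3 : (L : ℝ) ≤ 11 * x := by
    have h4 : (L : ℝ) ≤ 7 * ((Nat.log 2 d : ℝ) + 1) := by exact_mod_cast log_bound hd
    linarith
  have h4 : (4 * (L : ℝ) + 1) ≤ 45 * x := by linarith
  refine ⟨hd, ?_, ?_⟩
  · have h5 : (48 * L : ℝ) ≤ 0.6 * d := by nlinarith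
    have h6 : ((d / 20 : ℕ) : ℝ) ≤ d / 20 := Nat.cast_div_le
    have h7 : (8 * (((d / 20 : ℕ) : ℝ) + 6 * L)) ≤ d := by linarith
    exact_mod_cast h7
  · have hx0 : 0 < x := by linarith
    have hLpos : (0 : ℝ) < 4 * (L : ℝ) + 1 := by positivity
    have h5 : 22 * x ≤ d / (16 * (4 * (L : ℝ) + 1)) := by
      rw [le_div_iff₀ (by positivity)]
      have h6 : 22 * x * (16 * (4 * (L : ℝ) + 1)) ≤ 22 * x * (16 * (45 * x)) := by gcongr
      nlinarith
    have h6 : Real.exp (-(d / (16 * (4 * (L : ℝ) + 1)))) ≤ Real.exp (-(22 * x)) :=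
      Real.exp_le_exp.mpr (by linarith)
    have hdx : (d : ℝ) = Real.exp x := by rw [hxdef, Real.exp_log hd0]
    have hd1 : (1 : ℝ) ≤ d := by exact_mod_cast (by omega : 1 ≤ d)
    have h7 : (2 * (d : ℝ) + 1) ≤ 3 * Real.exp x := by rw [← hdx]; linarith
    have h8 : (d : ℝ) ^ 3 * (2 * d + 1) ^ 6 * Real.exp (-(d / (16 * (4 * (L : ℝ) + 1)))) ≤
        (Real.exp x) ^ 3 * (3 * Real.exp x) ^ 6 * Real.exp (-(22 * x)) := by
      gcongr
      exact hdx.le
    refine h8.trans ?_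
    have h9 : (Real.exp x) ^ 3 * (3 * Real.exp x) ^ 6 * Real.exp (-(22 * x)) =
        729 * Real.exp (-(13 * x)) := by
      have e1 : (Real.exp x) ^ 3 * (3 * Real.exp x) ^ 6 = 729 * (Real.exp x) ^ 9 := by ring
      rw [e1, ← Real.exp_nat_mul, mul_assoc, ← Real.exp_add]
      congr 2
      push_cast
      ring
    rw [h9, Real.exp_neg]
    have h10 : 11664 ≤ Real.exp (13 * x) := by
      have e1 : Real.exp (13 * x) = (Real.exp (13 * x / 3)) ^ 3 := by
        rw [← Real.exp_nat_mul]; congr 1; push_cast; ring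
      have e2 : (44 : ℝ) ≤ Real.exp (13 * x / 3) := by
        have := Real.add_one_le_exp (13 * x / 3)
        linarith
      rw [e1]
      calc (11664 : ℝ) ≤ 44 ^ 3 := by norm_num
        _ ≤ _ := pow_le_pow_left₀ (by norm_num) e2 3
    rw [← div_eq_mul_inv, div_le_iff₀ (Real.exp_pos _)]
    linarith

theorem good_eventually : ∀ᶠ d : ℕ in atTop, GoodD d := by
  have h1 : ∀ᶠ x : ℝ in atTop, 16000 * (Real.log x) ^ 2 ≤ x := by
    have h2 := (Real.isLittleO_pow_log_id_atTop (n := 2)).bound (show (0 : ℝ) < 1 / 16000 by norm_num)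
    filter_upwards [h2, eventually_ge_atTop (0 : ℝ)] with x hx hx0
    rw [Real.norm_of_nonneg (by positivity), id, Real.norm_of_nonneg hx0] at hx
    linarith
  have h2 : ∀ᶠ x : ℝ in atTop, 10 ≤ Real.log x :=
    Real.tendsto_log_atTop.eventually_ge_atTop 10
  have h3 : Tendsto (fun d : ℕ => (d : ℝ)) atTop atTop := tendsto_natCast_atTop_atTop
  filter_upwards [h3.eventually h1, h3.eventually h2, eventually_ge_atTop 30] with d e1 e2 e3
  exact good_of e3 e2 e1

end Pool.Agent.Tower332
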