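import Pool.Agent.Tower332.Base
import Pool.Agent.Tower332.Defs

/-!
The induction over slab thickness, giving the lower bound.
-/

set_option autoImplicit false
set_option linter.unusedSectionVars false

namespace Pool.Agent.Tower332

open Finset

/-- Conditions on the dimension used in the base estimate. -/
def GoodD (d : ℕ) : Prop :=
  30 ≤ d ∧ 8 * (d / 20 + 6 * Nat.log 2 ((2 * d + 1) ^ 3 * d ^ 3)) ≤ d ∧
  (d : ℝ) ^ 3 * (2 * d + 1) ^ 6 *
    Real.exp (-(d / (16 * (4 * (Nat.log 2 ((2 * d + 1) ^ 3 * d ^ 3) : ℕ) + 1)))) ≤ 1 / 16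

/-- The criterion at level `b` up to scale `S`. -/
def Crit (n d : ℕ) (p : ℝ) (b S : ℕ) : Prop :=
  ∀ (B : Finset (Fin d)) (y : Fin d → ℕ), #B = b → ∀ (x : Vx n d), ∀ s ∈ Finset.Icc 1 S,
    (#(ball x (2 * s)) : ℝ) * Pr p univ (EvE B y x s) ≤ 1 / (8 * s * (s + 1))

lemma eight_le {s : ℕ} (hs : 1 ≤ s) : 8 * s * (s + 1) ≤ 16 ^ s := by
  induction s, hs using Nat.le_induction with
  | base => norm_num
  | succ s hs ih =>
    rw [pow_succ]
    nlinarith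

lemma sixteenth_le {s : ℕ} (hs : 1 ≤ s) : ((1 : ℝ) / 16) ^ s ≤ 1 / (8 * s * (s + 1)) := by
  rw [one_div_pow]
  apply one_div_le_one_div_of_le
  · positivity
  · exact_mod_cast eight_le hs

variable {n d : ℕ}

lemma base_small {p : ℝ} (h0 : 0 ≤ p) (hp : p ≤ 1 / 4) (hd : GoodD d) {B : Finset (Fin d)}
    {y : Fin d → ℕ} (hB : #B ≤ d / 20) (x : Vx n d) {s : ℕ} (hs : 1 ≤ s)
    (hs' : s ≤ (2 * d + 1) ^ 2 * d ^ 3) :
    (2 * d + 1) ^ (2 * s) * Pr p univ (EvE B y x s) ≤ ((1 : ℝ) / 16) ^ s := by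
  obtain ⟨hd1, hd2, hd3⟩ := hd
  set l := Nat.log 2 ((2 * d + 1) ^ 3 * d ^ 3) with hl
  have h1 : Nat.log 2 ((2 * d + 1) * s) ≤ l := by
    refine Nat.log_mono_right ?_
    calc (2 * d + 1) * s ≤ (2 * d + 1) * ((2 * d + 1) ^ 2 * d ^ 3) := Nat.mul_le_mul_left _ hs'
      _ = (2 * d + 1) ^ 3 * d ^ 3 := by ring
  have h2 := Pr_EvE_base (n := n) (y := y) h0 hp x hs h1 (B := B) (by omega)
  set X := Real.exp (-(d / (16 * (4 * (l : ℕ) + 1)))) with hX
  have hX0 : 0 < X := Real.exp_pos _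
  have h3 : ((2 * d + 1) ^ (2 * s) : ℝ) * Pr p univ (EvE B y x s) ≤
      (2 * d + 1) ^ (2 * s) * ((s : ℝ) * (2 * d + 1) ^ 2 * X) ^ s :=
    mul_le_mul_of_nonneg_left h2 (by positivity)
  refine h3.trans ?_
  rw [pow_mul, ← mul_pow]
  apply pow_le_pow_left₀ (by positivity)
  have h4 : (s : ℝ) ≤ (2 * d + 1) ^ 2 * d ^ 3 := by exact_mod_cast hs'
  calc ((2 * d + 1) ^ 2 : ℝ) * ((s : ℝ) * (2 * d + 1) ^ 2 * X)
      ≤ (2 * d + 1) ^ 2 * (((2 * d + 1) ^ 2 * d ^ 3) * (2 * d + 1) ^ 2 * X) := by gcongr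
    _ = (d : ℝ) ^ 3 * (2 * d + 1) ^ 6 * X := by ring
    _ ≤ 1 / 16 := hd3

lemma two_mul_add_one_le {d : ℕ} (hd : 30 ≤ d) : (2 * d + 1) ^ 2 ≤ 2 ^ d := by
  induction d, hd using Nat.le_induction with
  | base => norm_num
  | succ d hd ih =>
    rw [pow_succ 2 d]
    nlinarith

/-- From a numeric inequality to the criterion. -/
lemma crit_of {p : ℝ} {B : Finset (Fin d)} {y : Fin d → ℕ} {x : Vx n d} {s : ℕ} (hs : 1 ≤ s)
    {q : ℝ} (h0 : 0 ≤ p) (hp : p ≤ 1) (hq : Pr p univ (EvE B y x s) ≤ #(ball x (2 * s)) * q)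
    (h : (8 * s * (s + 1) * (4 * s + 1) ^ (2 * d) : ℝ) * q ≤ 1) :
    (#(ball x (2 * s)) : ℝ) * Pr p univ (EvE B y x s) ≤ 1 / (8 * s * (s + 1)) := by
  have hb : (#(ball x (2 * s)) : ℝ) ≤ (4 * s + 1) ^ d := by
    have := card_ball_le' x (2 * s)
    have h2 : (2 * (2 * s) + 1) ^ d = (4 * s + 1) ^ d := by ring
    rw [h2] at this
    exact_mod_cast this
  have hs0 : (0 : ℝ) < s := by exact_mod_cast hs
  rw [le_div_iff₀ (by positivity)]
  have hPr : 0 ≤ Pr p univ (EvE B y x s) := Pr_nonneg h0 hp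
  by_cases hq0 : 0 ≤ q
  · calc (#(ball x (2 * s)) : ℝ) * Pr p univ (EvE B y x s) * (8 * s * (s + 1))
        ≤ (4 * s + 1) ^ d * ((4 * s + 1) ^ d * q) * (8 * s * (s + 1)) := by
          gcongr
          refine hq.trans ?_
          gcongr
      _ = (8 * s * (s + 1) * (4 * s + 1) ^ (2 * d) : ℝ) * q := by ring
      _ ≤ 1 := h
  · push Not at hq0
    have h1 : (#(ball x (2 * s)) : ℝ) * q ≤ 0 :=
      mul_nonpos_of_nonneg_of_nonpos (Nat.cast_nonneg _) hq0.le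
    have h2 : Pr p univ (EvE B y x s) = 0 := le_antisymm (hq.trans h1) hPr
    rw [h2]; simp

/-- Power of two bounds: `8 s (s+1) (4s+1)^(2d) ≤ 2^(2u+4 + 2d(u+3))` if `s ≤ 2^u`. -/
lemma pow_bound {s u : ℕ} (h : s ≤ 2 ^ u) :
    8 * s * (s + 1) * (4 * s + 1) ^ (2 * d) ≤ 2 ^ (2 * u + 4 + 2 * d * (u + 3)) := by
  have h1 : 1 ≤ 2 ^ u := Nat.one_le_two_pow
  have h2 : 4 * s + 1 ≤ 2 ^ (u + 3) := by rw [pow_add]; omega
  have h3 : (4 * s + 1) ^ (2 * d) ≤ 2 ^ (2 * d * (u + 3)) := by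
    calc (4 * s + 1) ^ (2 * d) ≤ (2 ^ (u + 3)) ^ (2 * d) := Nat.pow_le_pow_left h2 _
      _ = 2 ^ (2 * d * (u + 3)) := by rw [← pow_mul]; congr 1; ring
  have h4 : 8 * s * (s + 1) ≤ 2 ^ (2 * u + 4) := by
    have h5 : 8 * s ≤ 2 ^ (u + 3) := by rw [pow_add]; omega
    have h6 : s + 1 ≤ 2 ^ (u + 1) := by rw [pow_add]; omega
    calc 8 * s * (s + 1) ≤ 2 ^ (u + 3) * 2 ^ (u + 1) := Nat.mul_le_mul h5 h6
      _ = 2 ^ (2 * u + 4) := by rw [← pow_add]; congr 1; ring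
  calc 8 * s * (s + 1) * (4 * s + 1) ^ (2 * d) ≤ 2 ^ (2 * u + 4) * 2 ^ (2 * d * (u + 3)) :=
        Nat.mul_le_mul h4 h3
    _ = 2 ^ (2 * u + 4 + 2 * d * (u + 3)) := by rw [← pow_add]

/-- The Aizenman-Lebowitz union bound. -/
lemma Pr_EvE_al {p : ℝ} (h0 : 0 ≤ p) (hp : p ≤ 1) {B : Finset (Fin d)} {y : Fin d → ℕ}
    {x : Vx n d} {s s₁ M : ℕ} (hs : 1 ≤ s₁) (hs' : s₁ ≤ s) (hM : (2 * d + 1) ^ 2 * s₁ ≤ M)
    {q : ℝ} (hq : ∀ x' : Vx n d, ∀ s' ∈ Finset.Icc s₁ M, Pr p univ (EvE B y x' s') ≤ q) :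
    Pr p univ (EvE B y x s) ≤ #(ball x (2 * s)) * (M * q) := by
  classical
  have h1 : Pr p univ (EvE B y x s) ≤ Pr p univ (fun A => ∃ x' ∈ ball x (2 * s),
      ∃ s' ∈ Finset.Icc s₁ M, EvE B y x' s' A) := by
    refine Pr_mono h0 hp (fun A _ hE => ?_)
    obtain ⟨x', hx', s', hs'', hE'⟩ := hE.al hs hs'
    rw [Finset.mem_Icc] at hs''
    exact ⟨x', hx', s', Finset.mem_Icc.mpr ⟨hs''.1, hs''.2.trans hM⟩, hE'⟩
  have hK : 1 ≤ (2 * d + 1) ^ 2 := Nat.one_le_pow _ _ (by omega)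
  have hs1M : s₁ ≤ M := le_trans (Nat.le_mul_of_pos_left _ (by omega)) hM
  have hq0 : 0 ≤ q := (Pr_nonneg h0 hp).trans (hq x s₁ (Finset.mem_Icc.mpr ⟨le_rfl, hs1M⟩))
  refine h1.trans ((Pr_exists_le h0 hp _ _).trans ?_)
  have h2 : ∀ x' ∈ ball x (2 * s), Pr p univ (fun A => ∃ s' ∈ Finset.Icc s₁ M,
      EvE B y x' s' A) ≤ M * q := by
    intro x' _
    refine (Pr_exists_le h0 hp _ _).trans ?_
    refine (Finset.sum_le_sum (hq x')).trans ?_
    rw [Finset.sum_const, nsmul_eq_mul]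
    refine mul_le_mul_of_nonneg_right ?_ hq0
    have : #(Finset.Icc s₁ M) ≤ M := by rw [Nat.card_Icc]; omega
    exact_mod_cast this
  refine (Finset.sum_le_sum h2).trans ?_
  rw [Finset.sum_const, nsmul_eq_mul]

/-- The criterion holds up to scale `2 ^ (d * d)` for all `b ≤ d / 20`. -/
theorem crit_base {p : ℝ} (h0 : 0 ≤ p) (hp : p ≤ 1 / 4) (hd : GoodD d) {b : ℕ}
    (hb : b ≤ d / 20) : Crit n d p b (2 ^ (d * d)) := by
  intro B y hB x s hs
  rw [Finset.mem_Icc] at hs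
  have hp1 : p ≤ 1 := by linarith
  have hd30 : 30 ≤ d := hd.1
  have hK : 1 ≤ (2 * d + 1) ^ 2 := Nat.one_le_pow _ _ (by omega)
  rcases le_total s ((2 * d + 1) ^ 2 * d ^ 3) with h | h
  · have h1 := base_small (n := n) (y := y) h0 hp hd (B := B) (by omega) x hs.1 h
    have h2 : (#(ball x (2 * s)) : ℝ) ≤ (2 * d + 1) ^ (2 * s) := by
      exact_mod_cast card_ball_le x (2 * s)
    calc (#(ball x (2 * s)) : ℝ) * Pr p univ (EvE B y x s)
        ≤ (2 * d + 1) ^ (2 * s) * Pr p univ (EvE B y x s) :=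
          mul_le_mul_of_nonneg_right h2 (Pr_nonneg h0 hp1)
      _ ≤ (1 / 16) ^ s := h1
      _ ≤ 1 / (8 * s * (s + 1)) := sixteenth_le hs.1
  · have hd3 : 1 ≤ d ^ 3 := Nat.one_le_pow _ _ (by omega)
    have h3 : d ^ 3 ≤ s := le_trans (Nat.le_mul_of_pos_left _ (by omega)) h
    have h4 : ∀ x' : Vx n d, ∀ s' ∈ Finset.Icc (d ^ 3) ((2 * d + 1) ^ 2 * d ^ 3),
        Pr p univ (EvE B y x' s') ≤ (1 / 16) ^ (d ^ 3) := by
      intro x' s' hs'
      rw [Finset.mem_Icc] at hs'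
      have h5 := base_small (n := n) (y := y) h0 hp hd (B := B) (by omega) x'
        (hd3.trans hs'.1) hs'.2
      have h6 : (1 : ℝ) ≤ (2 * d + 1) ^ (2 * s') :=
        one_le_pow₀ (by have : (0 : ℝ) ≤ d := Nat.cast_nonneg _; linarith)
      have h7 : Pr p univ (EvE B y x' s') ≤ (2 * d + 1) ^ (2 * s') * Pr p univ (EvE B y x' s') :=
        le_mul_of_one_le_left (Pr_nonneg h0 hp1) h6
      refine h7.trans (h5.trans ?_)
      exact pow_le_pow_of_le_one (by norm_num) (by norm_num) hs'.1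
    have h5 := Pr_EvE_al (n := n) (x := x) h0 hp1 hd3 h3 le_rfl h4
    refine crit_of hs.1 h0 hp1 h5 ?_
    have h6 := pow_bound (d := d) hs.2
    have h7 : (2 * d + 1) ^ 2 * d ^ 3 ≤ 2 ^ (4 * d) := by
      have h8 := two_mul_add_one_le hd30
      have h9 : d < 2 ^ d := Nat.lt_two_pow_self
      calc (2 * d + 1) ^ 2 * d ^ 3 ≤ 2 ^ d * (2 ^ d) ^ 3 :=
            Nat.mul_le_mul h8 (Nat.pow_le_pow_left h9.le 3)
        _ = 2 ^ (4 * d) := by rw [← pow_mul, ← pow_add]; congr 1; ring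
    have h8 : 8 * s * (s + 1) * (4 * s + 1) ^ (2 * d) * ((2 * d + 1) ^ 2 * d ^ 3) ≤
        16 ^ (d ^ 3) := by
      refine (Nat.mul_le_mul h6 h7).trans ?_
      rw [show (16 : ℕ) = 2 ^ 4 by norm_num, ← pow_mul, ← pow_add]
      refine Nat.pow_le_pow_right (by norm_num) ?_
      nlinarith [Nat.mul_le_mul hd30 hd30, Nat.mul_le_mul (Nat.mul_le_mul hd30 hd30) hd30,
        Nat.mul_le_mul hd30 (le_refl (d * d))]
    have h9 : (8 * s * (s + 1) * (4 * s + 1) ^ (2 * d) * ((2 * d + 1) ^ 2 * d ^ 3) : ℝ) ≤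
        16 ^ (d ^ 3) := by exact_mod_cast h8
    rw [one_div_pow, ← mul_assoc, mul_one_div, div_le_one (by positivity)]
    push_cast
    exact h9

lemma num1 {t : ℕ} (ht : 12 ≤ t) : 2 * t ^ 3 + 4 * t ^ 2 + 9 * t + 4 ≤ 3 * 2 ^ (t - 1) := by
  induction t, ht using Nat.le_induction with
  | base => norm_num
  | succ t ht ih =>
    have h1 : 2 ^ (t + 1 - 1) = 2 * 2 ^ (t - 1) := by
      rw [← pow_succ']; congr 1; omega
    rw [h1]
    nlinarith [Nat.mul_le_mul ht ht, Nat.mul_le_mul (Nat.mul_le_mul ht ht) ht,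
      Nat.mul_le_mul ht (le_refl (t * t))]

lemma num2 {h : ℕ} (hh : 15 ≤ h) : 32 * (2 * h + 1) ^ 2 ≤ 3 * 2 ^ h := by
  induction h, hh using Nat.le_induction with
  | base => norm_num
  | succ h hh ih =>
    rw [pow_succ 2 h]
    nlinarith

lemma num3 {t : ℕ} (ht : 30 ≤ t) :
    2 * t * (t * 2 ^ (t / 2) + 3) + (2 * (t * 2 ^ (t / 2)) + 4) + t * t + t + t * (t * t + 3) ≤
      3 * 2 ^ (t - 3) := by
  set h := t / 2 with hh
  have h15 : 15 ≤ h := by omega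
  have h1 := num2 h15
  have h2 : t ≤ 2 * h + 1 := by omega
  have h3 : 32 * (t * t) ≤ 3 * 2 ^ h := by nlinarith
  have h4 : 2 ^ h * 2 ^ h ≤ 8 * 2 ^ (t - 3) := by
    rw [← pow_add, show (8 : ℕ) = 2 ^ 3 by norm_num, ← pow_add]
    exact Nat.pow_le_pow_right (by norm_num) (by omega)
  have h5 : 4 * t ≤ 2 ^ h := by nlinarith
  have h6 : t * (t * t + 3) + 10 * t + 4 + t * t ≤ 2 ^ h * (t * t) := by nlinarith
  have h7 : 2 * t * (t * 2 ^ h + 3) + (2 * (t * 2 ^ h) + 4) + t * t + t + t * (t * t + 3) ≤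
      2 ^ h * (4 * (t * t)) := by nlinarith
  have h8 : 2 ^ h * (32 * (t * t)) ≤ 2 ^ h * (3 * 2 ^ h) := Nat.mul_le_mul_left _ h3
  nlinarith

lemma two_pow_div_two {t : ℕ} (ht : 1 ≤ t) : 2 ^ t / 2 = 2 ^ (t - 1) := by
  obtain ⟨u, rfl⟩ : ∃ u, t = u + 1 := ⟨t - 1, by omega⟩
  rw [pow_succ]; simp

/-- One step of the induction: each level of slabs costs one exponential. -/
theorem crit_step {p : ℝ} (h0 : 0 ≤ p) (hp : p ≤ 1 / 4) (hd : GoodD d) {b τ : ℕ}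
    (hb : b ≤ d / 20) (hτ : d ≤ τ) (hC : Crit n d p (b + 1) (2 ^ (d * τ))) :
    Crit n d p b (2 ^ (d * 2 ^ (τ / 2))) := by
  intro B y hB x s hs
  have hp1 : p ≤ 1 := by linarith
  have hp2 : p ≤ 1 / 2 := by linarith
  have hd30 : 30 ≤ d := hd.1
  by_cases hs1 : s ≤ 2 ^ (d * d)
  · exact crit_base h0 hp hd hb B y hB x s (Finset.mem_Icc.mpr ⟨(Finset.mem_Icc.mp hs).1, hs1⟩)
  push Not at hs1
  rw [Finset.mem_Icc] at hs
  have hcrit : ∀ i ∉ B, ∀ (x : Vx n d), ∀ s ∈ Finset.Icc 1 (2 ^ (d * τ)),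
      (#(ball x (2 * s)) : ℝ) *
      Pr p univ (EvE (insert i B) (Function.update y i ((x i : ℕ) / 2)) x s) ≤
        1 / (8 * s * (s + 1)) := by
    intro i hi x s hs
    exact hC (insert i B) _ (by rw [card_insert_of_notMem hi, hB]) x s hs
  have hdd : (d : ℝ) ≤ 2 ^ d := by
    exact_mod_cast (Nat.lt_two_pow_self (n := d)).le
  rcases le_total s (2 ^ (d * τ)) with h | h
  · -- intermediate scales
    set t := Nat.log (2 ^ d) (s - 1) with ht
    have hpow1 : 1 < 2 ^ d := Nat.one_lt_two_pow (by omega)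
    have hlow : 2 ^ (d * t) < s := by
      have := Nat.pow_log_le_self (2 ^ d) (x := s - 1) (by
        have : 1 ≤ 2 ^ (d * d) := Nat.one_le_two_pow
        omega)
      rw [← pow_mul] at this
      have h1 : 1 ≤ 2 ^ (d * d) := Nat.one_le_two_pow
      rw [← ht] at this
      omega
    have hup : s ≤ 2 ^ (d * (t + 1)) := by
      have h3 : s - 1 < 2 ^ (d * (t + 1)) := by
        have := Nat.lt_pow_succ_log_self hpow1 (s - 1)
        rw [← pow_mul] at this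
        exact this
      omega
    have htd : d ≤ t := by
      have h1 : (2 ^ d) ^ d ≤ s - 1 := by
        rw [← pow_mul]; omega
      exact Nat.le_log_of_pow_le hpow1 h1
    have hk : (2 ^ t) ^ d < s := by rwa [← pow_mul, mul_comm t d]
    have hk2 : 2 ≤ 2 ^ t := by
      calc 2 = 2 ^ 1 := by norm_num
        _ ≤ 2 ^ t := Nat.pow_le_pow_right (by norm_num) (by omega)
    have h1 := Pr_EvE_chain (n := n) h0 hp2 hcrit x h hk2 hk
    have h2 : 2 ^ t / 2 = 2 ^ (t - 1) := two_pow_div_two (by omega)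
    rw [h2] at h1
    refine crit_of hs.1 h0 hp1 (q := d * (1 / 8) ^ (2 ^ (t - 1))) ?_ ?_
    · refine h1.trans (le_of_eq ?_)
      ring
    · have h3 := pow_bound (d := d) hup
      have h4 : 8 * s * (s + 1) * (4 * s + 1) ^ (2 * d) * 2 ^ d ≤ 8 ^ (2 ^ (t - 1)) := by
        refine (Nat.mul_le_mul_right _ h3).trans ?_
        rw [show (8 : ℕ) = 2 ^ 3 by norm_num, ← pow_mul, ← pow_add]
        refine Nat.pow_le_pow_right (by norm_num) ?_
        refine le_trans ?_ (num1 (t := t) (by omega))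
        have e1 : d * (t + 1) ≤ t * (t + 1) := Nat.mul_le_mul_right _ htd
        have e2 : 2 * d * (d * (t + 1) + 3) ≤ 2 * t * (t * (t + 1) + 3) := by
          gcongr
        have e3 : 2 * t * (t * (t + 1) + 3) + 2 * (t * (t + 1)) + 4 + t =
          2 * t ^ 3 + 4 * t ^ 2 + 9 * t + 4 := by ring
        omega
      have h5 : (8 * s * (s + 1) * (4 * s + 1) ^ (2 * d) * 2 ^ d : ℝ) ≤ 8 ^ (2 ^ (t - 1)) := by
        exact_mod_cast h4
      rw [one_div_pow, ← mul_assoc, mul_one_div, div_le_one (by positivity)]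
      refine le_trans ?_ h5
      gcongr
  · -- large scales
    have hτ30 : 30 ≤ τ := by omega
    have hK := two_mul_add_one_le hd30
    have hM : (2 * d + 1) ^ 2 * 2 ^ (d * (τ - 1)) ≤ 2 ^ (d * τ) := by
      calc (2 * d + 1) ^ 2 * 2 ^ (d * (τ - 1)) ≤ 2 ^ d * 2 ^ (d * (τ - 1)) :=
            Nat.mul_le_mul_right _ hK
        _ = 2 ^ (d * τ) := by
            rw [← pow_add]
            congr 1
            obtain ⟨u, rfl⟩ : ∃ u, τ = u + 1 := ⟨τ - 1, by omega⟩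
            simp only [Nat.add_sub_cancel]
            ring
    have hs1' : 2 ^ (d * (τ - 1)) ≤ s :=
      (Nat.pow_le_pow_right (by norm_num) (Nat.mul_le_mul_left _ (by omega))).trans h
    have hq : ∀ x' : Vx n d, ∀ s' ∈ Finset.Icc (2 ^ (d * (τ - 1))) (2 ^ (d * τ)),
        Pr p univ (EvE B y x' s') ≤ 2 ^ d * 2 ^ (d * (d * τ + 3)) * (1 / 8) ^ (2 ^ (τ - 3)) := by
      intro x' s' hs'
      rw [Finset.mem_Icc] at hs'
      have hk : (2 ^ (τ - 2)) ^ d < s' := by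
        rw [← pow_mul, mul_comm]
        refine lt_of_lt_of_le ?_ hs'.1
        refine Nat.pow_lt_pow_right (by norm_num) ?_
        exact Nat.mul_lt_mul_of_pos_left (by omega) (by omega)
      have hk2 : 2 ≤ 2 ^ (τ - 2) := by
        calc 2 = 2 ^ 1 := by norm_num
          _ ≤ 2 ^ (τ - 2) := Nat.pow_le_pow_right (by norm_num) (by omega)
      have h1 := Pr_EvE_chain (n := n) h0 hp2 hcrit x' hs'.2 hk2 hk
      have h2 : 2 ^ (τ - 2) / 2 = 2 ^ (τ - 3) := two_pow_div_two (by omega)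
      rw [h2] at h1
      refine h1.trans ?_
      have h3 : (#(ball x' (2 * s')) : ℝ) ≤ 2 ^ (d * (d * τ + 3)) := by
        have h4 := card_ball_le' x' (2 * s')
        have h5 : (2 * (2 * s') + 1) ^ d ≤ 2 ^ (d * (d * τ + 3)) := by
          rw [mul_comm d (d * τ + 3), pow_mul]
          refine Nat.pow_le_pow_left ?_ _
          rw [pow_add]
          have := Nat.one_le_two_pow (n := d * τ)
          omega
        exact_mod_cast h4.trans h5
      gcongr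
    have h5 := Pr_EvE_al (n := n) (x := x) h0 hp1 Nat.one_le_two_pow hs1' hM hq
    refine crit_of hs.1 h0 hp1 h5 ?_
    have h6 := pow_bound (d := d) hs.2
    have h8 : 8 * s * (s + 1) * (4 * s + 1) ^ (2 * d) *
        (2 ^ (d * τ) * (2 ^ d * 2 ^ (d * (d * τ + 3)))) ≤ 8 ^ (2 ^ (τ - 3)) := by
      refine (Nat.mul_le_mul_right _ h6).trans ?_
      rw [show (8 : ℕ) = 2 ^ 3 by norm_num, ← pow_mul, ← pow_add, ← pow_add, ← pow_add]
      refine Nat.pow_le_pow_right (by norm_num) ?_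
      refine le_trans ?_ (num3 hτ30)
      have e1 : d * 2 ^ (τ / 2) ≤ τ * 2 ^ (τ / 2) := Nat.mul_le_mul_right _ hτ
      have e2 : 2 * d * (d * 2 ^ (τ / 2) + 3) ≤ 2 * τ * (τ * 2 ^ (τ / 2) + 3) := by gcongr
      have e3 : d * τ ≤ τ * τ := Nat.mul_le_mul_right _ hτ
      have e4 : d * (d * τ + 3) ≤ τ * (τ * τ + 3) := by gcongr
      omega
    have h9 : (8 * s * (s + 1) * (4 * s + 1) ^ (2 * d) *
        (2 ^ (d * τ) * (2 ^ d * 2 ^ (d * (d * τ + 3)))) : ℝ) ≤ 8 ^ (2 ^ (τ - 3)) := by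
      exact_mod_cast h8
    have h10 : (8 * s * (s + 1) * (4 * s + 1) ^ (2 * d) : ℝ) * (((2 ^ (d * τ) : ℕ) : ℝ) *
        (2 ^ d * 2 ^ (d * (d * τ + 3)) * (1 / 8) ^ (2 ^ (τ - 3)))) =
        (8 * s * (s + 1) * (4 * s + 1) ^ (2 * d) *
        (2 ^ (d * τ) * (2 ^ d * 2 ^ (d * (d * τ + 3)))) : ℝ) / 8 ^ (2 ^ (τ - 3)) := by
      push_cast
      rw [one_div_pow]
      ring
    rw [h10, div_le_one (by positivity)]
    exact h9

/-- The sequence of exponents. -/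
def tseq (d : ℕ) : ℕ → ℕ
  | 0 => d
  | k + 1 => 2 ^ (tseq d k / 2)

lemma tower_pos (k : ℕ) : 1 ≤ tower k := by
  cases k with
  | zero => exact le_rfl
  | succ k => exact Nat.one_le_two_pow

lemma tseq_ge {d : ℕ} (hd : 30 ≤ d) (k : ℕ) : 2 * tower k + 4 ≤ tseq d k ∧ d ≤ tseq d k := by
  induction k with
  | zero => simp only [tower, tseq]; omega
  | succ k ih =>
    have h1 : tower k + 2 ≤ tseq d k / 2 := by omega
    have h2 : 2 ^ (tower k + 2) ≤ 2 ^ (tseq d k / 2) := Nat.pow_le_pow_right (by norm_num) h1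
    have h3 : 2 ≤ 2 ^ tower k := by
      calc 2 = 2 ^ 1 := by norm_num
        _ ≤ 2 ^ tower k := Nat.pow_le_pow_right (by norm_num) (tower_pos k)
    rw [pow_add] at h2
    refine ⟨?_, ?_⟩
    · simp only [tower, tseq]
      omega
    · have h4 : ∀ m : ℕ, 30 ≤ m → m ≤ 2 ^ (m / 2) := by
        intro m hm
        have h5 := num2 (h := m / 2) (by omega)
        nlinarith [Nat.div_add_mod m 2, Nat.mod_lt m (by norm_num : 2 > 0)]
      simp only [tseq]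
      exact ih.2.trans (h4 _ (by omega))

theorem crit_iter {p : ℝ} (h0 : 0 ≤ p) (hp : p ≤ 1 / 4) (hd : GoodD d) (k : ℕ)
    (hk : k ≤ d / 20) : Crit n d p (d / 20 - k) (2 ^ (d * tseq d k)) := by
  induction k with
  | zero => exact crit_base h0 hp hd (by omega)
  | succ k ih =>
    have h1 := ih (by omega)
    rw [show d / 20 - k = (d / 20 - (k + 1)) + 1 by omega] at h1
    exact crit_step h0 hp hd (by omega) (tseq_ge hd.1 k).2 h1

/-- The criterion at level `0`. -/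
theorem crit_zero {p : ℝ} (h0 : 0 ≤ p) (hp : p ≤ 1 / 4) (hd : GoodD d) :
    Crit n d p 0 (2 ^ (d * tower (d / 20))) := by
  have h1 := crit_iter (n := n) h0 hp hd (d / 20) le_rfl
  rw [Nat.sub_self] at h1
  intro B y hB x s hs
  rw [Finset.mem_Icc] at hs
  refine h1 B y hB x s (Finset.mem_Icc.mpr ⟨hs.1, hs.2.trans ?_⟩)
  refine Nat.pow_le_pow_right (by norm_num) (Nat.mul_le_mul_left _ ?_)
  have := (tseq_ge hd.1 (d / 20)).1
  omega

end Pool.Agent.Tower332
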