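import Pool.Agent.Tower332.Upper
import Pool.Agent.Tower332.Good

/-!
The main theorem: `f(d)` grows like a tower of height `Θ(d)`.
-/

set_option autoImplicit false
set_option linter.unusedSectionVars false

namespace Pool.Agent.Tower332

open Finset Filter

variable {n d : ℕ}

lemma grid_adj {x y : Vx n d} : (grid n d).Adj x y ↔ adj x y := Iff.rfl

lemma percProb_eq (p : ℝ) :
    percProb (grid n d) d p = Pr p univ (fun A : Finset (Vx n d) =>
      Percolates (grid n d) d (A : Set (Vx n d))) := by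
  classical
  unfold percProb Pr Ex
  rw [Finset.powerset_univ]
  refine Finset.sum_congr rfl (fun A _ => ?_)
  rw [Finset.card_univ]
  show (if Percolates (grid n d) d (A : Set (Vx n d)) then
    p ^ #A * (1 - p) ^ (Fintype.card (Vx n d) - #A) else 0) =
    p ^ #A * (1 - p) ^ (Fintype.card (Vx n d) - #A) *
      (if Percolates (grid n d) d (A : Set (Vx n d)) then 1 else 0)
  by_cases h : Percolates (grid n d) d (A : Set (Vx n d))
  · rw [if_pos h, if_pos h, mul_one]
  · rw [if_neg h, if_neg h, mul_zero]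

open Classical in
lemma ncard_nbr (v : Vx n d) (S : Set (Vx n d)) :
    ((grid n d).neighborSet v ∩ S).ncard = #(univ.filter fun u => adj v u ∧ u ∈ S) := by
  have h : (grid n d).neighborSet v ∩ S = ((univ.filter fun u => adj v u ∧ u ∈ S :
      Finset (Vx n d)) : Set (Vx n d)) := by
    ext u
    simp only [Set.mem_inter_iff, SimpleGraph.mem_neighborSet, Finset.coe_filter, mem_univ,
      true_and, Set.mem_ofPred_eq]
    exact Iff.rfl
  rw [h, Set.ncard_coe_finset]

lemma infect_iter_succ {V : Type*} (G : SimpleGraph V) (r : ℕ) (A : Set V) (t : ℕ) :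
    (infect G r)^[t + 1] A = infect G r ((infect G r)^[t] A) :=
  Function.iterate_succ_apply' _ _ _

lemma infect_iter_mono {V : Type*} (G : SimpleGraph V) (r : ℕ) (A : Set V) {s t : ℕ}
    (h : s ≤ t) : (infect G r)^[s] A ⊆ (infect G r)^[t] A := by
  induction t, h using Nat.le_induction with
  | base => exact subset_rfl
  | succ t _ ih =>
    rw [infect_iter_succ]
    exact ih.trans Set.subset_union_left

/-- If `A` percolates, each vertex is in `A` or in a connected spanned set. -/
theorem spanned_of_percolates {A : Finset (Vx n d)}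
    (hA : Percolates (grid n d) d (A : Set (Vx n d))) (v : Vx n d) :
    v ∈ A ∨ ∃ s ∈ Finset.Icc 1 (n ^ d), EvE ∅ (fun _ => 0) v s A := by
  classical
  by_cases hv : v ∈ A
  · exact Or.inl hv
  right
  have hex : ∀ u : Vx n d, ∃ t, u ∈ (infect (grid n d) d)^[t] (A : Set (Vx n d)) := by
    intro u
    have : u ∈ (⋃ t : ℕ, (infect (grid n d) d)^[t] (A : Set (Vx n d))) := by
      rw [show (⋃ t : ℕ, (infect (grid n d) d)^[t] (A : Set (Vx n d))) = Set.univ from hA]
      trivial
    exact Set.mem_iUnion.mp this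
  set ρ : Vx n d → ℕ := fun u => Nat.find (hex u) with hρ
  have hρ1 : ∀ u, u ∈ (infect (grid n d) d)^[ρ u] (A : Set (Vx n d)) :=
    fun u => Nat.find_spec (hex u)
  have hρ2 : ∀ u t, t < ρ u → u ∉ (infect (grid n d) d)^[t] (A : Set (Vx n d)) :=
    fun u t ht => Nat.find_min (hex u) ht
  have hρ3 : ∀ u t, u ∈ (infect (grid n d) d)^[t] (A : Set (Vx n d)) → ρ u ≤ t :=
    fun u t ht => Nat.find_min' (hex u) ht
  have hsp : Spanned ∅ (fun _ => 0) A (univ \ A) := by
    refine ⟨fun x _ i hi => absurd hi (Finset.notMem_empty i), ρ, fun u hu => ?_⟩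
    have huA : u ∉ A := (mem_sdiff.mp hu).2
    have h0 : ρ u ≠ 0 := by
      intro h
      have := hρ1 u
      rw [h] at this
      exact huA this
    obtain ⟨t, ht⟩ := Nat.exists_eq_succ_of_ne_zero h0
    have h1 := hρ1 u
    rw [ht, infect_iter_succ] at h1
    have h2 := hρ2 u t (by omega)
    rcases h1 with h1 | h1
    · exact absurd h1 h2
    · have h3 : d ≤ ((grid n d).neighborSet u ∩
          (infect (grid n d) d)^[t] (A : Set (Vx n d))).ncard := h1
      rw [ncard_nbr] at h3
      rw [Finset.card_empty, zero_add]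
      refine h3.trans (card_le_card ?_)
      intro w hw
      rw [mem_filter] at hw ⊢
      refine ⟨mem_univ _, fun i hi => absurd hi (Finset.notMem_empty i), hw.2.1, ?_⟩
      by_cases hwA : w ∈ A
      · exact Or.inl hwA
      · right
        refine ⟨mem_sdiff.mpr ⟨mem_univ _, hwA⟩, ?_⟩
        have := hρ3 w t hw.2.2
        omega
  have hv' : v ∈ univ \ A := mem_sdiff.mpr ⟨mem_univ _, hv⟩
  refine ⟨#(comp (univ \ A) v), ?_, comp (univ \ A) v, rfl, self_mem_comp hv', conn_comp _ _,
    hsp.comp v⟩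
  rw [Finset.mem_Icc]
  refine ⟨card_pos.mpr ⟨v, self_mem_comp hv'⟩, ?_⟩
  refine (Finset.card_le_univ _).trans ?_
  simp

/-- Percolation is unlikely in small grids. -/
theorem percProb_lt (hd : GoodD d) (hn : 1 ≤ n) (hn' : n ≤ 2 ^ tower (d / 20)) {p : ℝ}
    (h0 : 0 ≤ p) (hp : p ≤ 1 / 4) : percProb (grid n d) d p < 1 / 2 := by
  classical
  have hp1 : p ≤ 1 := by linarith
  rw [percProb_eq]
  set v : Vx n d := fun _ => ⟨0, hn⟩ with hv
  have h1 : Pr p univ (fun A : Finset (Vx n d) => Percolates (grid n d) d (A : Set (Vx n d))) ≤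
      Pr p univ (fun A : Finset (Vx n d) => v ∈ A ∨ ∃ s ∈ Finset.Icc 1 (n ^ d),
        EvE ∅ (fun _ => 0) v s A) :=
    Pr_mono h0 hp1 (fun A _ hA => spanned_of_percolates hA v)
  have h2 := Pr_or_le (U := (univ : Finset (Vx n d))) h0 hp1 (E := fun A => v ∈ A)
    (F := fun A => ∃ s ∈ Finset.Icc 1 (n ^ d), EvE ∅ (fun _ => 0) v s A)
  have h3 : Pr p univ (fun A : Finset (Vx n d) => v ∈ A) = p := Pr_mem (mem_univ v)
  have h4 : Pr p univ (fun A : Finset (Vx n d) => ∃ s ∈ Finset.Icc 1 (n ^ d),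
      EvE ∅ (fun _ => 0) v s A) ≤ 1 / 8 := by
    refine (Pr_exists_le h0 hp1 _ _).trans ((Finset.sum_le_sum ?_).trans (sum_inv_le (n ^ d)))
    intro s hs
    have h5 := crit_zero (n := n) h0 hp hd ∅ (fun _ => 0) card_empty v s (by
      rw [Finset.mem_Icc] at hs ⊢
      refine ⟨hs.1, hs.2.trans ?_⟩
      rw [mul_comm, pow_mul]
      exact Nat.pow_le_pow_left hn' d)
    have h6 : (1 : ℝ) ≤ #(ball v (2 * s)) := by
      have : 0 < #(ball v (2 * s)) := card_pos.mpr ⟨v, by rw [mem_ball, dst_self]; omega⟩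
      exact_mod_cast this
    exact (le_mul_of_one_le_left (Pr_nonneg h0 hp1) h6).trans h5
  linarith

/-- Filled in the sense of the recursion implies percolation. -/
theorem percolates_of_filled {A : Finset (Vx n d)} (h : Filled univ d A) :
    Percolates (grid n d) d (A : Set (Vx n d)) := by
  classical
  set X : Finset (Vx n d) := univ.filter
    (fun v => ∃ t, v ∈ (infect (grid n d) d)^[t] (A : Set (Vx n d))) with hX
  have h1 : univ ⊆ X := by
    refine h X (fun v hv _ => ?_) (fun v _ hc => ?_)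
    · exact mem_filter.mpr ⟨mem_univ _, 0, hv⟩
    · set Y := univ.filter (fun u => u ∈ X ∧ adj v u) with hY
      have h2 : ∀ u ∈ Y, ∃ t, u ∈ (infect (grid n d) d)^[t] (A : Set (Vx n d)) := by
        intro u hu
        exact (mem_filter.mp (mem_filter.mp hu).2.1).2
      have h3 : ∃ t, ∀ u ∈ Y, u ∈ (infect (grid n d) d)^[t] (A : Set (Vx n d)) := by
        have : ∀ u : Vx n d, ∃ t, u ∈ Y → u ∈ (infect (grid n d) d)^[t] (A : Set (Vx n d)) := by
          intro u
          by_cases hu : u ∈ Y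
          · obtain ⟨t, ht⟩ := h2 u hu
            exact ⟨t, fun _ => ht⟩
          · exact ⟨0, fun h => absurd h hu⟩
        choose T hT using this
        refine ⟨Y.sup T, fun u hu => ?_⟩
        exact infect_iter_mono _ _ _ (Finset.le_sup hu) (hT u hu)
      obtain ⟨t, ht⟩ := h3
      refine mem_filter.mpr ⟨mem_univ _, t + 1, ?_⟩
      rw [infect_iter_succ]
      right
      show d ≤ ((grid n d).neighborSet v ∩
          (infect (grid n d) d)^[t] (A : Set (Vx n d))).ncard
      rw [ncard_nbr]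
      refine hc.trans (card_le_card ?_)
      intro u hu
      exact mem_filter.mpr ⟨mem_univ _, (mem_filter.mp hu).2.2, ht u hu⟩
  unfold Percolates
  rw [Set.eq_univ_iff_forall]
  intro v
  exact Set.mem_iUnion.mpr (mem_filter.mp (h1 (mem_univ v))).2

/-- Percolation is likely at the scale `gx d d`. -/
theorem percProb_ge (hd : 30 ≤ d) : 1 / 2 ≤ percProb (grid (gx d d) d) d (1 / 4) := by
  classical
  set n := gx d d with hn
  have hn2 : 2 ≤ n := by
    have h1 : 2 ^ (4 * d) ≤ n := gx_ge (by omega) d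
    have h2 : 2 ^ 1 ≤ 2 ^ (4 * d) := Nat.pow_le_pow_right (by norm_num) (by omega)
    omega
  rw [percProb_eq]
  set a : Vx n d := fun _ => ⟨0, by omega⟩ with ha
  have h1 := filled_decay hd d le_rfl n univ (by simp) a n le_rfl (fun i _ => by simp [ha])
  have hcube : cube univ a n = univ := by
    rw [Finset.eq_univ_iff_forall]
    intro x
    rw [mem_cube]
    refine ⟨fun i _ => ⟨Nat.zero_le _, ?_⟩, fun i hi => absurd (mem_univ i) hi⟩
    have : (a i : ℕ) = 0 := rfl
    rw [this, zero_add]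
    exact (x i).2
  have hcard : #(univ : Finset (Fin d)) = d := by simp
  rw [hcube, hcard, Pr_compl] at h1
  have h2 : (1 : ℝ) / (n : ℝ) ^ Kx d d ≤ 1 / 2 := by
    apply one_div_le_one_div_of_le (by norm_num)
    have h3 : (2 : ℝ) ≤ n := by exact_mod_cast hn2
    have h4 : Kx d d ≠ 0 := by have := Kx_ge d d; omega
    calc (2 : ℝ) ≤ n := h3
      _ ≤ (n : ℝ) ^ Kx d d := le_self_pow₀ (by linarith) h4
  have h3 : Pr (1 / 4 : ℝ) univ (fun A : Finset (Vx n d) => Filled univ d A) ≤
      Pr (1 / 4 : ℝ) univ (fun A : Finset (Vx n d) =>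
        Percolates (grid n d) d (A : Set (Vx n d))) :=
    Pr_mono (by norm_num) (by norm_num) (fun A _ h => percolates_of_filled h)
  linarith

lemma continuous_percProb : Continuous (fun p : ℝ => percProb (grid n d) d p) := by
  classical
  unfold percProb
  refine continuous_finsetSum _ (fun A _ => ?_)
  split_ifs
  · fun_prop
  · fun_prop

lemma percProb_one : 1 / 2 ≤ percProb (grid n d) d 1 := by
  classical
  rw [percProb_eq]
  have h1 : Pr (1 : ℝ) univ (fun A : Finset (Vx n d) => (univ : Finset (Vx n d)) ⊆ A) = 1 := by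
    rw [Pr_subset subset_rfl, one_pow]
  have h2 : Pr (1 : ℝ) univ (fun A : Finset (Vx n d) => (univ : Finset (Vx n d)) ⊆ A) ≤
      Pr (1 : ℝ) univ (fun A : Finset (Vx n d) =>
        Percolates (grid n d) d (A : Set (Vx n d))) := by
    refine Pr_mono (by norm_num) (by norm_num) (fun A _ h => ?_)
    apply percolates_of_filled
    intro X hX _ v hv
    exact hX v (h hv) hv
  linarith

lemma critProb_mem : critProb (grid n d) d ∈
    {p : ℝ | p ∈ Set.Icc (0 : ℝ) 1 ∧ 1 / 2 ≤ percProb (grid n d) d p} := by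
  apply IsClosed.csInf_mem
  · exact isClosed_Icc.inter (isClosed_le continuous_const continuous_percProb)
  · exact ⟨1, ⟨by norm_num, by norm_num⟩, percProb_one⟩
  · exact ⟨0, fun p hp => hp.1.1⟩

theorem lower_bound (hd : GoodD d) (hn : 1 ≤ n) (hc : critProb (grid n d) d ≤ 1 / 4) :
    tower (d / 20) ≤ n := by
  by_contra hcon
  push Not at hcon
  obtain ⟨⟨h0, _⟩, h2⟩ := critProb_mem (n := n) (d := d)
  have h3 : n ≤ 2 ^ tower (d / 20) := hcon.le.trans Nat.lt_two_pow_self.le
  have := percProb_lt hd hn h3 h0 hc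
  linarith

theorem upper_bound (hd : 30 ≤ d) :
    1 ≤ gx d d ∧ critProb (grid (gx d d) d) d ≤ 1 / 4 := by
  refine ⟨le_trans Nat.one_le_two_pow (gx_ge (by omega) d), ?_⟩
  apply csInf_le
  · exact ⟨0, fun p hp => hp.1.1⟩
  · exact ⟨⟨by norm_num, by norm_num⟩, percProb_ge hd⟩

/-- The explicit form of the main theorem. -/
theorem explicit (hd : GoodD d) :
    tower (d / 20) ≤ thresholdSize d ∧ thresholdSize d ≤ tower (3 * d) := by
  have hne : {n : ℕ | 1 ≤ n ∧ critProb (grid n d) d ≤ 1 / 4}.Nonempty :=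
    ⟨gx d d, upper_bound hd.1⟩
  refine ⟨?_, ?_⟩
  · have h1 := Nat.sInf_mem hne
    exact lower_bound hd h1.1 h1.2
  · refine (Nat.sInf_le (upper_bound hd.1)).trans ?_
    have := gx_le hd.1 d
    rwa [show d + 2 * d = 3 * d by ring] at this

theorem main : ∃ c C : ℝ, 0 < c ∧ c ≤ C ∧ ∃ d₀ : ℕ, ∀ d ≥ d₀,
    tower ⌊c * d⌋₊ ≤ thresholdSize d ∧ thresholdSize d ≤ tower ⌈C * d⌉₊ := by
  obtain ⟨d₀, h⟩ := Filter.eventually_atTop.mp good_eventually
  refine ⟨1 / 20, 3, by norm_num, by norm_num, d₀, fun d hd => ?_⟩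
  obtain ⟨h1, h2⟩ := explicit (h d hd)
  refine ⟨?_, ?_⟩
  · refine le_trans (tower_mono ?_) h1
    have : ⌊(1 / 20 : ℝ) * d⌋₊ = d / 20 := by
      rw [show (1 / 20 : ℝ) * d = (d : ℝ) / (20 : ℕ) by push_cast; ring]
      exact Nat.floor_div_eq_div d 20
    omega
  · refine h2.trans (tower_mono ?_)
    have : ((3 * d : ℕ) : ℝ) ≤ (⌈(3 : ℝ) * d⌉₊ : ℝ) := by
      push_cast
      exact Nat.le_ceil _
    exact_mod_cast this

end Pool.Agent.Tower332
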