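import Mathlib

/-!
Elementary probability for `p`-random subsets of a finite set, written as finite sums:
independence, exponential moments and the van den Berg-Kesten inequality for `p ≤ 1/2`.
-/

set_option autoImplicit false
set_option linter.unusedSectionVars false

namespace Pool.Agent.Tower332

open Finset

variable {V : Type*} [DecidableEq V]

/-- The expectation of `φ A`, where `A` is a `p`-random subset of the finite set `U`. -/
noncomputable def Ex (p : ℝ) (U : Finset V) (φ : Finset V → ℝ) : ℝ :=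
  ∑ A ∈ U.powerset, p ^ #A * (1 - p) ^ (#U - #A) * φ A

open Classical in
/-- The probability of the event `E`, where `A` is a `p`-random subset of the finite set `U`. -/
noncomputable def Pr (p : ℝ) (U : Finset V) (E : Finset V → Prop) : ℝ :=
  Ex p U (fun A => if E A then 1 else 0)

lemma Ex_insert {p : ℝ} {U : Finset V} {v : V} (hv : v ∉ U) (φ : Finset V → ℝ) :
    Ex p (insert v U) φ = (1 - p) * Ex p U φ + p * Ex p U (fun A => φ (insert v A)) := by
  unfold Ex
  rw [Finset.sum_powerset_insert hv, Finset.mul_sum, Finset.mul_sum]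
  congr 1
  · refine Finset.sum_congr rfl (fun A hA => ?_)
    have h1 : #A ≤ #U := card_le_card (mem_powerset.mp hA)
    rw [card_insert_of_notMem hv, show #U + 1 - #A = (#U - #A) + 1 by omega]
    ring
  · refine Finset.sum_congr rfl (fun A hA => ?_)
    have h1 : v ∉ A := fun h => hv (mem_powerset.mp hA h)
    rw [card_insert_of_notMem hv, card_insert_of_notMem h1, show #U + 1 - (#A + 1) = #U - #A by omega]
    ring

lemma Ex_empty (p : ℝ) (φ : Finset V → ℝ) : Ex p ∅ φ = φ ∅ := by
  simp [Ex]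

lemma Ex_congr {p : ℝ} {U : Finset V} {φ ψ : Finset V → ℝ} (h : ∀ A ⊆ U, φ A = ψ A) :
    Ex p U φ = Ex p U ψ :=
  Finset.sum_congr rfl (fun A hA => by rw [h A (mem_powerset.mp hA)])

lemma Ex_mono {p : ℝ} (h0 : 0 ≤ p) (h1 : p ≤ 1) {U : Finset V} {φ ψ : Finset V → ℝ}
    (h : ∀ A ⊆ U, φ A ≤ ψ A) : Ex p U φ ≤ Ex p U ψ :=
  Finset.sum_le_sum (fun A hA => mul_le_mul_of_nonneg_left (h A (mem_powerset.mp hA))
    (mul_nonneg (pow_nonneg h0 _) (pow_nonneg (by linarith) _)))

lemma Ex_const (p : ℝ) (U : Finset V) (c : ℝ) : Ex p U (fun _ => c) = c := by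
  induction U using Finset.induction_on with
  | empty => exact Ex_empty _ _
  | insert v U hv ih => rw [Ex_insert hv, ih]; ring

lemma Ex_nonneg {p : ℝ} (h0 : 0 ≤ p) (h1 : p ≤ 1) {U : Finset V} {φ : Finset V → ℝ}
    (h : ∀ A ⊆ U, 0 ≤ φ A) : 0 ≤ Ex p U φ := by
  have := Ex_mono h0 h1 (U := U) (φ := fun _ => 0) (ψ := φ) h
  rwa [Ex_const] at this

lemma Ex_add (p : ℝ) (U : Finset V) (φ ψ : Finset V → ℝ) :
    Ex p U (fun A => φ A + ψ A) = Ex p U φ + Ex p U ψ := by
  unfold Ex
  rw [← Finset.sum_add_distrib]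
  exact Finset.sum_congr rfl (fun A _ => by ring)

lemma Ex_sub (p : ℝ) (U : Finset V) (φ ψ : Finset V → ℝ) :
    Ex p U (fun A => φ A - ψ A) = Ex p U φ - Ex p U ψ := by
  unfold Ex
  rw [← Finset.sum_sub_distrib]
  exact Finset.sum_congr rfl (fun A _ => by ring)

lemma Ex_mul_left (p : ℝ) (U : Finset V) (c : ℝ) (φ : Finset V → ℝ) :
    Ex p U (fun A => c * φ A) = c * Ex p U φ := by
  unfold Ex
  rw [Finset.mul_sum]
  exact Finset.sum_congr rfl (fun A _ => by ring)

lemma Ex_sum {ι : Type*} (p : ℝ) (U : Finset V) (s : Finset ι) (φ : ι → Finset V → ℝ) :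
    Ex p U (fun A => ∑ i ∈ s, φ i A) = ∑ i ∈ s, Ex p U (φ i) := by
  unfold Ex
  rw [Finset.sum_comm]
  exact Finset.sum_congr rfl (fun A _ => by rw [Finset.mul_sum])

/-- Exponential-type moments factorise. -/
lemma Ex_prod (p : ℝ) (U : Finset V) (g : V → ℝ) :
    Ex p U (fun A => ∏ u ∈ A, g u) = ∏ u ∈ U, (1 - p + p * g u) := by
  induction U using Finset.induction_on with
  | empty => rw [Ex_empty]; simp
  | insert v U hv ih =>
    rw [Ex_insert hv, Finset.prod_insert hv, ih]
    have h1 : Ex p U (fun A => ∏ u ∈ insert v A, g u) = g v * Ex p U (fun A => ∏ u ∈ A, g u) := by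
      rw [← Ex_mul_left]
      refine Ex_congr (fun A hA => ?_)
      rw [Finset.prod_insert (fun h => hv (hA h))]
    rw [h1, ih]
    ring

/-- Independence of functions of `A ∩ S` and `A \ S`. -/
lemma Ex_indep (p : ℝ) (U S : Finset V) (φ ψ : Finset V → ℝ) (hφ : ∀ A, φ A = φ (A ∩ S))
    (hψ : ∀ A, ψ A = ψ (A \ S)) : Ex p U (fun A => φ A * ψ A) = Ex p U φ * Ex p U ψ := by
  induction U using Finset.induction_on generalizing φ ψ with
  | empty => rw [Ex_empty, Ex_empty, Ex_empty]
  | insert v U hv ih =>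
    rw [Ex_insert hv, Ex_insert hv, Ex_insert hv]
    by_cases hvS : v ∈ S
    · have h1 : (fun A => ψ (insert v A)) = ψ := by
        funext A
        rw [hψ (insert v A), hψ A, Finset.insert_sdiff_of_mem _ hvS]
      have h2 : (fun A => φ (insert v A) * ψ (insert v A)) = fun A => φ (insert v A) * ψ A := by
        funext A
        rw [show ψ (insert v A) = ψ A from congrFun h1 A]
      rw [h2, h1, ih φ ψ hφ hψ, ih (fun A => φ (insert v A)) ψ _ hψ]
      · ring
      · intro A
        show φ (insert v A) = φ (insert v (A ∩ S))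
        rw [hφ (insert v A), hφ (insert v (A ∩ S)), Finset.insert_inter_of_mem hvS,
          Finset.insert_inter_of_mem hvS]
        congr 2
        rw [Finset.inter_assoc, Finset.inter_self]
    · have h1 : (fun A => φ (insert v A)) = φ := by
        funext A
        rw [hφ (insert v A), hφ A, Finset.insert_inter_of_notMem hvS]
      have h2 : (fun A => φ (insert v A) * ψ (insert v A)) = fun A => φ A * ψ (insert v A) := by
        funext A
        rw [show φ (insert v A) = φ A from congrFun h1 A]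
      rw [h2, h1, ih φ ψ hφ hψ, ih φ (fun A => ψ (insert v A)) hφ _]
      · ring
      · intro A
        show ψ (insert v A) = ψ (insert v (A \ S))
        rw [hψ (insert v A), hψ (insert v (A \ S)), Finset.insert_sdiff_of_notMem _ hvS,
          Finset.insert_sdiff_of_notMem _ hvS, Finset.sdiff_idem]

section Pr

variable {p : ℝ} {U : Finset V} {E F : Finset V → Prop}

lemma Pr_nonneg (h0 : 0 ≤ p) (h1 : p ≤ 1) : 0 ≤ Pr p U E :=
  Ex_nonneg h0 h1 (fun A _ => by split_ifs <;> norm_num)

lemma Pr_le_one (h0 : 0 ≤ p) (h1 : p ≤ 1) : Pr p U E ≤ 1 := by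
  have : Pr p U E ≤ Ex p U (fun _ => (1 : ℝ)) :=
    Ex_mono h0 h1 (fun A _ => by split_ifs <;> norm_num)
  rwa [Ex_const] at this

lemma Pr_mono (h0 : 0 ≤ p) (h1 : p ≤ 1) (h : ∀ A ⊆ U, E A → F A) : Pr p U E ≤ Pr p U F :=
  Ex_mono h0 h1 (fun A hA => by
    by_cases hE : E A
    · rw [if_pos hE, if_pos (h A hA hE)]
    · rw [if_neg hE]; split_ifs <;> norm_num)

lemma Pr_congr (h : ∀ A ⊆ U, E A ↔ F A) : Pr p U E = Pr p U F :=
  Ex_congr (fun A hA => by
    by_cases hE : E A
    · rw [if_pos hE, if_pos ((h A hA).mp hE)]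
    · rw [if_neg hE, if_neg (fun h' => hE ((h A hA).mpr h'))])

lemma Pr_compl : Pr p U (fun A => ¬ E A) = 1 - Pr p U E := by
  have h1 : Pr p U (fun A => ¬ E A) + Pr p U E = Ex p U (fun _ => 1) := by
    unfold Pr
    rw [← Ex_add]
    refine Ex_congr (fun A _ => ?_)
    by_cases hE : E A <;> simp [hE]
  rw [Ex_const] at h1
  linarith

lemma Pr_or_add_and : Pr p U (fun A => E A ∨ F A) + Pr p U (fun A => E A ∧ F A) =
    Pr p U E + Pr p U F := by
  unfold Pr
  rw [← Ex_add, ← Ex_add]
  refine Ex_congr (fun A _ => ?_)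
  by_cases hE : E A <;> by_cases hF : F A <;> simp [hE, hF]

lemma Pr_or_le (h0 : 0 ≤ p) (h1 : p ≤ 1) : Pr p U (fun A => E A ∨ F A) ≤ Pr p U E + Pr p U F := by
  have h2 := Pr_or_add_and (p := p) (U := U) (E := E) (F := F)
  have h3 : 0 ≤ Pr p U (fun A => E A ∧ F A) := Pr_nonneg h0 h1
  linarith

lemma Pr_exists_le {ι : Type*} (h0 : 0 ≤ p) (h1 : p ≤ 1) (s : Finset ι)
    (G : ι → Finset V → Prop) : Pr p U (fun A => ∃ i ∈ s, G i A) ≤ ∑ i ∈ s, Pr p U (G i) := by
  classical
  unfold Pr
  rw [← Ex_sum]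
  refine Ex_mono h0 h1 (fun A _ => ?_)
  by_cases h : ∃ i ∈ s, G i A
  · rw [if_pos h]
    obtain ⟨i, hi, hG⟩ := h
    refine le_trans ?_ (Finset.single_le_sum (f := fun i => if G i A then (1 : ℝ) else 0)
      (fun j _ => by split_ifs <;> norm_num) hi)
    simp [hG]
  · rw [if_neg h]
    exact Finset.sum_nonneg (fun j _ => by split_ifs <;> norm_num)

lemma Pr_and_indep (S : Finset V) (hE : ∀ A, E A ↔ E (A ∩ S)) (hF : ∀ A, F A ↔ F (A \ S)) :
    Pr p U (fun A => E A ∧ F A) = Pr p U E * Pr p U F := by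
  classical
  unfold Pr
  rw [← Ex_indep p U S]
  · refine Ex_congr (fun A _ => ?_)
    by_cases h1 : E A <;> by_cases h2 : F A <;> simp [h1, h2]
  · intro A
    simp only [← hE A]
  · intro A
    simp only [← hF A]

lemma Pr_le_Ex (h0 : 0 ≤ p) (h1 : p ≤ 1) {φ : Finset V → ℝ} (hφ : ∀ A ⊆ U, 0 ≤ φ A)
    (h : ∀ A ⊆ U, E A → 1 ≤ φ A) : Pr p U E ≤ Ex p U φ :=
  Ex_mono h0 h1 (fun A hA => by
    by_cases hE : E A
    · rw [if_pos hE]; exact h A hA hE
    · rw [if_neg hE]; exact hφ A hA)

lemma Pr_mem {v : V} (hv : v ∈ U) : Pr p U (fun A => v ∈ A) = p := by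
  classical
  have h1 : Pr p U (fun A => v ∉ A) = Ex p U (fun A => ∏ u ∈ A, if u = v then (0 : ℝ) else 1) := by
    refine Ex_congr (fun A _ => ?_)
    by_cases h : v ∈ A
    · rw [if_neg (not_not.mpr h), eq_comm]
      exact Finset.prod_eq_zero h (by simp)
    · rw [if_pos h, eq_comm]
      refine Finset.prod_eq_one (fun u hu => ?_)
      rw [if_neg]
      rintro rfl
      exact h hu
  rw [Ex_prod] at h1
  have h2 : ∏ u ∈ U, (1 - p + p * (if u = v then (0 : ℝ) else 1)) = 1 - p := by
    rw [Finset.prod_eq_single_of_mem v hv]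
    · simp
    · intro u _ huv
      simp [huv]
  rw [h2, Pr_compl] at h1
  linarith

lemma Pr_subset {S : Finset V} (hS : S ⊆ U) : Pr p U (fun A => S ⊆ A) = p ^ #S := by
  classical
  induction S using Finset.induction_on with
  | empty =>
    have : Pr p U (fun A => ∅ ⊆ A) = Ex p U (fun _ => (1 : ℝ)) :=
      Ex_congr (fun A _ => by simp)
    rw [this, Ex_const]; simp
  | insert v S hv ih =>
    have h1 : Pr p U (fun A => insert v S ⊆ A) = Pr p U (fun A => v ∈ A ∧ S ⊆ A) :=
      Pr_congr (fun A _ => Finset.insert_subset_iff)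
    rw [h1, Pr_and_indep {v}, Pr_mem (hS (mem_insert_self v S)),
      ih ((Finset.subset_insert v S).trans hS), card_insert_of_notMem hv]
    · ring
    · intro A; simp
    · intro A
      constructor
      · intro h u hu
        rw [mem_sdiff, mem_singleton]
        exact ⟨h hu, fun h' => hv (h' ▸ hu)⟩
      · intro h u hu
        exact (mem_sdiff.mp (h hu)).1

/-- Disjoint occurrence. -/
def Box (E F : Finset V → Prop) (A : Finset V) : Prop :=
  ∃ W₁ W₂ : Finset V, W₁ ⊆ A ∧ W₂ ⊆ A ∧ Disjoint W₁ W₂ ∧ E W₁ ∧ F W₂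

/-- The van den Berg-Kesten inequality for increasing events and `p ≤ 1/2`. -/
theorem Pr_box_le (h0 : 0 ≤ p) (h1 : p ≤ 1 / 2) (hE : ∀ A B, A ⊆ B → E A → E B)
    (hF : ∀ A B, A ⊆ B → F A → F B) : Pr p U (Box E F) ≤ Pr p U E * Pr p U F := by
  classical
  have hp1 : p ≤ 1 := by linarith
  induction U using Finset.induction_on generalizing E F with
  | empty =>
    unfold Pr
    rw [Ex_empty, Ex_empty, Ex_empty]
    by_cases h : Box E F (∅ : Finset V)
    · obtain ⟨W₁, W₂, hW1, hW2, _, h1, h2⟩ := h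
      rw [Finset.subset_empty] at hW1 hW2
      subst hW1; subst hW2
      rw [if_pos h1, if_pos h2]
      split_ifs <;> norm_num
    · rw [if_neg h]
      split_ifs <;> norm_num
  | insert v U hv ih =>
    set E1 : Finset V → Prop := fun A => E (insert v A) with hE1
    set F1 : Finset V → Prop := fun A => F (insert v A) with hF1
    have hE1m : ∀ A B, A ⊆ B → E1 A → E1 B := fun A B hAB h =>
      hE _ _ (Finset.insert_subset_insert v hAB) h
    have hF1m : ∀ A B, A ⊆ B → F1 A → F1 B := fun A B hAB h =>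
      hF _ _ (Finset.insert_subset_insert v hAB) h
    have i0 := ih hE hF
    have i1 := ih hE1m hF
    have i2 := ih hE hF1m
    have split : ∀ G : Finset V → Prop, Pr p (insert v U) G =
        (1 - p) * Pr p U G + p * Pr p U (fun A => G (insert v A)) := fun G => by
      unfold Pr; rw [Ex_insert hv]
    rw [split (Box E F), split E, split F]
    have k1 : Pr p U (fun A => Box E F (insert v A)) ≤
        Pr p U (fun A => Box E1 F A ∨ Box E F1 A) := by
      refine Pr_mono h0 hp1 (fun A hA => ?_)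
      have hvA : v ∉ A := fun h => hv (hA h)
      rintro ⟨W₁, W₂, hW1, hW2, hd, h1, h2⟩
      by_cases hv1 : v ∈ W₁
      · have hv2 : v ∉ W₂ := Finset.disjoint_left.mp hd hv1
        refine Or.inl ⟨W₁.erase v, W₂, ?_, ?_, ?_, ?_, h2⟩
        · intro u hu
          have := hW1 (mem_of_mem_erase hu)
          exact mem_of_mem_insert_of_ne this (ne_of_mem_erase hu)
        · intro u hu
          exact mem_of_mem_insert_of_ne (hW2 hu) (fun h => hv2 (h ▸ hu))
        · exact Finset.disjoint_of_subset_left (Finset.erase_subset _ _) hd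
        · show E (insert v (W₁.erase v))
          rwa [Finset.insert_erase hv1]
      · refine Or.inr ⟨W₁, W₂.erase v, ?_, ?_, ?_, h1, ?_⟩
        · intro u hu
          exact mem_of_mem_insert_of_ne (hW1 hu) (fun h => hv1 (h ▸ hu))
        · intro u hu
          have := hW2 (mem_of_mem_erase hu)
          exact mem_of_mem_insert_of_ne this (ne_of_mem_erase hu)
        · exact Finset.disjoint_of_subset_right (Finset.erase_subset _ _) hd
        · show F (insert v (W₂.erase v))
          refine hF _ _ ?_ h2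
          intro u hu
          by_cases h : u = v
          · rw [h]; exact mem_insert_self _ _
          · exact mem_insert_of_mem (mem_erase.mpr ⟨h, hu⟩)
    have k2 : Pr p U (Box E F) ≤ Pr p U (fun A => Box E1 F A ∧ Box E F1 A) := by
      refine Pr_mono h0 hp1 (fun A _ => ?_)
      rintro ⟨W₁, W₂, hW1, hW2, hd, h1, h2⟩
      exact ⟨⟨W₁, W₂, hW1, hW2, hd, hE _ _ (Finset.subset_insert v W₁) h1, h2⟩,
        ⟨W₁, W₂, hW1, hW2, hd, h1, hF _ _ (Finset.subset_insert v W₂) h2⟩⟩
    have k3 := Pr_or_add_and (p := p) (U := U) (E := Box E1 F) (F := Box E F1)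
    have k4 : Pr p U E ≤ Pr p U E1 :=
      Pr_mono h0 hp1 (fun A _ h => hE _ _ (Finset.subset_insert v A) h)
    have k5 : Pr p U F ≤ Pr p U F1 :=
      Pr_mono h0 hp1 (fun A _ h => hF _ _ (Finset.subset_insert v A) h)
    set e0 := Pr p U E
    set e1 := Pr p U E1
    set f0 := Pr p U F
    set f1 := Pr p U F1
    set x := Pr p U (Box E F)
    have k6 : (1 - p) * x + p * Pr p U (fun A => Box E F (insert v A)) ≤
        (1 - 2 * p) * x + p * (Pr p U (Box E1 F) + Pr p U (Box E F1)) := by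
      nlinarith
    have k7 : (1 - 2 * p) * x ≤ (1 - 2 * p) * (e0 * f0) :=
      mul_le_mul_of_nonneg_left i0 (by linarith)
    have k8 : p * (Pr p U (Box E1 F) + Pr p U (Box E F1)) ≤ p * (e1 * f0 + e0 * f1) :=
      mul_le_mul_of_nonneg_left (add_le_add i1 i2) h0
    have k9 : 0 ≤ p ^ 2 * ((e1 - e0) * (f1 - f0)) :=
      mul_nonneg (sq_nonneg p) (mul_nonneg (by linarith) (by linarith))
    have k10 : ((1 - p) * e0 + p * e1) * ((1 - p) * f0 + p * f1) -
        ((1 - 2 * p) * (e0 * f0) + p * (e1 * f0 + e0 * f1)) = p ^ 2 * ((e1 - e0) * (f1 - f0)) := by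
      ring
    linarith

end Pr

end Pool.Agent.Tower332
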