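import Pool.Agent.Tower332.Prob
import Pool.Agent.Tower332.Grid

/-!
Spanned sets: sets of vertices which become infected by the initial set `A` inside a slab
(thickness two in the directions of `B`), helped by everything outside of the slab.
Connectivity of sets, and the Aizenman-Lebowitz lemma.
-/

set_option autoImplicit false
set_option linter.unusedSectionVars false

namespace Pool.Agent.Tower332

open Finset

variable {n d : ℕ}

/-- The slab of all `x` with `⌊x i / 2⌋ = y i` for `i ∈ B`. -/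
def inR (B : Finset (Fin d)) (y : Fin d → ℕ) (x : Vx n d) : Prop := ∀ i ∈ B, (x i : ℕ) / 2 = y i

open Classical in
/-- `D` is spanned by `A` in the slab given by `B` and `y`: there is an order in which each vertex
of `D` has at least `d - #B` neighbours in the slab which are in `A` or earlier in `D`. -/
def Spanned (B : Finset (Fin d)) (y : Fin d → ℕ) (A D : Finset (Vx n d)) : Prop :=
  (∀ x ∈ D, inR B y x) ∧ ∃ ρ : Vx n d → ℕ, ∀ v ∈ D,
    d ≤ #B + #(univ.filter fun u => inR B y u ∧ adj v u ∧ (u ∈ A ∨ (u ∈ D ∧ ρ u < ρ v)))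

lemma Spanned.mono {B : Finset (Fin d)} {y : Fin d → ℕ} {A A' D : Finset (Vx n d)} (h : A ⊆ A')
    (hs : Spanned B y A D) : Spanned B y A' D := by
  classical
  obtain ⟨h1, ρ, h2⟩ := hs
  refine ⟨h1, ρ, fun v hv => (h2 v hv).trans ?_⟩
  refine Nat.add_le_add_left (card_le_card ?_) _
  intro u hu
  rw [mem_filter] at hu ⊢
  exact ⟨hu.1, hu.2.1, hu.2.2.1, hu.2.2.2.imp (fun h' => h h') id⟩

lemma Spanned.sub {B : Finset (Fin d)} {y : Fin d → ℕ} {A D D' : Finset (Vx n d)} (h : D' ⊆ D)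
    (hcl : ∀ v ∈ D', ∀ u ∈ D, adj v u → u ∈ D') (hs : Spanned B y A D) : Spanned B y A D' := by
  classical
  obtain ⟨h1, ρ, h2⟩ := hs
  refine ⟨fun x hx => h1 x (h hx), ρ, fun v hv => (h2 v (h hv)).trans ?_⟩
  refine Nat.add_le_add_left (card_le_card ?_) _
  intro u hu
  rw [mem_filter] at hu ⊢
  exact ⟨hu.1, hu.2.1, hu.2.2.1, hu.2.2.2.imp id (fun h' => ⟨hcl v hv u h'.1 hu.2.2.1, h'.2⟩)⟩

/-- Links inside `D`. -/
def lnk (D : Finset (Vx n d)) (a b : Vx n d) : Prop := near a b ∧ a ∈ D ∧ b ∈ D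

/-- `D` is connected by steps of length at most two. -/
def Conn (D : Finset (Vx n d)) : Prop := ∀ u ∈ D, ∀ v ∈ D, Relation.ReflTransGen (lnk D) u v

lemma lnk_symm {D : Finset (Vx n d)} {a b : Vx n d} (h : lnk D a b) : lnk D b a :=
  ⟨near_symm h.1, h.2.2, h.2.1⟩

lemma reach_symm {D : Finset (Vx n d)} {u v : Vx n d} (h : Relation.ReflTransGen (lnk D) u v) :
    Relation.ReflTransGen (lnk D) v u := by
  induction h with
  | refl => exact Relation.ReflTransGen.refl
  | tail _ h2 ih => exact Relation.ReflTransGen.head (lnk_symm h2) ih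

open Classical in
/-- The component of `u` in `D`. -/
noncomputable def comp (D : Finset (Vx n d)) (u : Vx n d) : Finset (Vx n d) :=
  D.filter (fun v => Relation.ReflTransGen (lnk D) u v)

lemma mem_comp {D : Finset (Vx n d)} {u v : Vx n d} :
    v ∈ comp D u ↔ v ∈ D ∧ Relation.ReflTransGen (lnk D) u v := by simp [comp]

lemma comp_subset (D : Finset (Vx n d)) (u : Vx n d) : comp D u ⊆ D :=
  fun _ hv => (mem_comp.mp hv).1

lemma self_mem_comp {D : Finset (Vx n d)} {u : Vx n d} (hu : u ∈ D) : u ∈ comp D u :=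
  mem_comp.mpr ⟨hu, Relation.ReflTransGen.refl⟩

lemma mem_comp_of_near {D : Finset (Vx n d)} {u v w : Vx n d} (hv : v ∈ comp D u) (hw : w ∈ D)
    (h : near v w) : w ∈ comp D u := by
  rw [mem_comp] at hv ⊢
  exact ⟨hw, hv.2.tail ⟨h, hv.1, hw⟩⟩

lemma mem_comp_symm {D : Finset (Vx n d)} {u v : Vx n d} (hu : u ∈ D) (hv : v ∈ comp D u) :
    u ∈ comp D v :=
  mem_comp.mpr ⟨hu, reach_symm (mem_comp.mp hv).2⟩

lemma reach_comp {D : Finset (Vx n d)} {u v : Vx n d}
    (h : Relation.ReflTransGen (lnk D) u v) : Relation.ReflTransGen (lnk (comp D u)) u v := by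
  induction h with
  | refl => exact Relation.ReflTransGen.refl
  | tail h1 h2 ih =>
    refine ih.tail ⟨h2.1, ?_, ?_⟩
    · exact mem_comp.mpr ⟨h2.2.1, h1⟩
    · exact mem_comp.mpr ⟨h2.2.2, h1.tail h2⟩

lemma conn_comp (D : Finset (Vx n d)) (u : Vx n d) : Conn (comp D u) := by
  intro a ha b hb
  have h1 := reach_comp (mem_comp.mp ha).2
  have h2 := reach_comp (mem_comp.mp hb).2
  exact (reach_symm h1).trans h2

lemma Spanned.comp {B : Finset (Fin d)} {y : Fin d → ℕ} {A D : Finset (Vx n d)}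
    (hs : Spanned B y A D) (u : Vx n d) : Spanned B y A (comp D u) :=
  hs.sub (comp_subset D u) (fun _ hv _ hw h => mem_comp_of_near hv hw (near_of_adj h))

/-- A path leaving `S` has an edge leaving `S`. -/
lemma exists_exit {D S : Finset (Vx n d)} {x z : Vx n d} (hx : x ∈ S) (hz : z ∉ S)
    (h : Relation.ReflTransGen (lnk D) x z) : ∃ a ∈ S, ∃ b, b ∉ S ∧ lnk D a b := by
  induction h with
  | refl => exact absurd hx hz
  | @tail b c h1 h2 ih =>
    by_cases hb : b ∈ S
    · exact ⟨b, hb, c, hz, h2⟩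
    · exact ih hb

/-- If a connected set `U` meets `S`, each component of `U \ S` comes near `S`. -/
lemma comp_near [DecidableEq (Vx n d)] {U S : Finset (Vx n d)} (hU : Conn U) {x z : Vx n d}
    (hx : x ∈ S) (hxU : x ∈ U) (hz : z ∈ U \ S) :
    ∃ a ∈ comp (U \ S) z, ∃ b ∈ S, near a b ∧ b ∈ U := by
  have hzU : z ∈ U := (mem_sdiff.mp hz).1
  have hx' : x ∉ comp (U \ S) z := fun h => (mem_sdiff.mp (comp_subset _ _ h)).2 hx
  obtain ⟨a, ha, b, hb, hab⟩ := exists_exit (self_mem_comp hz) hx' (hU z hzU x hxU)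
  refine ⟨a, ha, b, ?_, hab.1, hab.2.2⟩
  by_contra hbS
  exact hb (mem_comp_of_near ha (mem_sdiff.mpr ⟨hab.2.2, hbS⟩) hab.1)

/-- The Aizenman-Lebowitz lemma. -/
theorem al {B : Finset (Fin d)} {y : Fin d → ℕ} {A : Finset (Vx n d)} {s : ℕ} (hs : 1 ≤ s)
    (D : Finset (Vx n d)) (hD : Conn D) (hsp : Spanned B y A D) (hsD : s ≤ #D) :
    ∃ D' ⊆ D, Conn D' ∧ Spanned B y A D' ∧ s ≤ #D' ∧ #D' ≤ (2 * d + 1) ^ 2 * s := by
  classical
  induction h : #D using Nat.strong_induction_on generalizing D with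
  | _ m ih =>
    by_cases hex : ∃ D'' ⊂ D, Conn D'' ∧ Spanned B y A D'' ∧ s ≤ #D''
    · obtain ⟨D'', h1, h2, h3, h4⟩ := hex
      obtain ⟨D', k1, k2⟩ := ih #D'' (h ▸ card_lt_card h1) D'' h2 h3 h4 rfl
      exact ⟨D', k1.trans h1.1, k2⟩
    · refine ⟨D, subset_rfl, hD, hsp, hsD, ?_⟩
      push Not at hex
      obtain ⟨hin, ρ, hρ⟩ := hsp
      have hne : D.Nonempty := by rw [← card_pos]; omega
      obtain ⟨v, hv, hmax⟩ := Finset.exists_max_image D ρ hne
      have hsp' : Spanned B y A (D \ {v}) := by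
        refine ⟨fun x hx => hin x (mem_sdiff.mp hx).1, ρ, fun w hw => ?_⟩
        rw [mem_sdiff, mem_singleton] at hw
        refine (hρ w hw.1).trans (Nat.add_le_add_left (card_le_card ?_) _)
        intro u hu
        rw [mem_filter] at hu ⊢
        refine ⟨hu.1, hu.2.1, hu.2.2.1, hu.2.2.2.imp id (fun h' => ⟨?_, h'.2⟩)⟩
        rw [mem_sdiff, mem_singleton]
        refine ⟨h'.1, fun huv => ?_⟩
        have := hmax w hw.1
        have h'' := h'.2
        rw [huv] at h''
        omega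
      have hsmall : ∀ w ∈ D \ {v}, #(comp (D \ {v}) w) ≤ s - 1 := by
        intro w hw
        have h1 : comp (D \ {v}) w ⊂ D := by
          refine ⟨(comp_subset _ _).trans Finset.sdiff_subset, fun hcon => ?_⟩
          have := comp_subset _ _ (hcon hv)
          rw [mem_sdiff, mem_singleton] at this
          exact this.2 rfl
        have := hex _ h1 (conn_comp _ w) (hsp'.comp w)
        omega
      have hcover : D \ {v} ⊆ ((ball v 2).filter (· ∈ D \ {v})).biUnion (comp (D \ {v})) := by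
        intro z hz
        obtain ⟨a, ha, b, hb, hab, _⟩ := comp_near hD (mem_singleton_self v) hv hz
        rw [mem_singleton] at hb
        subst hb
        rw [mem_biUnion]
        refine ⟨a, ?_, mem_comp_symm hz ha⟩
        rw [mem_filter, mem_ball]
        exact ⟨near_symm hab, comp_subset _ _ ha⟩
      have h1 : #(D \ {v}) ≤ #((ball v 2).filter (· ∈ D \ {v})) * (s - 1) :=
        (card_le_card hcover).trans (card_biUnion_le_card_mul _ _ _
          (fun w hw => hsmall w (mem_filter.mp hw).2))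
      have h2 : #((ball v 2).filter (· ∈ D \ {v})) ≤ (2 * d + 1) ^ 2 :=
        (card_le_card (Finset.filter_subset _ _)).trans (card_ball_le v 2)
      have h3 : #D = #(D \ {v}) + 1 := by
        rw [Finset.card_sdiff_of_subset (Finset.singleton_subset_iff.mpr hv), card_singleton]
        have : 1 ≤ #D := by omega
        omega
      have h4 : #((ball v 2).filter (· ∈ D \ {v})) * (s - 1) ≤ (2 * d + 1) ^ 2 * (s - 1) :=
        Nat.mul_le_mul_right _ h2
      have h5 : (2 * d + 1) ^ 2 * s = (2 * d + 1) ^ 2 * (s - 1) + (2 * d + 1) ^ 2 := by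
        obtain ⟨t, rfl⟩ := Nat.exists_eq_add_of_le' hs
        simp only [Nat.add_sub_cancel]
        ring
      have h6 : 1 ≤ (2 * d + 1) ^ 2 := Nat.one_le_pow _ _ (by omega)
      omega

/-- Enumeration of connected sets containing `x`. -/
noncomputable def Conns (x : Vx n d) : ℕ → Finset (Finset (Vx n d))
  | 0 => {{x}}
  | k + 1 => by
      classical
      exact (Conns x k).biUnion fun C => (C.biUnion fun a => ball a 2).image fun b => insert b C

lemma Conns_spec (x : Vx n d) (k : ℕ) : ∀ C ∈ Conns x k, #C ≤ k + 1 ∧ C ⊆ ball x (2 * k) := by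
  classical
  induction k with
  | zero =>
    intro C hC
    simp only [Conns, mem_singleton] at hC
    subst hC
    refine ⟨by simp, ?_⟩
    intro u hu
    rw [mem_singleton] at hu
    subst hu
    rw [mem_ball, dst_self]
  | succ k ih =>
    intro C' hC'
    simp only [Conns, mem_biUnion, mem_image] at hC'
    obtain ⟨C, hC, b, ⟨a, ha, hb⟩, rfl⟩ := hC'
    obtain ⟨h1, h2⟩ := ih C hC
    refine ⟨(card_insert_le _ _).trans (by omega), ?_⟩
    intro u hu
    rw [mem_insert] at hu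
    rw [mem_ball]
    rcases hu with rfl | hu
    · have h3 := mem_ball.mp (h2 ha)
      have h4 := mem_ball.mp hb
      have := dst_triangle x a u
      omega
    · have := mem_ball.mp (h2 hu)
      omega

lemma card_Conns_le (x : Vx n d) (k : ℕ) : #(Conns x k) ≤ ((k + 1) * (2 * d + 1) ^ 2) ^ k := by
  classical
  induction k with
  | zero => simp [Conns]
  | succ k ih =>
    have h1 : #(Conns x (k + 1)) ≤ #(Conns x k) * ((k + 1) * (2 * d + 1) ^ 2) := by
      simp only [Conns]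
      refine card_biUnion_le_card_mul _ _ _ (fun C hC => ?_)
      refine card_image_le.trans ?_
      refine (card_biUnion_le_card_mul C _ _ (fun a _ => card_ball_le a 2)).trans ?_
      exact Nat.mul_le_mul_right _ (Conns_spec x k C hC).1
    calc #(Conns x (k + 1)) ≤ #(Conns x k) * ((k + 1) * (2 * d + 1) ^ 2) := h1
      _ ≤ ((k + 1) * (2 * d + 1) ^ 2) ^ k * ((k + 1) * (2 * d + 1) ^ 2) :=
          Nat.mul_le_mul_right _ ih
      _ = ((k + 1) * (2 * d + 1) ^ 2) ^ (k + 1) := by ring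
      _ ≤ ((k + 1 + 1) * (2 * d + 1) ^ 2) ^ (k + 1) :=
          Nat.pow_le_pow_left (Nat.mul_le_mul_right _ (by omega)) _

lemma exists_grow {D : Finset (Vx n d)} (hD : Conn D) {x : Vx n d} (hx : x ∈ D) (k : ℕ)
    (hk : k < #D) : ∃ C ∈ Conns x k, C ⊆ D ∧ #C = k + 1 ∧ x ∈ C := by
  classical
  induction k with
  | zero =>
    refine ⟨{x}, by simp [Conns], Finset.singleton_subset_iff.mpr hx, by simp, by simp⟩
  | succ k ih =>
    obtain ⟨C, hC, h1, h2, h3⟩ := ih (by omega)
    obtain ⟨z, hz, hzC⟩ : ∃ z ∈ D, z ∉ C := by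
      by_contra hcon
      push Not at hcon
      have : D ⊆ C := hcon
      have := card_le_card this
      omega
    obtain ⟨a, ha, b, hb, hab⟩ := exists_exit h3 hzC (hD x hx z hz)
    refine ⟨insert b C, ?_, ?_, ?_, mem_insert_of_mem h3⟩
    · simp only [Conns, mem_biUnion, mem_image]
      exact ⟨C, hC, b, ⟨a, ha, mem_ball.mpr hab.1⟩, rfl⟩
    · exact Finset.insert_subset hab.2.2 h1
    · rw [card_insert_of_notMem hb, h2]

lemma mem_Conns {D : Finset (Vx n d)} (hD : Conn D) {x : Vx n d} (hx : x ∈ D) :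
    D ∈ Conns x (#D - 1) := by
  have hpos : 0 < #D := card_pos.mpr ⟨x, hx⟩
  obtain ⟨C, hC, h1, h2, _⟩ := exists_grow hD hx (#D - 1) (by omega)
  have : C = D := Finset.eq_of_subset_of_card_le h1 (by omega)
  rwa [this] at hC

lemma subset_ball {D : Finset (Vx n d)} (hD : Conn D) {x : Vx n d} (hx : x ∈ D) :
    D ⊆ ball x (2 * (#D - 1)) :=
  (Conns_spec x _ D (mem_Conns hD hx)).2

/-- The event that `x` lies in a connected spanned set of size `s`. -/
def EvE (B : Finset (Fin d)) (y : Fin d → ℕ) (x : Vx n d) (s : ℕ) (A : Finset (Vx n d)) : Prop :=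
  ∃ D : Finset (Vx n d), #D = s ∧ x ∈ D ∧ Conn D ∧ Spanned B y A D

lemma EvE.mono {B : Finset (Fin d)} {y : Fin d → ℕ} {x : Vx n d} {s : ℕ}
    {A A' : Finset (Vx n d)} (h : A ⊆ A') (hE : EvE B y x s A) : EvE B y x s A' := by
  obtain ⟨D, h1, h2, h3, h4⟩ := hE
  exact ⟨D, h1, h2, h3, h4.mono h⟩

lemma EvE.al {B : Finset (Fin d)} {y : Fin d → ℕ} {x : Vx n d} {s s₁ : ℕ}
    {A : Finset (Vx n d)} (hs : 1 ≤ s₁) (hs' : s₁ ≤ s) (hE : EvE B y x s A) :
    ∃ x' ∈ ball x (2 * s), ∃ s' ∈ Finset.Icc s₁ ((2 * d + 1) ^ 2 * s₁), EvE B y x' s' A := by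
  obtain ⟨D, h1, h2, h3, h4⟩ := hE
  obtain ⟨D', k1, k2, k3, k4, k5⟩ := Tower332.al hs D h3 h4 (by omega)
  have hne : D'.Nonempty := by rw [← card_pos]; omega
  obtain ⟨x', hx'⟩ := hne
  refine ⟨x', ?_, #D', Finset.mem_Icc.mpr ⟨k4, k5⟩, D', rfl, hx', k2, k3⟩
  have := mem_ball.mp (subset_ball h3 h2 (k1 hx'))
  rw [mem_ball]
  omega

end Pool.Agent.Tower332
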