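import Pool.Agent.Tower332.UpperProb
import Pool.Agent.Tower332.Lower

/-!
The recursion for the upper bound.
-/

set_option autoImplicit false
set_option linter.unusedSectionVars false

namespace Pool.Agent.Tower332

open Finset

/-- Exponents of the polynomial decay. -/
def Kx (d j : ℕ) : ℕ := 4 ^ (d - j) * (4 * d + 5)

/-- Scales. -/
def gx (d : ℕ) : ℕ → ℕ
  | 0 => 2 ^ (4 * d)
  | j + 1 => 2 ^ ((gx d j) ^ (2 * d))

lemma Kx_ge (d j : ℕ) : 4 * d + 5 ≤ Kx d j :=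
  Nat.le_mul_of_pos_left _ (by positivity)

lemma Kx_le (d j : ℕ) : Kx d j ≤ 4 ^ d * (4 * d + 5) :=
  Nat.mul_le_mul_right _ (Nat.pow_le_pow_right (by norm_num) (by omega))

lemma Kx_succ {d j : ℕ} (h : j < d) : Kx d j = 4 * Kx d (j + 1) := by
  unfold Kx
  have : d - j = (d - (j + 1)) + 1 := by omega
  rw [this, pow_succ]
  ring

lemma gx_ge {d : ℕ} (hd : 1 ≤ d) (j : ℕ) : 2 ^ (4 * d) ≤ gx d j := by
  induction j with
  | zero => exact le_rfl
  | succ j ih =>
    show 2 ^ (4 * d) ≤ 2 ^ ((gx d j) ^ (2 * d))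
    have h1 : 1 ≤ gx d j := le_trans Nat.one_le_two_pow ih
    have h2 : gx d j ≤ (gx d j) ^ (2 * d) := Nat.le_self_pow (by omega) _
    have h3 : gx d j < 2 ^ gx d j := Nat.lt_two_pow_self
    calc 2 ^ (4 * d) ≤ gx d j := ih
      _ ≤ 2 ^ gx d j := h3.le
      _ ≤ 2 ^ ((gx d j) ^ (2 * d)) := Nat.pow_le_pow_right (by norm_num) h2

lemma num_exp {K Q M : ℕ} (hQ : 1 ≤ Q) (hM : 2 * ((4 * K + 2) * Q) ^ 2 ≤ M) :
    (2 : ℝ) ^ (2 * K + 1) * (M : ℝ) ^ (2 * K) ≤ Real.exp ((M : ℝ) / Q) := by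
  set m := (4 * K + 2) * Q with hm
  have hm1 : 1 ≤ m := Nat.one_le_iff_ne_zero.mpr (by positivity)
  have hM1 : 1 ≤ M := le_trans (Nat.one_le_iff_ne_zero.mpr (by positivity)) hM
  have hmR : (1 : ℝ) ≤ m := by exact_mod_cast hm1
  have hMR : (1 : ℝ) ≤ M := by exact_mod_cast hM1
  have hMm : 2 * (m : ℝ) ^ 2 ≤ M := by exact_mod_cast hM
  set x : ℝ := (M : ℝ) / m with hx
  have hx0 : 0 ≤ x := by positivity
  have h1 : (2 * M : ℝ) ≤ x ^ 2 := by
    rw [hx, div_pow, le_div_iff₀ (by positivity)]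
    nlinarith
  have h2 : (M : ℝ) / Q = ((4 * K + 2 : ℕ) : ℝ) * x := by
    have hQ0 : (0 : ℝ) < Q := by exact_mod_cast hQ
    rw [hx, hm]
    push_cast
    field_simp
  have h3 : x ≤ Real.exp x := by
    have := Real.add_one_le_exp x
    linarith
  rw [h2, Real.exp_nat_mul]
  calc (2 : ℝ) ^ (2 * K + 1) * (M : ℝ) ^ (2 * K)
      ≤ (2 : ℝ) ^ (2 * K + 1) * (M : ℝ) ^ (2 * K + 1) :=
        mul_le_mul_of_nonneg_left (pow_le_pow_right₀ hMR (by omega)) (by positivity)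
    _ = (2 * M) ^ (2 * K + 1) := by rw [mul_pow]
    _ ≤ (x ^ 2) ^ (2 * K + 1) := by gcongr
    _ = x ^ (4 * K + 2) := by rw [← pow_mul]; congr 1; ring
    _ ≤ (Real.exp x) ^ (4 * K + 2) := by gcongr

lemma sum_sq_le {L M : ℕ} (hL : 2 ≤ L) (hLM : L ≤ M) :
    ∑ k ∈ Finset.Ico L M, (1 : ℝ) / (k : ℝ) ^ 2 ≤ 1 - 1 / ((M : ℝ) - 1) := by
  induction M, hLM using Nat.le_induction with
  | base =>
    rw [Finset.Ico_self, Finset.sum_empty]
    have h1 : (2 : ℝ) ≤ L := by exact_mod_cast hL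
    have h2 : 1 / ((L : ℝ) - 1) ≤ 1 := by
      rw [div_le_one (by linarith)]
      linarith
    linarith
  | succ M hM ih =>
    rw [Finset.sum_Ico_succ_top hM]
    have h1 : (2 : ℝ) ≤ M := by exact_mod_cast hL.trans hM
    have h2 : (1 : ℝ) / (M : ℝ) ^ 2 ≤ 1 / ((M : ℝ) - 1) - 1 / M := by
      rw [div_sub_div _ _ (by linarith) (by linarith), div_le_div_iff₀ (by positivity)
        (mul_pos (by linarith) (by linarith))]
      nlinarith
    push_cast
    have h3 : (M : ℝ) + 1 - 1 = M := by ring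
    rw [h3]
    linarith

lemma hsum_aux {d j L M : ℕ} (hj : j + 1 ≤ d) (hL : 2 ≤ L) (hLM : L ≤ M) :
    ∑ k ∈ Finset.Ico L M, ((j + 1 : ℕ) : ℝ) * 2 ^ (j + 1) * (1 / (k : ℝ) ^ Kx d j) ≤ 1 / 2 := by
  have hK := Kx_ge d j
  obtain ⟨K₀, hK₀⟩ : ∃ K₀, Kx d j = K₀ + 2 := ⟨Kx d j - 2, by omega⟩
  have h1 : ∀ k ∈ Finset.Ico L M, ((j + 1 : ℕ) : ℝ) * 2 ^ (j + 1) * (1 / (k : ℝ) ^ Kx d j) ≤
      1 / 2 * (1 / (k : ℝ) ^ 2) := by
    intro k hk
    rw [Finset.mem_Ico] at hk
    have hk2 : (2 : ℝ) ≤ k := by exact_mod_cast hL.trans hk.1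
    have h2 : (2 : ℝ) ^ K₀ ≤ (k : ℝ) ^ K₀ := pow_le_pow_left₀ (by norm_num) hk2 _
    have h3 : ((j + 1 : ℕ) : ℝ) ≤ 2 ^ (j + 1) := by
      exact_mod_cast (Nat.lt_two_pow_self (n := j + 1)).le
    have h4 : (2 : ℝ) * (2 ^ (j + 1) * 2 ^ (j + 1)) ≤ 2 ^ K₀ := by
      rw [← pow_add, ← pow_succ']
      exact pow_le_pow_right₀ (by norm_num) (by omega)
    have h5 : ((j + 1 : ℕ) : ℝ) * 2 ^ (j + 1) * 2 ≤ (k : ℝ) ^ K₀ := by
      calc ((j + 1 : ℕ) : ℝ) * 2 ^ (j + 1) * 2 ≤ 2 ^ (j + 1) * 2 ^ (j + 1) * 2 := by gcongr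
        _ = 2 * (2 ^ (j + 1) * 2 ^ (j + 1)) := by ring
        _ ≤ _ := h4.trans h2
    have hk0 : (0 : ℝ) < (k : ℝ) ^ K₀ := by positivity
    have h6 : ((j + 1 : ℕ) : ℝ) * 2 ^ (j + 1) / (k : ℝ) ^ K₀ ≤ 1 / 2 := by
      rw [div_le_iff₀ hk0]
      linarith
    have hkpos : (0 : ℝ) < k := by linarith
    calc ((j + 1 : ℕ) : ℝ) * 2 ^ (j + 1) * (1 / (k : ℝ) ^ Kx d j)
        = ((j + 1 : ℕ) : ℝ) * 2 ^ (j + 1) / (k : ℝ) ^ K₀ * (1 / (k : ℝ) ^ 2) := by
          rw [hK₀, pow_add (k : ℝ) K₀ 2]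
          field_simp
      _ ≤ 1 / 2 * (1 / (k : ℝ) ^ 2) := mul_le_mul_of_nonneg_right h6 (by positivity)
  refine (Finset.sum_le_sum h1).trans ?_
  rw [← Finset.mul_sum]
  have h2 := sum_sq_le hL hLM
  have h3 : 0 ≤ 1 / ((M : ℝ) - 1) := by
    have : (2 : ℝ) ≤ M := by exact_mod_cast hL.trans hLM
    apply div_nonneg <;> linarith
  linarith

/-- The decay estimate for all faces. -/
theorem filled_decay {d : ℕ} (hd : 30 ≤ d) (j : ℕ) (hj : j ≤ d) (n : ℕ) :
    ∀ (J : Finset (Fin d)), #J = j → ∀ (a : Vx n d) (k : ℕ), gx d j ≤ k →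
      (∀ i ∈ J, (a i : ℕ) + k ≤ n) →
      Pr (1 / 4) univ (fun A => ¬ Filled (cube J a k) #J A) ≤ 1 / (k : ℝ) ^ Kx d j := by
  induction j with
  | zero =>
    intro J hJ a k _ _
    have h1 : Pr (1 / 4 : ℝ) univ (fun A => ¬ Filled (cube J a k) #J A) ≤
        Pr (1 / 4 : ℝ) univ (fun _ : Finset (Vx n d) => False) := by
      refine Pr_mono (by norm_num) (by norm_num) (fun A _ h => h ?_)
      intro X _ hX v hv
      exact hX v hv (by rw [hJ]; exact Nat.zero_le _)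
    have h2 : Pr (1 / 4 : ℝ) univ (fun _ : Finset (Vx n d) => False) = 0 := by
      unfold Pr
      simp only [if_false]
      exact Ex_const _ _ _
    rw [h2] at h1
    exact h1.trans (by positivity)
  | succ j ih =>
    intro J hJ a N hN hfit
    have ih' := ih (by omega)
    set L := gx d j with hL
    set K' := Kx d (j + 1) with hK'
    set M := Nat.sqrt N with hM
    set E := L ^ (2 * d) with hE
    have hd1 : 1 ≤ d := by omega
    have hL16 : 2 ^ (4 * d) ≤ L := gx_ge hd1 j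
    have h2120 : (2 : ℕ) ^ 120 ≤ 2 ^ (4 * d) := Nat.pow_le_pow_right (by norm_num) (by omega)
    have hL100 : 100 ≤ L := by
      have : 100 ≤ (2 : ℕ) ^ 120 := by norm_num
      omega
    have hN' : 2 ^ E ≤ N := hN
    -- bounds on `M`
    have hLd : L ≤ L ^ d := Nat.le_self_pow (by omega) _
    have hEeq : E = L ^ d * L ^ d := by rw [hE, ← pow_add]; congr 1; ring
    have hE1 : 18 * L ^ d ≤ E := by rw [hEeq]; exact Nat.mul_le_mul_right _ (by omega)
    have hMge : 2 ^ (9 * L ^ d) ≤ M := by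
      rw [hM, Nat.le_sqrt, ← pow_add]
      refine le_trans (Nat.pow_le_pow_right (by norm_num) ?_) hN'
      omega
    have hML : L ≤ M := by
      have h1 : L < 2 ^ L := Nat.lt_two_pow_self
      have h2 : 2 ^ L ≤ 2 ^ (9 * L ^ d) := Nat.pow_le_pow_right (by norm_num) (by omega)
      omega
    have hM4 : 4 ≤ M := by omega
    have hMM : M * M ≤ N := Nat.sqrt_le N
    have hNM : N ≤ 4 * M ^ 2 := by
      have h1 : N < (M + 1) * (M + 1) := Nat.lt_succ_sqrt N
      nlinarith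
    have hNM3 : N ≤ M ^ 3 := by
      refine hNM.trans ?_
      rw [pow_succ M 2, mul_comm]
      exact Nat.mul_le_mul_left _ hM4
    have hJne : J.Nonempty := by rw [← card_pos]; omega
    have hcardE : ∀ i ∈ J, #(J.erase i) = j := by
      intro i hi
      rw [card_erase_of_mem hi]
      omega
    have hrec := Pr_not_filled (n := n) (p := 1 / 4) (by norm_num) (by norm_num) (J := J) (a := a)
      (N := N) (M := M) (L := L) (T := M) hJne (by omega) hML (by omega) hMM (by omega) hfit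
      (φ := fun k => 1 / (k : ℝ) ^ Kx d j)
      (by
        intro k hk i hi a' ha'
        rw [Finset.mem_Icc] at hk
        exact ih' (J.erase i) (hcardE i hi) a' k hk.1 ha')
      (by
        rw [hJ]
        exact hsum_aux hj (by omega) hML)
    refine hrec.trans ?_
    rw [hJ]
    -- the first term
    set Q := 2 * 4 ^ (L ^ (j + 1)) with hQ
    have hQ1 : 1 ≤ Q := by
      have : 1 ≤ 4 ^ (L ^ (j + 1)) := Nat.one_le_pow _ _ (by norm_num)
      omega
    have hNpos : (0 : ℝ) < N := by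
      have : 1 ≤ N := le_trans Nat.one_le_two_pow hN'
      exact_mod_cast this
    have hLj : L ^ (j + 1) ≤ L ^ d := Nat.pow_le_pow_right (by omega) hj
    have hm : 4 * K' + 2 ≤ 2 ^ L := by
      have e1 : K' ≤ 4 ^ d * (4 * d + 5) := Kx_le d (j + 1)
      have e2 : d < 2 ^ d := Nat.lt_two_pow_self
      have e4 : 4 ^ d = 2 ^ d * 2 ^ d := by
        rw [← Nat.mul_pow]
      have e5 : 4 * K' + 2 ≤ 2 ^ (4 * d) := by
        have e6 : (2 : ℕ) ^ (4 * d) = 2 ^ d * 2 ^ d * 2 ^ d * 2 ^ d := by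
          rw [← pow_add, ← pow_add, ← pow_add]; congr 1; ring
        have e7 : (2 : ℕ) ^ 30 ≤ 2 ^ d := Nat.pow_le_pow_right (by norm_num) hd
        rw [e6]
        set w := 2 ^ d with hw
        have e8 : 1000 ≤ w := by
          have : 1000 ≤ (2 : ℕ) ^ 30 := by norm_num
          omega
        have e9 : 4 * d + 5 ≤ 5 * w := by omega
        have e10 : K' ≤ w * w * (5 * w) := by
          rw [e4] at e1
          exact e1.trans (Nat.mul_le_mul_left _ e9)
        have e11 : 4 * (w * w * (5 * w)) + 2 ≤ 22 * (w * w * w) := by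
          have : 1 ≤ w * w * w := Nat.one_le_iff_ne_zero.mpr (by positivity)
          nlinarith
        have e12 : 22 * (w * w * w) ≤ w * w * w * w := by
          rw [mul_comm 22]
          exact Nat.mul_le_mul_left _ (by omega)
        omega
      have e6 : 4 * d ≤ L := by
        have : 4 * d < 2 ^ (4 * d) := Nat.lt_two_pow_self
        omega
      exact e5.trans (Nat.pow_le_pow_right (by norm_num) e6)
    have hMQ : 2 * ((4 * K' + 2) * Q) ^ 2 ≤ M := by
      have e1 : Q ≤ 2 ^ (3 * L ^ d) := by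
        rw [hQ, show (4 : ℕ) = 2 ^ 2 by norm_num, ← pow_mul, ← pow_succ']
        exact Nat.pow_le_pow_right (by norm_num) (by omega)
      have e2 : (4 * K' + 2) * Q ≤ 2 ^ (4 * L ^ d) := by
        calc (4 * K' + 2) * Q ≤ 2 ^ L * 2 ^ (3 * L ^ d) := Nat.mul_le_mul hm e1
          _ = 2 ^ (L + 3 * L ^ d) := by rw [← pow_add]
          _ ≤ 2 ^ (4 * L ^ d) := Nat.pow_le_pow_right (by norm_num) (by omega)
      calc 2 * ((4 * K' + 2) * Q) ^ 2 ≤ 2 * (2 ^ (4 * L ^ d)) ^ 2 :=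
            Nat.mul_le_mul_left _ (Nat.pow_le_pow_left e2 2)
        _ = 2 ^ (8 * L ^ d + 1) := by rw [← pow_mul, ← pow_succ']; congr 1; ring
        _ ≤ 2 ^ (9 * L ^ d) := Nat.pow_le_pow_right (by norm_num) (by omega)
        _ ≤ M := hMge
    have t1 : (1 - (1 / 4 : ℝ) ^ (L ^ (j + 1)) / 2) ^ M ≤ 1 / (2 * (N : ℝ) ^ K') := by
      have e1 : (1 / 4 : ℝ) ^ (L ^ (j + 1)) / 2 = 1 / Q := by
        rw [hQ]; push_cast; rw [one_div_pow]; field_simp
      rw [e1]
      have hQ0 : (0 : ℝ) < Q := by exact_mod_cast hQ1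
      have e2 : 1 - 1 / (Q : ℝ) ≤ Real.exp (-(1 / Q)) := by
        have := Real.add_one_le_exp (-(1 / (Q : ℝ)))
        linarith
      have e3 : 0 ≤ 1 - 1 / (Q : ℝ) := by
        have : (1 : ℝ) / Q ≤ 1 := by
          rw [div_le_one hQ0]; exact_mod_cast hQ1
        linarith
      have e4 : (1 - 1 / (Q : ℝ)) ^ M ≤ Real.exp (-((M : ℝ) / Q)) := by
        refine (pow_le_pow_left₀ e3 e2 M).trans (le_of_eq ?_)
        rw [← Real.exp_nat_mul]; congr 1; ring
      refine e4.trans ?_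
      rw [Real.exp_neg, ← one_div]
      refine one_div_le_one_div_of_le (by positivity) ?_
      refine le_trans ?_ (num_exp hQ1 hMQ)
      have e5 : (N : ℝ) ≤ 4 * (M : ℝ) ^ 2 := by exact_mod_cast hNM
      calc 2 * (N : ℝ) ^ K' ≤ 2 * (4 * (M : ℝ) ^ 2) ^ K' := by gcongr
        _ = (2 : ℝ) ^ (2 * K' + 1) * (M : ℝ) ^ (2 * K') := by
            rw [mul_pow, ← pow_mul, show (4 : ℝ) = 2 ^ 2 by norm_num, ← pow_mul, pow_succ 2 (2 * K')]
            ring
    -- the second term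
    have t2 : ((j + 1 : ℕ) : ℝ) * (N : ℝ) ^ (j + 1) * (1 / (M : ℝ) ^ Kx d j) ≤
        1 / (2 * (N : ℝ) ^ K') := by
      have hMpos : (0 : ℝ) < M := by exact_mod_cast (by omega : 0 < M)
      rw [mul_one_div, div_le_div_iff₀ (by positivity) (by positivity), one_mul]
      have e1 : (j + 1) * N ^ (j + 1) * (2 * N ^ K') ≤ M ^ Kx d j := by
        have e2 : 2 * (j + 1) ≤ M ^ (j + 2) := by
          have : j + 1 < 2 ^ (j + 1) := Nat.lt_two_pow_self
          calc 2 * (j + 1) ≤ 2 * 2 ^ (j + 1) := by omega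
            _ = 2 ^ (j + 2) := by rw [← pow_succ']
            _ ≤ M ^ (j + 2) := Nat.pow_le_pow_left (by omega) _
        have e3 : N ^ (j + 1 + K') ≤ M ^ (3 * (j + 1 + K')) := by
          rw [pow_mul]
          exact Nat.pow_le_pow_left hNM3 _
        calc (j + 1) * N ^ (j + 1) * (2 * N ^ K') = 2 * (j + 1) * N ^ (j + 1 + K') := by
              rw [pow_add N (j + 1) K']; ring
          _ ≤ M ^ (j + 2) * M ^ (3 * (j + 1 + K')) := Nat.mul_le_mul e2 e3
          _ = M ^ (j + 2 + 3 * (j + 1 + K')) := by rw [← pow_add]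
          _ ≤ M ^ Kx d j := by
              refine Nat.pow_le_pow_right (by omega) ?_
              rw [Kx_succ (by omega), ← hK']
              have := Kx_ge d (j + 1)
              omega
      exact_mod_cast e1
    have t3 : (1 : ℝ) / (2 * (N : ℝ) ^ K') + 1 / (2 * (N : ℝ) ^ K') = 1 / (N : ℝ) ^ K' := by
      field_simp; norm_num
    calc (1 - (1 / 4 : ℝ) ^ (L ^ (j + 1)) / 2) ^ M +
          ((j + 1 : ℕ) : ℝ) * (N : ℝ) ^ (j + 1) * (1 / (M : ℝ) ^ Kx d j)
        ≤ 1 / (2 * (N : ℝ) ^ K') + 1 / (2 * (N : ℝ) ^ K') := add_le_add t1 t2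
      _ = 1 / (N : ℝ) ^ K' := t3

lemma tower_succ (k : ℕ) : tower (k + 1) = 2 ^ tower k := rfl

lemma tower_ge {k : ℕ} (hk : 3 ≤ k) : 4 * (k + 1) ≤ tower k := by
  induction k, hk using Nat.le_induction with
  | base => norm_num [tower]
  | succ k hk ih =>
    rw [tower_succ]
    have h1 : 4 * (k + 1 + 1) ≤ 2 ^ (k + 4) := by
      have : k < 2 ^ k := Nat.lt_two_pow_self
      rw [pow_add]; omega
    exact h1.trans (Nat.pow_le_pow_right (by norm_num) (by omega))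

lemma tower_mono {j k : ℕ} (h : j ≤ k) : tower j ≤ tower k := by
  induction k, h using Nat.le_induction with
  | base => exact le_rfl
  | succ k _ ih => exact ih.trans (by rw [tower_succ]; exact Nat.lt_two_pow_self.le)

lemma gx_le {d : ℕ} (hd : 30 ≤ d) (j : ℕ) : gx d j ≤ tower (d + 2 * j) := by
  induction j with
  | zero =>
    obtain ⟨e, rfl⟩ : ∃ e, d = e + 1 := ⟨d - 1, by omega⟩
    show 2 ^ (4 * (e + 1)) ≤ tower (e + 1)
    rw [tower_succ]
    exact Nat.pow_le_pow_right (by norm_num) (tower_ge (by omega))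
  | succ j ih =>
    obtain ⟨k, hk⟩ : ∃ k, d + 2 * j = k + 1 := ⟨d + 2 * j - 1, by omega⟩
    rw [show d + 2 * (j + 1) = k + 1 + 1 + 1 by omega, tower_succ, tower_succ]
    rw [hk, tower_succ] at ih
    show 2 ^ ((gx d j) ^ (2 * d)) ≤ 2 ^ 2 ^ tower (k + 1)
    refine Nat.pow_le_pow_right (by norm_num) ?_
    calc (gx d j) ^ (2 * d) ≤ (2 ^ tower k) ^ (2 * d) := Nat.pow_le_pow_left ih _
      _ = 2 ^ (tower k * (2 * d)) := by rw [← pow_mul]
      _ ≤ 2 ^ tower (k + 1) := by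
          refine Nat.pow_le_pow_right (by norm_num) ?_
          rw [tower_succ]
          have h1 : 4 * (k + 1) ≤ tower k := tower_ge (by omega)
          have h2 : tower k * (2 * d) ≤ tower k * tower k := Nat.mul_le_mul_left _ (by omega)
          have h3 : ∀ m : ℕ, 4 ≤ m → m * m ≤ 2 ^ m := by
            intro m hm
            induction m, hm using Nat.le_induction with
            | base => norm_num
            | succ m hm ih => rw [pow_succ]; nlinarith
          exact h2.trans (h3 _ (by omega))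

end Pool.Agent.Tower332
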