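import Pool.Agent.Tower332.Cube

/-!
Probabilistic part of the recursion for the upper bound.
-/

set_option autoImplicit false
set_option linter.unusedSectionVars false

namespace Pool.Agent.Tower332

open Finset

variable {n d : ℕ}

lemma card_cube_le (J : Finset (Fin d)) (a : Vx n d) (k : ℕ) : #(cube J a k) ≤ k ^ #J := by
  classical
  have h1 : cube J a k ⊆ Fintype.piFinset (fun i => if i ∈ J then
      univ.filter (fun c : Fin n => (a i : ℕ) ≤ c ∧ (c : ℕ) < a i + k) else {a i}) := by
    intro x hx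
    rw [mem_cube] at hx
    rw [Fintype.mem_piFinset]
    intro i
    by_cases hi : i ∈ J
    · rw [if_pos hi, mem_filter]
      exact ⟨mem_univ _, hx.1 i hi⟩
    · rw [if_neg hi, mem_singleton]
      exact hx.2 i hi
  have h2 : ∀ i : Fin d, #(if i ∈ J then
      univ.filter (fun c : Fin n => (a i : ℕ) ≤ c ∧ (c : ℕ) < a i + k) else {a i}) ≤
      (if i ∈ J then k else 1) := by
    intro i
    by_cases hi : i ∈ J
    · rw [if_pos hi, if_pos hi]
      have h3 : #(univ.filter (fun c : Fin n => (a i : ℕ) ≤ c ∧ (c : ℕ) < a i + k)) ≤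
          #(Finset.Ico (a i : ℕ) (a i + k)) := by
        refine Finset.card_le_card_of_injOn (fun c => (c : ℕ)) ?_ ?_
        · intro c hc
          have hc' := (mem_filter.mp (Finset.mem_coe.mp hc)).2
          rw [Finset.mem_coe, Finset.mem_Ico]
          exact hc'
        · intro a _ b _ h
          exact Fin.ext h
      rw [Nat.card_Ico] at h3
      omega
    · rw [if_neg hi, if_neg hi]
      simp
  calc #(cube J a k) ≤ _ := card_le_card h1
    _ = ∏ i : Fin d, #(if i ∈ J then
      univ.filter (fun c : Fin n => (a i : ℕ) ≤ c ∧ (c : ℕ) < a i + k) else {a i}) :=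
        Fintype.card_piFinset _
    _ ≤ ∏ i : Fin d, (if i ∈ J then k else 1) := Finset.prod_le_prod' (fun i _ => h2 i)
    _ = k ^ #J := by
        rw [Finset.prod_ite_mem, Finset.univ_inter, Finset.prod_const]

lemma shift_cube_sub {J : Finset (Fin d)} {c : Vx n d} {k : ℕ} (hk : 1 ≤ k)
    (hfit : ∀ i ∈ J, (c i : ℕ) + k + 1 ≤ n) {i : Fin d} (hi : i ∈ J) {R : Finset (Fin d)}
    (hR : R ⊆ J.erase i) : cube (J.erase i) (shiftc c i k R) k ⊆ cube J c (k + 1) := by
  classical
  have hfi := hfit i hi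
  intro z hz
  rw [mem_cube] at hz ⊢
  refine ⟨fun j hj => ?_, fun j hj => ?_⟩
  · by_cases hji : j = i
    · subst hji
      have h1 := hz.2 j (Finset.notMem_erase j J)
      have h2 : (shiftc c j k R j : ℕ) = c j + k := shiftc_self (by omega)
      rw [h1, h2]
      omega
    · have h1 := hz.1 j (mem_erase.mpr ⟨hji, hj⟩)
      by_cases hjR : j ∈ R
      · have hfj := hfit j hj
        rw [shiftc_mem hji hjR (by omega)] at h1
        omega
      · rw [shiftc_notMem hji hjR] at h1
        omega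
  · have hji : j ≠ i := fun h => hj (h ▸ hi)
    have hjR : j ∉ R := fun h => hj (mem_of_mem_erase (hR h))
    have := hz.2 j (fun h => hj (mem_of_mem_erase h))
    rw [this, shiftc_notMem hji hjR]

lemma Grows.congr {J : Finset (Fin d)} {c : Vx n d} {L M : ℕ} (hL : 1 ≤ L)
    (hfit : ∀ i ∈ J, (c i : ℕ) + M ≤ n) {A A' : Finset (Vx n d)}
    (h : ∀ v ∈ cube J c M, v ∉ cube J c L → (v ∈ A ↔ v ∈ A')) :
    Grows J c L M A ↔ Grows J c L M A' := by
  unfold Grows
  refine forall_congr' (fun k => forall_congr' (fun hk => forall_congr' (fun i =>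
    forall_congr' (fun hi => forall_congr' (fun R => forall_congr' (fun hR => ?_))))))
  rw [Finset.mem_Ico] at hk
  rw [mem_powerset] at hR
  refine Filled.congr (fun v hv => h v ?_ ?_)
  · have h1 := shift_cube_sub (c := c) (k := k) (by omega)
      (fun i hi => by have := hfit i hi; omega) hi hR hv
    exact cube_mono (by omega) h1
  · intro hv'
    have h1 := (mem_cube.mp hv).2 i (Finset.notMem_erase i J)
    have h2 := ((mem_cube.mp hv').1 i hi).2
    have hfi := hfit i hi
    have h3 : (shiftc c i k R i : ℕ) = c i + k := shiftc_self (by omega)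
    rw [h1, h3] at h2
    omega

/-- A cell is full with not too small probability. -/
theorem Pr_cell {p : ℝ} (h0 : 0 ≤ p) (h1 : p ≤ 1) {J : Finset (Fin d)} {c : Vx n d} {L M : ℕ}
    (hL : 1 ≤ L) (hfit : ∀ i ∈ J, (c i : ℕ) + M ≤ n) {φ : ℕ → ℝ}
    (hφ : ∀ k ∈ Finset.Ico L M, ∀ i ∈ J, ∀ a' : Vx n d,
      (∀ j ∈ J.erase i, (a' j : ℕ) + k ≤ n) →
      Pr p univ (fun A => ¬ Filled (cube (J.erase i) a' k) #(J.erase i) A) ≤ φ k)
    (hsum : ∑ k ∈ Finset.Ico L M, #J * 2 ^ #J * φ k ≤ 1 / 2) :
    p ^ (L ^ #J) / 2 ≤ Pr p univ (fun A => cube J c L ⊆ A ∧ Grows J c L M A) := by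
  classical
  have hind : Pr p univ (fun A => cube J c L ⊆ A ∧ Grows J c L M A) =
      Pr p univ (fun A => cube J c L ⊆ A) * Pr p univ (Grows J c L M) := by
    refine Pr_and_indep (cube J c L) (fun A => ?_) (fun A => ?_)
    · constructor
      · intro h v hv
        exact mem_inter.mpr ⟨h hv, hv⟩
      · intro h v hv
        exact (mem_inter.mp (h hv)).1
    · refine Grows.congr hL hfit (fun v _ hv => ?_)
      rw [mem_sdiff]
      exact ⟨fun h => ⟨h, hv⟩, fun h => h.1⟩
  rw [hind, Pr_subset (Finset.subset_univ _)]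
  have k1 : p ^ (L ^ #J) ≤ p ^ #(cube J c L) := pow_le_pow_of_le_one h0 h1 (card_cube_le J c L)
  have k2 : Pr p univ (fun A => ¬ Grows J c L M A) ≤ 1 / 2 := by
    calc Pr p univ (fun A => ¬ Grows J c L M A)
        ≤ Pr p univ (fun A => ∃ k ∈ Finset.Ico L M, ∃ i ∈ J, ∃ R ∈ (J.erase i).powerset,
            ¬ Filled (cube (J.erase i) (shiftc c i k R) k) #(J.erase i) A) := by
          refine Pr_mono h0 h1 (fun A _ h => ?_)
          unfold Grows at h
          push Not at h
          exact h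
      _ ≤ ∑ k ∈ Finset.Ico L M, ∑ i ∈ J, ∑ R ∈ (J.erase i).powerset, Pr p univ (fun A =>
            ¬ Filled (cube (J.erase i) (shiftc c i k R) k) #(J.erase i) A) := by
          refine (Pr_exists_le h0 h1 _ _).trans (Finset.sum_le_sum (fun k _ => ?_))
          refine (Pr_exists_le h0 h1 _ _).trans (Finset.sum_le_sum (fun i _ => ?_))
          exact Pr_exists_le h0 h1 _ _
      _ ≤ ∑ k ∈ Finset.Ico L M, ∑ i ∈ J, ∑ _R ∈ (J.erase i).powerset, φ k := by
          refine Finset.sum_le_sum (fun k hk => Finset.sum_le_sum (fun i hi =>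
            Finset.sum_le_sum (fun R hR => ?_)))
          refine hφ k hk i hi _ (fun j hj => ?_)
          rw [Finset.mem_Ico] at hk
          have hji := ne_of_mem_erase hj
          have hfj := hfit j (mem_of_mem_erase hj)
          by_cases hjR : j ∈ R
          · rw [shiftc_mem hji hjR (by omega)]; omega
          · rw [shiftc_notMem hji hjR]; omega
      _ ≤ ∑ k ∈ Finset.Ico L M, #J * 2 ^ #J * φ k := by
          refine Finset.sum_le_sum (fun k hk => ?_)
          have h5 : ∀ i ∈ J, ∑ _R ∈ (J.erase i).powerset, φ k ≤ 2 ^ #J * φ k := by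
            intro i hi
            rw [Finset.sum_const, nsmul_eq_mul, card_powerset]
            have hφ0 : 0 ≤ φ k := by
              refine le_trans (Pr_nonneg h0 h1) (hφ k hk i hi c (fun j hj => ?_))
              rw [Finset.mem_Ico] at hk
              have hfj := hfit j (mem_of_mem_erase hj)
              omega
            refine mul_le_mul_of_nonneg_right ?_ hφ0
            push_cast
            exact pow_le_pow_right₀ (by norm_num) (card_le_card (Finset.erase_subset _ _))
          refine (Finset.sum_le_sum h5).trans ?_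
          rw [Finset.sum_const, nsmul_eq_mul]
          exact le_of_eq (by ring)
      _ ≤ 1 / 2 := hsum
  rw [Pr_compl] at k2
  have k3 : 1 / 2 ≤ Pr p univ (Grows J c L M) := by
    have : Pr p univ (fun A => Grows J c L M A) = Pr p univ (Grows J c L M) := rfl
    linarith
  have k4 : 0 ≤ p ^ (L ^ #J) := by positivity
  calc p ^ (L ^ #J) / 2 = p ^ (L ^ #J) * (1 / 2) := by ring
    _ ≤ p ^ #(cube J c L) * Pr p univ (Grows J c L M) := by gcongr

/-- Independent trials. -/
theorem Pr_forall_le {p q : ℝ} (h0 : 0 ≤ p) (h1 : p ≤ 1) (hq : 0 ≤ q)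
    (S : ℕ → Finset (Vx n d)) (E : ℕ → Finset (Vx n d) → Prop) (T : ℕ)
    (hS : ∀ t < T, ∀ t' < t, Disjoint (S t) (S t'))
    (hE : ∀ t < T, ∀ A A' : Finset (Vx n d), (∀ v ∈ S t, v ∈ A ↔ v ∈ A') → (E t A ↔ E t A'))
    (hP : ∀ t < T, Pr p univ (E t) ≤ q) :
    Pr p univ (fun A => ∀ t < T, E t A) ≤ q ^ T := by
  classical
  induction T with
  | zero => rw [pow_zero]; exact Pr_le_one h0 h1
  | succ T ih =>
    have k1 : Pr p univ (fun A => ∀ t < T + 1, E t A) =
        Pr p univ (fun A => E T A ∧ ∀ t < T, E t A) := by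
      refine Pr_congr (fun A _ => ?_)
      constructor
      · intro h
        exact ⟨h T (by omega), fun t ht => h t (by omega)⟩
      · intro h t ht
        rcases Nat.lt_succ_iff_lt_or_eq.mp ht with h' | h'
        · exact h.2 t h'
        · rw [h']; exact h.1
    rw [k1, Pr_and_indep (S T), pow_succ, mul_comm]
    · refine mul_le_mul (ih (fun t ht => hS t (by omega)) (fun t ht => hE t (by omega))
        (fun t ht => hP t (by omega))) (hP T (by omega)) (Pr_nonneg h0 h1) (by positivity)
    · intro A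
      exact hE T (by omega) _ _ (fun v hv => by simp [hv])
    · intro A
      refine forall_congr' (fun t => forall_congr' (fun ht => ?_))
      refine hE t (by omega) _ _ (fun v hv => ?_)
      have : v ∉ S T := fun h => Finset.disjoint_left.mp (hS T (by omega) t ht) h hv
      simp [this]

/-- The recursion for the probability that a cube is not filled. -/
theorem Pr_not_filled {p : ℝ} (h0 : 0 ≤ p) (h1 : p ≤ 1) {J : Finset (Fin d)} {a : Vx n d}
    {N M L T : ℕ} (hJ : J.Nonempty) (hL : 1 ≤ L) (hLM : L ≤ M) (hM : 2 ≤ M) (hMT : M * T ≤ N)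
    (hT : 1 ≤ T) (hfit : ∀ i ∈ J, (a i : ℕ) + N ≤ n) {φ : ℕ → ℝ}
    (hφ : ∀ k ∈ Finset.Icc L M, ∀ i ∈ J, ∀ a' : Vx n d,
      (∀ j ∈ J.erase i, (a' j : ℕ) + k ≤ n) →
      Pr p univ (fun A => ¬ Filled (cube (J.erase i) a' k) #(J.erase i) A) ≤ φ k)
    (hsum : ∑ k ∈ Finset.Ico L M, #J * 2 ^ #J * φ k ≤ 1 / 2) :
    Pr p univ (fun A => ¬ Filled (cube J a N) #J A) ≤
      (1 - p ^ (L ^ #J) / 2) ^ T + #J * N ^ #J * φ M := by
  classical
  obtain ⟨i₀, hi₀⟩ := hJ
  have hMN : M ≤ N := le_trans (Nat.le_mul_of_pos_right M (by omega)) hMT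
  -- the corners of the cells
  have hcb : ∀ t : ℕ, t < T → (a i₀ : ℕ) + M * t < n := by
    intro t ht
    have h2 := hfit i₀ hi₀
    have h3 : M * t + M ≤ M * T := by
      have : M * (t + 1) ≤ M * T := Nat.mul_le_mul_left _ ht
      linarith
    omega
  set c : ℕ → Vx n d := fun t =>
    if h : (a i₀ : ℕ) + M * t < n then Function.update a i₀ ⟨(a i₀ : ℕ) + M * t, h⟩ else a with hc
  have hci : ∀ t < T, (c t i₀ : ℕ) = a i₀ + M * t := by
    intro t ht
    simp only [hc]
    rw [dif_pos (hcb t ht), Function.update_self]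
  have hcj : ∀ t < T, ∀ j, j ≠ i₀ → c t j = a j := by
    intro t ht j hj
    simp only [hc]
    rw [dif_pos (hcb t ht), Function.update_of_ne hj]
  have hMt : ∀ t < T, M * t + M ≤ N := by
    intro t ht
    have : M * (t + 1) ≤ M * T := Nat.mul_le_mul_left _ ht
    linarith
  have hcM : ∀ t < T, ∀ i ∈ J, (c t i : ℕ) + M ≤ a i + N := by
    intro t ht i _
    by_cases hii : i = i₀
    · subst hii
      rw [hci t ht]
      have := hMt t ht
      omega
    · rw [hcj t ht i hii]; omega
  have hcQ : ∀ t < T, c t ∈ cube J a N := by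
    intro t ht
    rw [mem_cube]
    refine ⟨fun i hi => ?_, fun i hi => hcj t ht i (fun h => hi (h ▸ hi₀))⟩
    have h2 := hcM t ht i hi
    by_cases hii : i = i₀
    · subst hii
      rw [hci t ht] at h2 ⊢
      omega
    · rw [hcj t ht i hii] at h2 ⊢
      omega
  have hcfit : ∀ t < T, ∀ i ∈ J, (c t i : ℕ) + M ≤ n := by
    intro t ht i hi
    have h2 := hcM t ht i hi
    have h3 := hfit i hi
    omega
  have hcell : ∀ t < T, cube J (c t) M ⊆ cube J a N := by
    intro t ht x hx
    have h2 := mem_cube.mp (hcQ t ht)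
    rw [mem_cube] at hx ⊢
    refine ⟨fun j hj => ?_, fun j hj => ?_⟩
    · have h3 := hx.1 j hj
      have h4 := h2.1 j hj
      have h5 := hcM t ht j hj
      omega
    · rw [hx.2 j hj, h2.2 j hj]
  set G : ℕ → Finset (Vx n d) → Prop := fun t A =>
    cube J (c t) L ⊆ A ∧ Grows J (c t) L M A with hG
  have hGP : ∀ t < T, Pr p univ (fun A => ¬ G t A) ≤ 1 - p ^ (L ^ #J) / 2 := by
    intro t ht
    rw [Pr_compl]
    have := Pr_cell (c := c t) h0 h1 hL (hcfit t ht) (φ := φ)
      (fun k hk => hφ k (Finset.mem_Icc.mpr ⟨(Finset.mem_Ico.mp hk).1,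
        (Finset.mem_Ico.mp hk).2.le⟩)) hsum
    have h2 : Pr p univ (fun A => G t A) =
      Pr p univ (fun A => cube J (c t) L ⊆ A ∧ Grows J (c t) L M A) := rfl
    linarith
  have hq0 : 0 ≤ 1 - p ^ (L ^ #J) / 2 := by
    have : p ^ (L ^ #J) ≤ 1 := pow_le_one₀ h0 h1
    linarith
  have k1 : Pr p univ (fun A => ∀ t < T, ¬ G t A) ≤ (1 - p ^ (L ^ #J) / 2) ^ T := by
    refine Pr_forall_le h0 h1 hq0 (fun t => cube J (c t) M) (fun t A => ¬ G t A) T ?_ ?_ hGP
    · intro t ht t' ht'
      rw [Finset.disjoint_left]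
      intro x hx hx'
      have e1 := (mem_cube.mp hx).1 i₀ hi₀
      have e2 := (mem_cube.mp hx').1 i₀ hi₀
      rw [hci t ht] at e1
      rw [hci t' (by omega)] at e2
      have e3 : M * (t' + 1) ≤ M * t := Nat.mul_le_mul_left _ ht'
      have e4 : M * (t' + 1) = M * t' + M := by ring
      omega
    · intro t ht A A' hAA
      refine not_congr (and_congr ?_ ?_)
      · have hsub : cube J (c t) L ⊆ cube J (c t) M := cube_mono hLM
        constructor
        · intro h v hv
          exact (hAA v (hsub hv)).mp (h hv)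
        · intro h v hv
          exact (hAA v (hsub hv)).mpr (h hv)
      · exact Grows.congr hL (hcfit t ht) (fun v hv _ => hAA v hv)
  -- the faces
  set Fc : Finset (Vx n d) → Prop := fun A => ∃ i ∈ J, ∃ a' ∈ (cube J a N).filter
    (fun a' => ∀ j ∈ J.erase i, (a' j : ℕ) + M ≤ a j + N),
      ¬ Filled (cube (J.erase i) a' M) #(J.erase i) A with hFc
  have k2 : Pr p univ Fc ≤ #J * N ^ #J * φ M := by
    have hφ0 : 0 ≤ φ M := by
      refine le_trans (Pr_nonneg h0 h1) (hφ M (Finset.mem_Icc.mpr ⟨hLM, le_rfl⟩) i₀ hi₀ a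
        (fun j hj => ?_))
      have := hfit j (mem_of_mem_erase hj)
      omega
    refine (Pr_exists_le h0 h1 _ _).trans ?_
    have h5 : ∀ i ∈ J, Pr p univ (fun A => ∃ a' ∈ (cube J a N).filter
        (fun a' => ∀ j ∈ J.erase i, (a' j : ℕ) + M ≤ a j + N),
        ¬ Filled (cube (J.erase i) a' M) #(J.erase i) A) ≤ N ^ #J * φ M := by
      intro i hi
      refine (Pr_exists_le h0 h1 _ _).trans ?_
      have h6 : ∀ a' ∈ (cube J a N).filter
          (fun a' => ∀ j ∈ J.erase i, (a' j : ℕ) + M ≤ a j + N),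
          Pr p univ (fun A => ¬ Filled (cube (J.erase i) a' M) #(J.erase i) A) ≤ φ M := by
        intro a' ha'
        refine hφ M (Finset.mem_Icc.mpr ⟨hLM, le_rfl⟩) i hi a' (fun j hj => ?_)
        have h7 := (mem_filter.mp ha').2 j hj
        have h8 := hfit j (mem_of_mem_erase hj)
        omega
      refine (Finset.sum_le_sum h6).trans ?_
      rw [Finset.sum_const, nsmul_eq_mul]
      refine mul_le_mul_of_nonneg_right ?_ hφ0
      have h9 : #((cube J a N).filter
          (fun a' => ∀ j ∈ J.erase i, (a' j : ℕ) + M ≤ a j + N)) ≤ N ^ #J :=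
        (card_le_card (Finset.filter_subset _ _)).trans (card_cube_le J a N)
      exact_mod_cast h9
    refine (Finset.sum_le_sum h5).trans ?_
    rw [Finset.sum_const, nsmul_eq_mul]
    exact le_of_eq (by ring)
  -- conclusion
  have k3 : Pr p univ (fun A => ¬ Filled (cube J a N) #J A) ≤
      Pr p univ (fun A => (∀ t < T, ¬ G t A) ∨ Fc A) := by
    refine Pr_mono h0 h1 (fun A _ hA => ?_)
    by_contra hcon
    push Not at hcon
    obtain ⟨⟨t, ht, hGt⟩, hF⟩ := hcon
    apply hA
    intro X hAX hX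
    have hfull : cube J (c t) M ⊆ X :=
      grows_full hL hLM (hcfit t ht) hAX hX (hcell t ht) hGt.1 hGt.2
    refine full_of_cell hM hMN hfit hAX hX ?_ (hcQ t ht) (hcM t ht) hfull
    intro i hi a' ha' hfa
    by_contra hcon
    exact hF ⟨i, hi, a', mem_filter.mpr ⟨ha', hfa⟩, hcon⟩
  exact k3.trans ((Pr_or_le h0 h1).trans (add_le_add k1 k2))

end Pool.Agent.Tower332
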